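import Pool.Agent.Lib.P9f173dU.Base
import Pool.Agent.Lib.P9f173dA.Hilb
import Pool.Agent.Lib.Z9f173d.Defs

/-!
A group that is not amenable (Følner) has no almost invariant square-summable functions.
-/

namespace Pool.Agent.Lib.P9f173dU

open Pool.Agent.Lib.P9f173d

universe u

/-- The isoperimetric inequality for functions. -/
theorem coarea {Γ : Type u} [Group Γ] (S : Finset Γ) (ε : ℝ)
    (h : ∀ K : Finset Γ, ε * (K.card : ℝ) ≤
      ∑ s ∈ S, ((Nat.card {k : Γ // k ∈ K ∧ s * k ∉ K} : ℕ) : ℝ)) (n : ℕ) :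
    ∀ K : Finset Γ, K.card = n → ∀ g : Γ → ℝ, (∀ x ∈ K, 0 < g x) → (∀ x ∉ K, g x = 0) →
      ε * ∑ x ∈ K, g x ≤ ∑ s ∈ S, ∑ x ∈ K, max (g x - g (s * x)) 0 := by
  classical
  induction n using Nat.strong_induction_on with
  | _ n ih =>
    intro K hK g hg hg0
    rcases K.eq_empty_or_nonempty with rfl | hne
    · simp
    obtain ⟨x0, hx0, hmin⟩ := K.exists_min_image g hne
    set m := g x0 with hm
    have hm0 : 0 < m := hg x0 hx0
    set K' := K.filter fun x => m < g x with hK'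
    have hlt : K'.card < n := by
      rw [← hK]
      apply Finset.card_lt_card
      rw [Finset.ssubset_iff_of_subset (Finset.filter_subset _ _)]
      refine ⟨x0, hx0, ?_⟩
      rw [Finset.mem_filter]
      rintro ⟨-, h1⟩
      exact lt_irrefl _ h1
    set g' : Γ → ℝ := fun x => if x ∈ K then g x - m else 0 with hg'
    have h1 := ih K'.card hlt K' rfl g'
      (by
        intro x hx
        rw [hK', Finset.mem_filter] at hx
        simp only [hg']
        rw [if_pos hx.1]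
        linarith [hx.2])
      (by
        intro x hx
        simp only [hg']
        split_ifs with h2
        · have h3 : ¬ m < g x := fun h3 => hx (by rw [hK', Finset.mem_filter]; exact ⟨h2, h3⟩)
          have h4 := hmin x h2
          linarith [not_lt.mp h3]
        · rfl)
    have hsub : K' ⊆ K := Finset.filter_subset _ _
    have hg'0 : ∀ x ∈ K, x ∉ K' → g' x = 0 := by
      intro x h2 hx
      simp only [hg']
      rw [if_pos h2]
      have h3 : ¬ m < g x := fun h3 => hx (by rw [hK', Finset.mem_filter]; exact ⟨h2, h3⟩)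
      have h4 := hmin x h2
      linarith [not_lt.mp h3]
    have hg'n : ∀ x, 0 ≤ g' x := by
      intro x
      simp only [hg']
      split_ifs with h2
      · have := hmin x h2
        linarith
      · exact le_rfl
    have e1 : ∑ x ∈ K, g x = ∑ x ∈ K', g' x + m * K.card := by
      rw [Finset.sum_subset hsub (fun x hx hx' => hg'0 x hx hx')]
      have : ∀ x ∈ K, g x = g' x + m := by
        intro x hx
        simp only [hg']
        rw [if_pos hx]
        ring
      rw [Finset.sum_congr rfl this, Finset.sum_add_distrib, Finset.sum_const, nsmul_eq_mul]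
      ring
    have e2 : ∀ s, ∑ x ∈ K, max (g x - g (s * x)) 0 =
        ∑ x ∈ K', max (g' x - g' (s * x)) 0 +
          m * ((Nat.card {k : Γ // k ∈ K ∧ s * k ∉ K} : ℕ) : ℝ) := by
      intro s
      have e3 : ∑ x ∈ K', max (g' x - g' (s * x)) 0 = ∑ x ∈ K, max (g' x - g' (s * x)) 0 := by
        apply Finset.sum_subset hsub
        intro x hx hx'
        rw [hg'0 x hx hx', zero_sub]
        exact max_eq_right (by linarith [hg'n (s * x)])
      have e4 : ((Nat.card {k : Γ // k ∈ K ∧ s * k ∉ K} : ℕ) : ℝ) =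
          ∑ x ∈ K, if s * x ∉ K then 1 else 0 := by
        rw [← Finset.sum_filter, Finset.sum_const, nsmul_eq_mul, mul_one]
        congr 1
        exact Nat.subtype_card _ (fun x => Finset.mem_filter)
      rw [e3, e4, Finset.mul_sum, ← Finset.sum_add_distrib]
      apply Finset.sum_congr rfl
      intro x hx
      have e5 : g' x = g x - m := by simp only [hg']; rw [if_pos hx]
      by_cases hs : s * x ∈ K
      · have e6 : g' (s * x) = g (s * x) - m := by simp only [hg']; rw [if_pos hs]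
        rw [e5, e6]
        simp [hs]
      · have e6 : g' (s * x) = 0 := by simp only [hg']; rw [if_neg hs]
        have h7 := hmin x hx
        rw [e5, e6, hg0 _ hs]
        simp only [hs, not_false_eq_true, if_true, sub_zero, mul_one]
        rw [max_eq_left (hg x hx).le, max_eq_left (by linarith)]
        ring
    rw [e1]
    simp only [e2]
    rw [Finset.sum_add_distrib, ← Finset.mul_sum]
    have h5 := mul_le_mul_of_nonneg_left (h K) hm0.le
    nlinarith

theorem gap_fin {Γ : Type u} [Group Γ] (S : Finset Γ) (ε : ℝ)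
    (h : ∀ K : Finset Γ, ε * (K.card : ℝ) ≤
      ∑ s ∈ S, ((Nat.card {k : Γ // k ∈ K ∧ s * k ∉ K} : ℕ) : ℝ)) (v : Γ →₀ ℂ) (δ : ℝ) (hδ : 0 < δ) :
    ε * n2 v ≤ ∑ s ∈ S, ((1 / (2 * δ)) * ∑' x, ‖v (s * x) - v x‖ ^ 2 + 2 * δ * n2 v) := by
  classical
  have h1 := coarea S ε h v.support.card v.support rfl (fun x => ‖v x‖ ^ 2)
    (fun x hx => by
      have : 0 < ‖v x‖ := norm_pos_iff.mpr (Finsupp.mem_support_iff.mp hx)
      positivity)
    (fun x hx => by
      rw [Finsupp.notMem_support_iff.mp hx]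
      simp)
  refine h1.trans ?_
  apply Finset.sum_le_sum
  intro s _
  have hs1 : Summable fun x => ‖v (s * x)‖ ^ 2 :=
    (n2_summable v).comp_injective (mul_right_injective s)
  have hs2 : Summable fun x => ‖v (s * x) - v x‖ ^ 2 := by
    refine Summable.of_nonneg_of_le (fun x => by positivity) ?_
      ((hs1.mul_left 2).add ((n2_summable v).mul_left 2))
    intro x
    have h2 := norm_sub_le (v (s * x)) (v x)
    have h3 : ‖v (s * x) - v x‖ ^ 2 ≤ (‖v (s * x)‖ + ‖v x‖) ^ 2 :=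
      pow_le_pow_left₀ (norm_nonneg _) h2 2
    nlinarith [sq_nonneg (‖v (s * x)‖ - ‖v x‖)]
  have h4 : ∀ x ∈ v.support, max (‖v x‖ ^ 2 - ‖v (s * x)‖ ^ 2) 0 ≤
      (1 / (2 * δ)) * ‖v (s * x) - v x‖ ^ 2 + δ * (‖v x‖ ^ 2 + ‖v (s * x)‖ ^ 2) := by
    intro x _
    have h5 : 0 ≤ (1 / (2 * δ)) * ‖v (s * x) - v x‖ ^ 2 + δ * (‖v x‖ ^ 2 + ‖v (s * x)‖ ^ 2) := by
      positivity
    refine max_le ?_ h5
    have h6 : ‖v x‖ - ‖v (s * x)‖ ≤ ‖v (s * x) - v x‖ := by
      rw [norm_sub_rev]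
      exact norm_sub_norm_le _ _
    set a := ‖v x‖
    set b := ‖v (s * x)‖
    set c := ‖v (s * x) - v x‖
    have ha : 0 ≤ a := norm_nonneg _
    have hb : 0 ≤ b := norm_nonneg _
    have hc : 0 ≤ c := norm_nonneg _
    have h7 : a ^ 2 - b ^ 2 ≤ c * (a + b) := by nlinarith
    have h8 : c * (a + b) ≤ (1 / (2 * δ)) * c ^ 2 + (δ / 2) * (a + b) ^ 2 := by
      have h9 : 0 ≤ (1 / (2 * δ)) * (c - δ * (a + b)) ^ 2 := by positivity
      have h10 : (1 / (2 * δ)) * (c - δ * (a + b)) ^ 2 =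
          (1 / (2 * δ)) * c ^ 2 - c * (a + b) + (δ / 2) * (a + b) ^ 2 := by
        field_simp
        ring
      linarith
    have h11 : (δ / 2) * (a + b) ^ 2 ≤ δ * (a ^ 2 + b ^ 2) := by
      nlinarith [sq_nonneg (a - b), mul_nonneg hδ.le (sq_nonneg (a - b))]
    linarith
  refine (Finset.sum_le_sum h4).trans ?_
  rw [Finset.sum_add_distrib, ← Finset.mul_sum, ← Finset.mul_sum, Finset.sum_add_distrib]
  have h12 : ∑ x ∈ v.support, ‖v (s * x) - v x‖ ^ 2 ≤ ∑' x, ‖v (s * x) - v x‖ ^ 2 :=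
    hs2.sum_le_tsum _ (fun _ _ => by positivity)
  have h13 : ∑ x ∈ v.support, ‖v (s * x)‖ ^ 2 ≤ n2 v := by
    refine (hs1.sum_le_tsum _ (fun _ _ => by positivity)).trans ?_
    rw [n2_tsum]
    exact ((Equiv.mulLeft s).tsum_eq (fun x => ‖v x‖ ^ 2)).le
  have h14 : ∑ x ∈ v.support, ‖v x‖ ^ 2 = n2 v := rfl
  have h15 : 0 ≤ 1 / (2 * δ) := by positivity
  have h16 := mul_le_mul_of_nonneg_left h12 h15
  have h17 := mul_le_mul_of_nonneg_left h13 hδ.le
  rw [h14]
  linarith

theorem gap_of_not_foelner {Γ : Type u} [Group Γ] (h : ¬ Z9f173d.FoelnerAmenable Γ) :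
    ∃ (S : Finset Γ) (ε : ℝ), 0 < ε ∧ ∀ ξ : L2 Γ,
      ε * ∑' x, ‖ξ x‖ ^ 2 ≤ ∑ s ∈ S, ∑' x, ‖ξ (s * x) - ξ x‖ ^ 2 := by
  classical
  unfold Z9f173d.FoelnerAmenable at h
  push Not at h
  obtain ⟨S, ε, hε, hK⟩ := h
  have hS : S.Nonempty := by
    obtain ⟨s, hs, -⟩ := hK {1} (Finset.singleton_nonempty 1)
    exact ⟨s, hs⟩
  have hScard : 0 < (S.card : ℝ) := by exact_mod_cast hS.card_pos
  have hall : ∀ K : Finset Γ, ε * (K.card : ℝ) ≤
      ∑ s ∈ S, ((Nat.card {k : Γ // k ∈ K ∧ s * k ∉ K} : ℕ) : ℝ) := by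
    intro K
    rcases K.eq_empty_or_nonempty with rfl | hne
    · simp only [Finset.card_empty, Nat.cast_zero, mul_zero]
      exact Finset.sum_nonneg fun _ _ => Nat.cast_nonneg _
    · obtain ⟨s, hs, h1⟩ := hK K hne
      have h2 : (Nat.card K : ℝ) = K.card := by simp
      rw [h2] at h1
      exact h1.le.trans (Finset.single_le_sum
        (f := fun s => ((Nat.card {k : Γ // k ∈ K ∧ s * k ∉ K} : ℕ) : ℝ))
        (fun _ _ => Nat.cast_nonneg _) hs)
  set δ : ℝ := ε / (4 * S.card) with hδ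
  have hδ0 : 0 < δ := by positivity
  refine ⟨S, δ * ε, by positivity, ?_⟩
  -- finitely supported functions
  have hfin : ∀ v : Γ →₀ ℂ, δ * ε * ∑' x, ‖v x‖ ^ 2 ≤ ∑ s ∈ S, ∑' x, ‖v (s * x) - v x‖ ^ 2 := by
    intro v
    have h1 := gap_fin S ε hall v δ hδ0
    rw [← n2_tsum]
    rw [Finset.sum_add_distrib, Finset.sum_const, nsmul_eq_mul, ← Finset.mul_sum] at h1
    have h2 : (S.card : ℝ) * (2 * δ * n2 v) = ε / 2 * n2 v := by
      rw [hδ]
      field_simp
      ring
    rw [h2] at h1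
    have h3 : ε / 2 * n2 v ≤ 1 / (2 * δ) * ∑ s ∈ S, ∑' x, ‖v (s * x) - v x‖ ^ 2 := by linarith
    have h4 := mul_le_mul_of_nonneg_left h3 (by positivity : 0 ≤ 2 * δ)
    have h5 : 2 * δ * (1 / (2 * δ) * ∑ s ∈ S, ∑' x, ‖v (s * x) - v x‖ ^ 2) =
        ∑ s ∈ S, ∑' x, ‖v (s * x) - v x‖ ^ 2 := by
      field_simp
    rw [h5] at h4
    linarith
  -- all square-summable functions
  have hnorm : ∀ (ξ : L2 Γ) (s : Γ), ∑' x, ‖ξ (s * x) - ξ x‖ ^ 2 =
      ‖P9f173dA.lam s⁻¹ ξ - ξ‖ ^ 2 := by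
    intro ξ s
    rw [norm_sq_L2]
    apply tsum_congr
    intro x
    rw [lp.coeFn_sub, Pi.sub_apply, P9f173dA.lam_apply, inv_inv]
  intro ξ
  rw [← norm_sq_L2]
  simp only [hnorm]
  let F : L2 Γ → ℝ := fun ξ => ∑ s ∈ S, ‖P9f173dA.lam s⁻¹ ξ - ξ‖ ^ 2 - δ * ε * ‖ξ‖ ^ 2
  have hF : Continuous F := by
    apply Continuous.sub
    · refine continuous_finsetSum _ fun s _ => ?_
      exact (((P9f173dA.lam s⁻¹).continuous.sub continuous_id).norm).pow 2
    · exact continuous_const.mul (continuous_norm.pow 2)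
  have hlim : Filter.Tendsto (fun K : Finset Γ => ∑ x ∈ K, lp.single 2 x (ξ x)) Filter.atTop
      (nhds ξ) := lp.hasSum_single (by norm_num) ξ
  have hlimF := (hF.tendsto ξ).comp hlim
  have hpos : ∀ K : Finset Γ, 0 ≤ F (∑ x ∈ K, lp.single 2 x (ξ x)) := by
    intro K
    set η : L2 Γ := ∑ x ∈ K, lp.single 2 x (ξ x) with hη
    let v : Γ →₀ ℂ := ∑ x ∈ K, Finsupp.single x (ξ x)
    have hv : η = toL2 v := by
      rw [hη]
      simp only [v]
      rw [map_sum]
      apply Finset.sum_congr rfl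
      intro x _
      ext y
      rw [toL2_apply, lp.single_apply]
      by_cases hxy : y = x
      · subst hxy
        simp
      · rw [Pi.single_eq_of_ne hxy, Finsupp.single_eq_of_ne hxy]
    have h1 := hfin v
    have h2 : ∀ x, η x = v x := fun x => by rw [hv]; rfl
    simp only [← h2] at h1
    rw [← norm_sq_L2] at h1
    simp only [hnorm] at h1
    simp only [F]
    linarith
  have h1 : 0 ≤ F ξ := ge_of_tendsto hlimF (Filter.Eventually.of_forall hpos)
  simp only [F] at h1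
  linarith

end Pool.Agent.Lib.P9f173dU
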