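import Pool.Agent.Lib.P9f173dU.Defs

/-!
Norms of finitely supported functions, square-summable functionals and dual operators.
-/

namespace Pool.Agent.Lib.P9f173dU

open Pool.Agent.Lib.P9f173d

section n2

variable {X : Type*}

theorem n2_eq_sum {v : X →₀ ℂ} {s : Finset X} (h : v.support ⊆ s) : n2 v = ∑ x ∈ s, ‖v x‖ ^ 2 := by
  unfold n2
  apply Finset.sum_subset h
  intro x _ hx
  rw [Finsupp.notMem_support_iff.mp hx]
  simp

theorem n2_nonneg (v : X →₀ ℂ) : 0 ≤ n2 v := Finset.sum_nonneg fun _ _ => by positivity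

theorem n2_zero : n2 (0 : X →₀ ℂ) = 0 := by simp [n2]

theorem n2_tsum (v : X →₀ ℂ) : n2 v = ∑' x, ‖v x‖ ^ 2 := by
  unfold n2
  symm
  apply tsum_eq_sum
  intro x hx
  rw [Finsupp.notMem_support_iff.mp hx]
  simp

theorem n2_summable (v : X →₀ ℂ) : Summable fun x => ‖v x‖ ^ 2 := by
  apply summable_of_ne_finset_zero (s := v.support)
  intro x hx
  rw [Finsupp.notMem_support_iff.mp hx]
  simp

theorem eq_zero_of_n2 {v : X →₀ ℂ} (h : n2 v ≤ 0) : v = 0 := by
  ext x
  by_contra hx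
  have h1 : x ∈ v.support := Finsupp.mem_support_iff.mpr hx
  have h2 : ‖v x‖ ^ 2 ≤ n2 v :=
    Finset.single_le_sum (f := fun x => ‖v x‖ ^ 2) (fun _ _ => by positivity) h1
  have h3 : 0 < ‖v x‖ := norm_pos_iff.mpr hx
  nlinarith [sq_nonneg ‖v x‖, pow_pos h3 2]

theorem n2_smul (c : ℂ) (v : X →₀ ℂ) : n2 (c • v) = ‖c‖ ^ 2 * n2 v := by
  rw [n2_tsum, n2_tsum, ← tsum_mul_left]
  apply tsum_congr
  intro x
  rw [Finsupp.smul_apply, smul_eq_mul, norm_mul, mul_pow]

theorem n2_neg (v : X →₀ ℂ) : n2 (-v) = n2 v := by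
  rw [n2_tsum, n2_tsum]
  apply tsum_congr
  intro x
  rw [Finsupp.neg_apply, norm_neg]

theorem n2_add_le (v w : X →₀ ℂ) : n2 (v + w) ≤ 2 * n2 v + 2 * n2 w := by
  classical
  rw [n2_eq_sum (s := v.support ∪ w.support) Finsupp.support_add,
    n2_eq_sum (v := v) (s := v.support ∪ w.support) Finset.subset_union_left,
    n2_eq_sum (v := w) (s := v.support ∪ w.support) Finset.subset_union_right,
    Finset.mul_sum, Finset.mul_sum, ← Finset.sum_add_distrib]
  apply Finset.sum_le_sum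
  intro x _
  rw [Finsupp.add_apply]
  have h2 := norm_add_le (v x) (w x)
  have h3 : ‖v x + w x‖ ^ 2 ≤ (‖v x‖ + ‖w x‖) ^ 2 := pow_le_pow_left₀ (norm_nonneg _) h2 2
  nlinarith [sq_nonneg (‖v x‖ - ‖w x‖)]

theorem n2_single (x : X) (c : ℂ) : n2 (Finsupp.single x c) = ‖c‖ ^ 2 := by
  classical
  rw [n2_eq_sum (s := {x}) Finsupp.support_single_subset]
  simp

theorem n2_prep {Γ : Type*} [Group Γ] (a : Γ →* Equiv.Perm X) (γ : Γ) (v : X →₀ ℂ) :
    n2 (prep a γ v) = n2 v := by
  rw [n2_tsum, n2_tsum, ← (a γ).tsum_eq]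
  apply tsum_congr
  intro x
  rw [prep_apply]
  congr 3
  rw [map_inv]
  simp

end n2

section L2

variable {X : Type*}

/-- Finitely supported functions are square-summable. -/
noncomputable def toL2 : (X →₀ ℂ) →ₗ[ℂ] L2 X where
  toFun v := ⟨fun x => v x, FreeRes.memL2_of (n2_summable v)⟩
  map_add' v w := by
    ext x
    rfl
  map_smul' c v := by
    ext x
    rfl

theorem toL2_apply (v : X →₀ ℂ) (x : X) : toL2 v x = v x := rfl

theorem norm_sq_L2 (f : L2 X) : ‖f‖ ^ 2 = ∑' x, ‖f x‖ ^ 2 := by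
  have h1 := lp.norm_rpow_eq_tsum (p := 2) (by norm_num) f
  simp only [ENNReal.toReal_ofNat] at h1
  have h2 : ‖f‖ ^ (2 : ℝ) = ‖f‖ ^ 2 := by
    rw [← Real.rpow_natCast]; norm_num
  rw [← h2, h1]
  apply tsum_congr
  intro x
  rw [← Real.rpow_natCast]; norm_num

theorem norm_toL2 (v : X →₀ ℂ) : ‖toL2 v‖ ^ 2 = n2 v := by
  rw [norm_sq_L2, n2_tsum]
  rfl

/-- The functional of a function. -/
noncomputable def ev (f : X → ℂ) : (X →₀ ℂ) →ₗ[ℂ] ℂ := Finsupp.linearCombination ℂ f

theorem ev_single (f : X → ℂ) (x : X) (c : ℂ) : ev f (Finsupp.single x c) = c * f x := by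
  simp [ev]

theorem ev_apply (f : X → ℂ) (v : X →₀ ℂ) : ev f v = ∑ x ∈ v.support, v x * f x := by
  simp [ev, Finsupp.linearCombination_apply, Finsupp.sum]

theorem ev_coe (u : (X →₀ ℂ) →ₗ[ℂ] ℂ) : ev (fun x => u (Finsupp.single x 1)) = u := by
  apply Finsupp.lhom_ext'
  intro x
  ext
  simp only [LinearMap.coe_comp, Function.comp_apply, Finsupp.lsingle_apply]
  rw [ev_single, one_mul]

theorem norm_ev_le (f : L2 X) (v : X →₀ ℂ) : ‖ev f v‖ ^ 2 ≤ ‖f‖ ^ 2 * n2 v := by
  rw [ev_apply]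
  have h1 : ‖∑ x ∈ v.support, v x * f x‖ ≤ ∑ x ∈ v.support, ‖v x‖ * ‖f x‖ := by
    refine (norm_sum_le _ _).trans ?_
    apply le_of_eq
    apply Finset.sum_congr rfl
    intro x _
    rw [norm_mul]
  have h2 := Finset.sum_mul_sq_le_sq_mul_sq v.support (fun x => ‖v x‖) (fun x => ‖f x‖)
  have h3 : ∑ x ∈ v.support, ‖f x‖ ^ 2 ≤ ‖f‖ ^ 2 := by
    rw [norm_sq_L2]
    exact (FreeRes.summable_L2 f).sum_le_tsum _ (fun _ _ => by positivity)
  calc ‖∑ x ∈ v.support, v x * f x‖ ^ 2 ≤ (∑ x ∈ v.support, ‖v x‖ * ‖f x‖) ^ 2 :=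
        pow_le_pow_left₀ (norm_nonneg _) h1 2
    _ ≤ (∑ x ∈ v.support, ‖v x‖ ^ 2) * ∑ x ∈ v.support, ‖f x‖ ^ 2 := h2
    _ ≤ n2 v * ‖f‖ ^ 2 := mul_le_mul_of_nonneg_left h3 (n2_nonneg v)
    _ = _ := mul_comm _ _

end L2

section HH

variable {Γ X : Type*} [Group Γ]

theorem HH_iff {a : Γ →* Equiv.Perm X} (hfree : ∀ γ x, a γ x = x → γ = 1)
    (hfin : ∃ B : Finset X, ∀ x, ∃ γ, a γ x ∈ B) (u : (X →₀ ℂ) →ₗ[ℂ] ℂ) :
    HH (prep a) u ↔ Summable fun x => ‖u (Finsupp.single x 1)‖ ^ 2 := by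
  classical
  have hinj : ∀ x, Function.Injective (fun γ => a γ x) := by
    intro x γ δ h
    have h1 : a (δ⁻¹ * γ) x = x := by
      have h2 : a γ x = a δ x := h
      rw [map_mul, Equiv.Perm.mul_apply, h2, map_inv]
      simp
    have h3 := hfree _ _ h1
    exact (inv_mul_eq_one.mp h3).symm
  constructor
  · intro h
    obtain ⟨B, hB⟩ := hfin
    have h1 : ∀ b ∈ B, Summable ((Set.range fun γ => a γ b).indicator
        fun x => ‖u (Finsupp.single x 1)‖ ^ 2) := by
      intro b _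
      rw [← (hinj b).summable_iff]
      · have h2 := h (Finsupp.single b 1)
        refine h2.congr ?_
        intro γ
        simp only [Function.comp_apply]
        have h5 : a γ b ∈ Set.range fun γ => a γ b := ⟨γ, rfl⟩
        rw [Set.indicator_of_mem h5, prep_single]
      · intro x hx
        rw [Set.indicator_of_notMem hx]
    have h3 := summable_sum h1
    refine Summable.of_nonneg_of_le (fun x => by positivity) ?_ h3
    intro x
    obtain ⟨γ, hγ⟩ := hB x
    have h4 : (Set.range fun δ => a δ (a γ x)).indicator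
        (fun x => ‖u (Finsupp.single x 1)‖ ^ 2) x = ‖u (Finsupp.single x 1)‖ ^ 2 := by
      apply Set.indicator_of_mem
      refine ⟨γ⁻¹, ?_⟩
      simp only
      rw [map_inv]
      simp
    refine h4.symm.le.trans ?_
    exact Finset.single_le_sum (f := fun b => (Set.range fun δ => a δ b).indicator
      (fun x => ‖u (Finsupp.single x 1)‖ ^ 2) x)
      (fun b _ => Set.indicator_nonneg (fun _ _ => by positivity) _) hγ
  · intro h
    apply HH_of_basis
    intro y
    exact h.comp_injective (hinj y)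

/-- The dual operator of an equivariant operator. -/
theorem exists_dual {Y : Type*} {a : Γ →* Equiv.Perm X} {b : Γ →* Equiv.Perm Y}
    (hfree : ∀ γ x, a γ x = x → γ = 1) (hfin : ∃ B : Finset X, ∀ x, ∃ γ, a γ x ∈ B)
    (hfree' : ∀ γ x, b γ x = x → γ = 1) (hfin' : ∃ B : Finset Y, ∀ x, ∃ γ, b γ x ∈ B)
    (A : (X →₀ ℂ) →ₗ[ℂ] (Y →₀ ℂ)) (hA : Eqv (prep a) (prep b) A) :
    ∃ A' : L2 Y →L[ℂ] L2 X, ∀ (f : L2 Y) (v : X →₀ ℂ), ev (A' f) v = ev f (A v) := by
  have h1 : ∀ f : L2 Y, Summable fun x => ‖ev f (A (Finsupp.single x 1))‖ ^ 2 := by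
    intro f
    have h2 : HH (prep b) (ev f) := by
      rw [HH_iff hfree' hfin']
      refine (FreeRes.summable_L2 f).congr ?_
      intro y
      rw [ev_single, one_mul]
    have h3 := h2.comp hA
    rw [HH_iff hfree hfin] at h3
    exact h3
  let T : L2 Y →ₗ[ℂ] L2 X :=
    { toFun := fun f => ⟨fun x => ev f (A (Finsupp.single x 1)), FreeRes.memL2_of (h1 f)⟩
      map_add' := by
        intro f g
        ext x
        show ev (f + g : L2 Y) (A (Finsupp.single x 1)) = ev f (A (Finsupp.single x 1)) +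
          ev g (A (Finsupp.single x 1))
        rw [ev_apply, ev_apply, ev_apply, ← Finset.sum_add_distrib]
        apply Finset.sum_congr rfl
        intro y _
        rw [lp.coeFn_add, Pi.add_apply, mul_add]
      map_smul' := by
        intro c f
        ext x
        show ev (c • f : L2 Y) (A (Finsupp.single x 1)) = c * ev f (A (Finsupp.single x 1))
        rw [ev_apply, ev_apply, Finset.mul_sum]
        apply Finset.sum_congr rfl
        intro y _
        rw [lp.coeFn_smul, Pi.smul_apply, smul_eq_mul]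
        ring }
  have hT : ∀ f x, T f x = ev f (A (Finsupp.single x 1)) := fun f x => rfl
  have hcont : ∀ (v : Y →₀ ℂ), Continuous fun f : L2 Y => ev f v := by
    intro v
    simp only [ev_apply]
    refine continuous_finsetSum _ fun y _ => ?_
    refine continuous_const.mul ?_
    exact (lp.evalCLM ℂ (fun _ : Y => ℂ) 2 y).continuous
  have hcl : ∀ (u : ℕ → L2 Y) (f : L2 Y) (g : L2 X), Filter.Tendsto u Filter.atTop (nhds f) →
      Filter.Tendsto (T ∘ u) Filter.atTop (nhds g) → g = T f := by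
    intro u f g hu hg
    ext x
    have h2 : Filter.Tendsto (fun n => (T (u n)) x) Filter.atTop (nhds (g x)) :=
      ((lp.evalCLM ℂ (fun _ : X => ℂ) 2 x).continuous.tendsto g).comp hg
    have h3 : Filter.Tendsto (fun n => (T (u n)) x) Filter.atTop (nhds (T f x)) := by
      simp only [hT]
      exact ((hcont _).tendsto f).comp hu
    exact tendsto_nhds_unique h2 h3
  refine ⟨ContinuousLinearMap.ofSeqClosedGraph (g := T) (fun u x y h1 h2 => hcl u x y h1 h2), ?_⟩
  intro f v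
  have key : ev (T f) = ev f ∘ₗ A := by
    apply Finsupp.lhom_ext'
    intro x
    ext
    simp only [LinearMap.coe_comp, Function.comp_apply, Finsupp.lsingle_apply]
    rw [ev_single, one_mul, hT]
  exact congrArg (fun S => S v) key

end HH

end Pool.Agent.Lib.P9f173dU
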