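import Pool.Agent.Lib.P9f173dU.Cyc

/-!
A class of groups.
-/

namespace Pool.Agent.Lib.P9f173dU

open Pool.Agent.Lib.P9f173d

universe u

/-- The subgroup generated by the elements `t j` with `j < k`. -/
def ch {G : Type u} [Group G] {n : ℕ} (t : Fin n → G) (k : ℕ) : Subgroup G :=
  Subgroup.closure (t '' {j | (j : ℕ) < k})

/-- The elements `t 0, …, t (n - 1)` generate a poly-(infinite cyclic) group of Hirsch length `n`:
each `t i` normalises the subgroup generated by the `t j` with `j < i`, and no nonzero power of
`t i` lies in that subgroup. -/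
def IsPolyZ {G : Type u} [Group G] {n : ℕ} (t : Fin n → G) : Prop :=
  ∀ i : Fin n, (∀ j < i, t i * t j * (t i)⁻¹ ∈ ch t i ∧ (t i)⁻¹ * t j * t i ∈ ch t i) ∧
    ∀ m : ℤ, t i ^ m ∈ ch t i → m = 0

/-- Følner's condition: the discrete group `G` is amenable. -/
def FoelnerAmenable (G : Type u) [Group G] : Prop :=
  ∀ (S : Finset G) (ε : ℝ), 0 < ε → ∃ K : Finset G, K.Nonempty ∧
    ∀ s ∈ S, (Nat.card {k : G // k ∈ K ∧ s * k ∉ K} : ℝ) ≤ ε * (Nat.card K : ℝ)

/-- A class of groups, each with a degree `n` that bounds the length of some resolution: groups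
with a Følner cycle of degree `n`; groups with a poly-(infinite cyclic) subgroup of Hirsch length
`n`; nonamenable groups with a resolution of length at most `2` and nonnegative Euler
characteristic; direct products of such groups; their subgroups of finite index; and the groups
with a resolution of length at most `n` that contain such a group of degree `n`. -/
inductive TopClass : (G : Type u) → [Group G] → ℕ → Prop
  | folner {G : Type u} [Group G] {n : ℕ} (R : FinRes G) (z : R.cell → G → ℂ)
      (hn : ∀ c, R.dim c ≤ n) (hz : IsFolnerCycle R n z) : TopClass G n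
  | polycyclic {G : Type u} [Group G] {n : ℕ} (R : FinRes G) (t : Fin n → G)
      (hn : ∀ c, R.dim c ≤ n) (ht : IsPolyZ t) : TopClass G n
  | euler {G : Type u} [Group G] (R : FinRes G) (hn : ∀ c, R.dim c ≤ 2)
      (hG : ¬ FoelnerAmenable G) (hR : 0 ≤ ∑ c, (-1 : ℤ) ^ R.dim c) : TopClass G 2
  | prod {G H : Type u} [Group G] [Group H] {m n : ℕ} (hG : TopClass G m)
      (hH : TopClass H n) : TopClass (G × H) (m + n)
  | finiteIndex {G H : Type u} [Group G] [Group H] {n : ℕ} (f : H →* G)
      (hf : Function.Injective f) (hf' : f.range.FiniteIndex) (hG : TopClass G n) :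
      TopClass H n
  | overgroup {G H : Type u} [Group G] [Group H] {n : ℕ} (R : FinRes G) (f : H →* G)
      (hn : ∀ c, R.dim c ≤ n) (hf : Function.Injective f) (hH : TopClass H n) : TopClass G n

end Pool.Agent.Lib.P9f173dU
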