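import Pool.Agent.Lib.P9f173dU.Mono

/-!
From resolutions over the integers, and the conclusion on homology with coefficients in the
reduced algebra.
-/

namespace Pool.Agent.Lib.P9f173dU

open Pool.Agent.Lib.P9f173d

universe u

variable {Γ : Type u} [Group Γ]

/-- The complex of a resolution. -/
noncomputable def ofRes (R : FinRes Γ) {n : ℕ} (hn : ∀ c, R.dim c ≤ n) : BCx Γ n where
  X := Γ × R.cell
  act := lact Γ R.cell
  free := by
    rintro γ ⟨x, c⟩ h
    have h1 : (γ * x, c) = (x, c) := h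
    have h2 : γ * x = x := (Prod.mk.inj h1).1
    simpa using h2
  fin := by
    classical
    refine ⟨Finset.univ.image fun c : R.cell => ((1 : Γ), c), ?_⟩
    rintro ⟨x, c⟩
    refine ⟨x⁻¹, ?_⟩
    rw [Finset.mem_image]
    refine ⟨c, Finset.mem_univ _, ?_⟩
    rw [lact_apply, inv_mul_cancel]
  deg := fun p => R.dim p.2
  deg_le := fun p => hn p.2
  deg_act := fun _ _ => rfl
  d := mbd R.toFreeRes.bdC
  d_act := mbd_eqv R.toFreeRes.bdC
  d_deg := by
    classical
    rintro ⟨x, c⟩ ⟨y, c'⟩ h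
    apply R.toFreeRes.bdC_dim
    intro h0
    apply h
    rw [mbd_single_apply, h0]
    simp
  d_d := fun v => mbd_mbd R.toFreeRes.bdC_bdC v
  ε := augm (fun c => (R.aug c : ℂ))
  ε_act := augm_eqv _
  ε_deg := by
    rintro ⟨x, c⟩ h
    apply R.aug_dim
    intro h0
    apply h
    rw [augm_single, h0]
    simp
  ε_d := fun v => augm_mbd R.toFreeRes.aug_bdC v
  exact := (R.toFreeRes.toCx_exact (MonoidHom.id Γ)).1
  surj := (R.toFreeRes.toCx_exact (MonoidHom.id Γ)).2

/-- The conclusion. -/
theorem concl {n : ℕ} {C : BCx Γ n} (hC : C.Top) (R : FinRes Γ)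
    {H : Type*} [NormedAddCommGroup H] [InnerProductSpace ℂ H] [CompleteSpace H]
    {b : HilbertBasis Γ ℂ H} {lam : Γ →* (H →L[ℂ] H)} (hlam : ∀ g h, lam g (b h) = b (g * h)) :
    ∃ i : ℕ, HomologyNonzero R lam i := by
  by_contra hcon
  push Not at hcon
  have h1 : ∀ i, Subsingleton (R.toFreeRes.HRed lam i) := by
    intro i
    rw [← not_nontrivial_iff_subsingleton]
    intro h2
    exact hcon i (homologyNonzero_of_nontrivial R lam h2)
  have h2 := R.toFreeRes.hhExact_id hlam h1
  have h3 : HHExact (C.res (MonoidHom.id Γ)) :=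
    h2.transfer (R.toFreeRes.toCx_proj _ Function.injective_id)
      (C.res_proj _ Function.injective_id) (R.toFreeRes.toCx_exact _) (C.res_exact _)
  exact C.not_top_of_topEx (C.topEx_of_hhExact h3) hC

end Pool.Agent.Lib.P9f173dU
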