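import Pool.Agent.Lib.P9f173d.Stmt
import Pool.Agent.Lib.P9f173d.Mat
import Pool.Agent.Lib.P9f173dA.Main
import Pool.Agent.Lib.Z9f173d.Defs

/-!
Comparison of the three descriptions of finite free resolutions.
-/

namespace Pool.Agent.Lib.P9f173dU

open Pool.Agent.Lib.P9f173d
open scoped Matrix

universe u

variable {Γ : Type u} [Group Γ] (R : FinRes Γ)

theorem coeffSum_eq_eps (x : MonoidAlgebra ℤ Γ) :
    Pool.Agent.Lib.P9f173d.coeffSum x = Pool.Agent.Lib.P9f173d.eps x := rfl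

theorem coeffSum_mul (x y : MonoidAlgebra ℤ Γ) :
    Pool.Agent.Lib.P9f173d.coeffSum (x * y) =
      Pool.Agent.Lib.P9f173d.coeffSum x * Pool.Agent.Lib.P9f173d.coeffSum y := by
  rw [coeffSum_eq_eps, coeffSum_eq_eps, coeffSum_eq_eps]
  exact Pool.Agent.Lib.P9f173d.eps_mul x y

theorem coeffSum_add (x y : MonoidAlgebra ℤ Γ) :
    Pool.Agent.Lib.P9f173d.coeffSum (x + y) =
      Pool.Agent.Lib.P9f173d.coeffSum x + Pool.Agent.Lib.P9f173d.coeffSum y := by
  rw [coeffSum_eq_eps, coeffSum_eq_eps, coeffSum_eq_eps, map_add]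

theorem coeffSum_zero : Pool.Agent.Lib.P9f173d.coeffSum (0 : MonoidAlgebra ℤ Γ) = 0 := by
  rw [coeffSum_eq_eps, map_zero]

theorem coeffSum_single (g : Γ) (a : ℤ) :
    Pool.Agent.Lib.P9f173d.coeffSum (MonoidAlgebra.single g a) = a := by
  rw [coeffSum_eq_eps, Pool.Agent.Lib.P9f173d.eps_single]

theorem coeffSum_sum {ι : Type*} (s : Finset ι) (f : ι → MonoidAlgebra ℤ Γ) :
    Pool.Agent.Lib.P9f173d.coeffSum (∑ i ∈ s, f i) =
      ∑ i ∈ s, Pool.Agent.Lib.P9f173d.coeffSum (f i) := by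
  simp only [coeffSum_eq_eps]
  rw [map_sum]

theorem coeffSumA_eq (x : MonoidAlgebra ℤ Γ) :
    Pool.Agent.Lib.P9f173dA.coeffSum Γ x = Pool.Agent.Lib.P9f173d.coeffSum x := by
  induction x using MonoidAlgebra.induction_linear with
  | zero => rw [map_zero, coeffSum_zero]
  | add a b ha hb => rw [map_add, ha, hb, coeffSum_add]
  | single g r =>
    rw [coeffSum_single]
    unfold Pool.Agent.Lib.P9f173dA.coeffSum
    show MonoidAlgebra.lift ℤ ℤ Γ (1 : Γ →* ℤ) (MonoidAlgebra.single g r) = r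
    rw [MonoidAlgebra.lift_single]
    simp

theorem epsZ_eq (x : MonoidAlgebra ℤ Γ) :
    Z9f173d.eps Γ x = Pool.Agent.Lib.P9f173d.coeffSum x := coeffSumA_eq x

/-- The cells of dimension `i`. -/
abbrev Cel (i : ℕ) : Type := {c : R.cell // R.dim c = i}

/-- The number of cells of dimension `i`. -/
noncomputable def rk (i : ℕ) : ℕ := Fintype.card (Cel R i)

/-- An enumeration of the cells of dimension `i`. -/
noncomputable def en (i : ℕ) : Fin (rk R i) ≃ Cel R i := (Fintype.equivFin _).symm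

theorem en_dim (i : ℕ) (j : Fin (rk R i)) : R.dim (en R i j).1 = i := (en R i j).2

theorem sum_en {M : Type*} [AddCommMonoid M] (i : ℕ) (f : R.cell → M)
    (hf : ∀ c, R.dim c ≠ i → f c = 0) : ∑ c, f c = ∑ j, f (en R i j).1 := by
  classical
  rw [(en R i).sum_comp (fun c : Cel R i => f c.1),
    ← Finset.sum_subtype (Finset.univ.filter fun c => R.dim c = i) (by simp) f,
    Finset.sum_filter]
  apply Finset.sum_congr rfl
  intro c _
  split_ifs with h
  · rfl
  · exact hf c h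

/-- The matrices of the differentials. -/
noncomputable def mt (i : ℕ) : Matrix (Fin (rk R (i + 1))) (Fin (rk R i)) (MonoidAlgebra ℤ Γ) :=
  Matrix.of fun j k => R.bd (en R (i + 1) j).1 (en R i k).1

theorem mt_apply (i : ℕ) (j k) : mt R i j k = R.bd (en R (i + 1) j).1 (en R i k).1 := rfl

theorem mt_comp (i : ℕ) : mt R (i + 1) * mt R i = 0 := by
  ext1 j k
  rw [Matrix.mul_apply, Matrix.zero_apply, ← R.bd_bd (en R (i + 2) j).1 (en R i k).1,
    sum_en R (i + 1) (fun c' => R.bd (en R (i + 2) j).1 c' * R.bd c' (en R i k).1)]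
  · rfl
  · intro c' hc'
    by_cases h : R.bd c' (en R i k).1 = 0
    · rw [h, mul_zero]
    · have := R.bd_dim _ _ h
      rw [en_dim] at this
      exact absurd this hc'

/-- Extension by zero. -/
noncomputable def ext0 {A : Type*} [Zero A] (i : ℕ) (x : Fin (rk R i) → A) : R.cell → A :=
  fun c => by
    classical
    exact if h : R.dim c = i then x ((en R i).symm ⟨c, h⟩) else 0

theorem ext0_en {A : Type*} [Zero A] (i : ℕ) (x : Fin (rk R i) → A) (j : Fin (rk R i)) :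
    ext0 R i x (en R i j).1 = x j := by
  unfold ext0
  rw [dif_pos (en_dim R i j)]
  simp

theorem ext0_ne {A : Type*} [Zero A] {i : ℕ} (x : Fin (rk R i) → A) {c : R.cell}
    (hc : R.dim c ≠ i) : ext0 R i x c = 0 := by
  unfold ext0
  rw [dif_neg hc]

theorem vecMul_mt (i : ℕ) (x : Fin (rk R (i + 1)) → MonoidAlgebra ℤ Γ) (k : Fin (rk R i)) :
    (x ᵥ* mt R i) k = ∑ c, ext0 R (i + 1) x c * R.bd c (en R i k).1 := by
  rw [sum_en R (i + 1)]
  · simp only [ext0_en]
    rfl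
  · intro c hc
    rw [ext0_ne R x hc, zero_mul]

theorem ext0_bd (i : ℕ) (x : Fin (rk R (i + 1)) → MonoidAlgebra ℤ Γ) (c' : R.cell) :
    ∑ c, ext0 R (i + 1) x c * R.bd c c' = ext0 R i (x ᵥ* mt R i) c' := by
  by_cases hc' : R.dim c' = i
  · obtain ⟨k, hk⟩ : ∃ k, (en R i k).1 = c' := ⟨(en R i).symm ⟨c', hc'⟩, by simp⟩
    rw [← hk, ext0_en, vecMul_mt]
  · rw [ext0_ne R _ hc']
    apply Finset.sum_eq_zero
    intro c _
    by_cases h : R.bd c c' = 0
    · rw [h, mul_zero]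
    · have := R.bd_dim _ _ h
      rw [ext0_ne, zero_mul]
      omega

theorem ext0_bd0 (x : Fin (rk R 0) → MonoidAlgebra ℤ Γ) (c' : R.cell) :
    ∑ c, ext0 R 0 x c * R.bd c c' = 0 := by
  apply Finset.sum_eq_zero
  intro c _
  by_cases h : R.bd c c' = 0
  · rw [h, mul_zero]
  · have := R.bd_dim _ _ h
    rw [ext0_ne, zero_mul]
    omega

theorem ext0_aug (x : Fin (rk R 0) → MonoidAlgebra ℤ Γ) :
    ∑ c, Pool.Agent.Lib.P9f173d.coeffSum (ext0 R 0 x c) * R.aug c =
      ∑ j, Pool.Agent.Lib.P9f173d.coeffSum (x j) * R.aug (en R 0 j).1 := by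
  rw [sum_en R 0]
  · simp only [ext0_en]
  · intro c hc
    rw [ext0_ne R x hc, coeffSum_zero, zero_mul]

theorem ext0_aug_succ (i : ℕ) (x : Fin (rk R (i + 1)) → MonoidAlgebra ℤ Γ) :
    ∑ c, Pool.Agent.Lib.P9f173d.coeffSum (ext0 R (i + 1) x c) * R.aug c = 0 := by
  apply Finset.sum_eq_zero
  intro c _
  by_cases h : R.aug c = 0
  · rw [h, mul_zero]
  · have := R.aug_dim _ h
    rw [ext0_ne, coeffSum_zero, zero_mul]
    omega

/-- Restriction to the cells of dimension `i`. -/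
theorem exact_aux (i : ℕ) (x : Fin (rk R i) → MonoidAlgebra ℤ Γ) (y : R.cell → MonoidAlgebra ℤ Γ)
    (hy : ∀ c', ∑ c, y c * R.bd c c' = ext0 R i x c') :
    (fun j => y (en R (i + 1) j).1) ᵥ* mt R i = x := by
  funext k
  rw [← ext0_en R i x k, ← hy]
  rw [sum_en R (i + 1) (fun c => y c * R.bd c (en R i k).1)]
  · rfl
  · intro c hc
    by_cases h : R.bd c (en R i k).1 = 0
    · rw [h, mul_zero]
    · have := R.bd_dim _ _ h
      rw [en_dim] at this
      exact absurd this hc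

theorem mt_exact (i : ℕ) (x : Fin (rk R (i + 1)) → MonoidAlgebra ℤ Γ) (hx : x ᵥ* mt R i = 0) :
    ∃ y : Fin (rk R (i + 2)) → MonoidAlgebra ℤ Γ, y ᵥ* mt R (i + 1) = x := by
  obtain ⟨y, hy⟩ := R.exact (ext0 R (i + 1) x)
    (by
      intro c'
      rw [ext0_bd, hx]
      unfold ext0
      split_ifs <;> rfl)
    (ext0_aug_succ R i x)
  exact ⟨_, exact_aux R (i + 1) x y hy⟩

theorem mt_exact0 (x : Fin (rk R 0) → MonoidAlgebra ℤ Γ)
    (hx : ∑ j, Pool.Agent.Lib.P9f173d.coeffSum (x j) * R.aug (en R 0 j).1 = 0) :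
    ∃ y : Fin (rk R 1) → MonoidAlgebra ℤ Γ, y ᵥ* mt R 0 = x := by
  obtain ⟨y, hy⟩ := R.exact (ext0 R 0 x) (ext0_bd0 R x) (by rw [ext0_aug]; exact hx)
  exact ⟨_, exact_aux R 0 x y hy⟩

theorem mt_aug (x : Fin (rk R 1) → MonoidAlgebra ℤ Γ) :
    ∑ j, Pool.Agent.Lib.P9f173d.coeffSum ((x ᵥ* mt R 0) j) * R.aug (en R 0 j).1 = 0 := by
  rw [← ext0_aug]
  have h1 : ∀ c', ext0 R 0 (x ᵥ* mt R 0) c' = ∑ c, ext0 R 1 x c * R.bd c c' :=
    fun c' => (ext0_bd R 0 x c').symm
  simp only [h1, coeffSum_sum, coeffSum_mul, Finset.sum_mul]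
  rw [Finset.sum_comm]
  apply Finset.sum_eq_zero
  intro c _
  have := R.aug_bd c
  calc ∑ c', Pool.Agent.Lib.P9f173d.coeffSum (ext0 R 1 x c) *
        Pool.Agent.Lib.P9f173d.coeffSum (R.bd c c') * R.aug c' =
        Pool.Agent.Lib.P9f173d.coeffSum (ext0 R 1 x c) *
          ∑ c', Pool.Agent.Lib.P9f173d.coeffSum (R.bd c c') * R.aug c' := by
        rw [Finset.mul_sum]
        exact Finset.sum_congr rfl fun c' _ => mul_assoc _ _ _
    _ = 0 := by rw [this, mul_zero]

theorem mt_surj : ∃ x : Fin (rk R 0) → MonoidAlgebra ℤ Γ,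
    ∑ j, Pool.Agent.Lib.P9f173d.coeffSum (x j) * R.aug (en R 0 j).1 = 1 := by
  obtain ⟨x, hx⟩ := R.aug_surj
  refine ⟨fun j => MonoidAlgebra.single 1 (x (en R 0 j).1), ?_⟩
  rw [← hx, sum_en R 0 (fun c => x c * R.aug c)]
  · simp only [coeffSum_single]
  · intro c hc
    by_cases h : R.aug c = 0
    · rw [h, mul_zero]
    · exact absurd (R.aug_dim _ h) hc

/-- Conversion. -/
noncomputable def toA {n : ℕ} (hn : ∀ c, R.dim c ≤ n) :
    Pool.Agent.Lib.P9f173dA.FiniteFreeResolution Γ n where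
  r := rk R
  r_eq_zero := by
    intro i hi
    unfold rk
    rw [Fintype.card_eq_zero_iff]
    constructor
    rintro ⟨c, hc⟩
    have := hn c
    omega
  D := mt R
  e := fun j => R.aug (en R 0 j).1
  comp := mt_comp R
  exact := mt_exact R
  aug_comp := fun x => by
    simp only [coeffSumA_eq]
    exact mt_aug R x
  aug_exact := fun x hx => by
    simp only [coeffSumA_eq] at hx
    exact mt_exact0 R x hx
  aug_surj := by
    simp only [coeffSumA_eq]
    exact mt_surj R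

/-- Conversion. -/
noncomputable def toZ : Z9f173d.FinRes Γ where
  rank := rk R
  d := mt R
  aug := fun j => R.aug (en R 0 j).1
  aug_surj := by
    simp only [epsZ_eq]
    exact mt_surj R
  exact_zero := by
    intro v
    simp only [epsZ_eq]
    constructor
    · exact mt_exact0 R v
    · rintro ⟨w, rfl⟩
      exact mt_aug R w
  exact_succ := by
    intro i v
    constructor
    · exact mt_exact R i v
    · rintro ⟨w, rfl⟩
      rw [Matrix.vecMul_vecMul, mt_comp, Matrix.vecMul_zero]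

end Pool.Agent.Lib.P9f173dU
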