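import Pool.Agent.Lib.P9f173d.Stmt

/-!
Infinite cycles with small boundary effects.
-/

namespace Pool.Agent.Lib.P9f173dU

open Pool.Agent.Lib.P9f173d

/-- The function `z` on cells and group elements stands for the infinite chain
`∑ z c x • (x c)`, the sum over the cells `c` and the group elements `x`.  It is a Følner cycle of
degree `n` if it is supported on the cells of dimension `n`, its boundary vanishes, and for every
finite set `S` of group elements and every positive `ε` there is a finite set `A` of group
elements such that the mass of `z` on `A` is positive and the mass of `z` on the points `x` of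
`A` with `x * s` outside `A` for some `s` in `S` is at most `ε` times the mass of `z` on `A`
(the mass being the sum of the squares of the absolute values). -/
structure IsFolnerCycle {Γ : Type*} [Group Γ] (R : FinRes Γ) (n : ℕ) (z : R.cell → Γ → ℂ) :
    Prop where
  supp : ∀ c x, z c x ≠ 0 → R.dim c = n
  cycle : ∀ (c' : R.cell) (y : Γ),
    ∑ c, ∑ h ∈ (R.bd c c').coeff.support, z c (y * h⁻¹) * ((R.bd c c').coeff h : ℂ) = 0
  folner : ∀ (S : Finset Γ) (ε : ℝ), 0 < ε → ∃ A : Finset Γ,
    0 < ∑ x ∈ A, ∑ c, ‖z c x‖ ^ 2 ∧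
      ∀ B ⊆ A, (∀ x ∈ B, ∃ s ∈ S, x * s ∉ A) →
        ∑ x ∈ B, ∑ c, ‖z c x‖ ^ 2 ≤ ε * ∑ x ∈ A, ∑ c, ‖z c x‖ ^ 2

end Pool.Agent.Lib.P9f173dU
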