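import Pool.Agent.Lib.P9f173d.CStar

/-!
Free complexes of finite type with a basis, and their top degree.
-/

namespace Pool.Agent.Lib.P9f173dU

open Pool.Agent.Lib.P9f173d

universe u

/-- The square of the norm of a finitely supported function. -/
noncomputable def n2 {X : Type*} (v : X →₀ ℂ) : ℝ := ∑ x ∈ v.support, ‖v x‖ ^ 2

/-- A resolution of `ℂ` by free modules of finite type over a group algebra, of length at most
`n`, given on a free set with finitely many orbits. -/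
structure BCx (Γ : Type u) [Group Γ] (n : ℕ) where
  /-- the basis over `ℂ` -/
  X : Type u
  /-- the action on the basis -/
  act : Γ →* Equiv.Perm X
  free : ∀ γ x, act γ x = x → γ = 1
  fin : ∃ B : Finset X, ∀ x, ∃ γ, act γ x ∈ B
  /-- the degree -/
  deg : X → ℕ
  deg_le : ∀ x, deg x ≤ n
  deg_act : ∀ γ x, deg (act γ x) = deg x
  /-- the differential -/
  d : (X →₀ ℂ) →ₗ[ℂ] (X →₀ ℂ)
  d_act : Eqv (prep act) (prep act) d
  d_deg : ∀ x y, d (Finsupp.single x 1) y ≠ 0 → deg x = deg y + 1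
  d_d : ∀ v, d (d v) = 0
  /-- the augmentation -/
  ε : (X →₀ ℂ) →ₗ[ℂ] ℂ
  ε_act : ∀ γ v, ε (prep act γ v) = ε v
  ε_deg : ∀ x, ε (Finsupp.single x 1) ≠ 0 → deg x = 0
  ε_d : ∀ v, ε (d v) = 0
  exact : ∀ v, d v = 0 → ε v = 0 → ∃ w, d w = v
  surj : ∃ v, ε v = 1

namespace BCx

variable {Γ : Type u} [Group Γ] {n : ℕ} (C : BCx Γ n)

/-- The differential is not bounded below in the top degree. -/
def Top : Prop :=
  ∀ K : ℝ, ∃ v : C.X →₀ ℂ, (∀ x, v x ≠ 0 → C.deg x = n) ∧ K * n2 (C.d v) < n2 v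

/-- Every square-summable cochain of the top degree is a coboundary of a square-summable one. -/
def TopEx : Prop :=
  ∀ u : (C.X →₀ ℂ) →ₗ[ℂ] ℂ, HH (prep C.act) u →
    ∃ w : (C.X →₀ ℂ) →ₗ[ℂ] ℂ, HH (prep C.act) w ∧
      ∀ v : C.X →₀ ℂ, (∀ x, v x ≠ 0 → C.deg x = n) → u v = w (C.d v)

end BCx

/-- Some complex as above has a differential that is not bounded below in the top degree. -/
def GTop (Γ : Type u) [Group Γ] (n : ℕ) : Prop := ∃ C : BCx Γ n, C.Top

end Pool.Agent.Lib.P9f173dU
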