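import Pool.Agent.Lib.P9f173dU.Base

/-!
Lower bounds for the top differential and solvability in the top degree.
-/

namespace Pool.Agent.Lib.P9f173dU

open Pool.Agent.Lib.P9f173d

universe u

namespace BCx

variable {Γ : Type u} [Group Γ] {n : ℕ} (C : BCx Γ n)

theorem HH_iff' (u : (C.X →₀ ℂ) →ₗ[ℂ] ℂ) :
    HH (prep C.act) u ↔ Summable fun x => ‖u (Finsupp.single x 1)‖ ^ 2 :=
  HH_iff C.free C.fin u

theorem HH_ev (f : L2 C.X) : HH (prep C.act) (ev f) := by
  rw [C.HH_iff']
  refine (FreeRes.summable_L2 f).congr ?_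
  intro y
  rw [ev_single, one_mul]

theorem exists_L2 {u : (C.X →₀ ℂ) →ₗ[ℂ] ℂ} (hu : HH (prep C.act) u) :
    ∃ f : L2 C.X, u = ev f := by
  rw [C.HH_iff'] at hu
  exact ⟨⟨fun x => u (Finsupp.single x 1), FreeRes.memL2_of hu⟩, (ev_coe u).symm⟩

theorem not_top_of_topEx (h : C.TopEx) : ¬ C.Top := by
  classical
  obtain ⟨D, hD⟩ := exists_dual C.free C.fin C.free C.fin C.d C.d_act
  -- restriction to the top degree
  let Xn := {x : C.X // C.deg x = n}
  let S : L2 C.X →L[ℂ] L2 Xn :=
    LinearMap.mkContinuous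
      { toFun := fun f => ⟨fun x => D f x.1,
          FreeRes.memL2_of ((FreeRes.summable_L2 (D f)).comp_injective Subtype.val_injective)⟩
        map_add' := by
          intro f g
          ext x
          show D (f + g) x.1 = D f x.1 + D g x.1
          rw [map_add]
          rfl
        map_smul' := by
          intro c f
          ext x
          show D (c • f) x.1 = c * D f x.1
          rw [map_smul]
          rfl } ‖D‖ (by
      intro f
      refine le_trans ?_ (D.le_opNorm f)
      refine (sq_le_sq₀ (norm_nonneg _) (norm_nonneg _)).mp ?_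
      rw [norm_sq_L2, norm_sq_L2]
      exact Summable.tsum_le_tsum_of_inj (fun x : Xn => x.1) Subtype.val_injective
        (fun _ _ => by positivity) (fun _ => le_rfl)
        ((FreeRes.summable_L2 (D f)).comp_injective Subtype.val_injective)
        (FreeRes.summable_L2 (D f)))
  have hS : ∀ f (x : Xn), S f x = D f x.1 := fun f x => rfl
  have hsurj : Function.Surjective S := by
    intro f
    let g : C.X → ℂ := fun x => if hx : C.deg x = n then f ⟨x, hx⟩ else 0
    have hg : Summable fun x => ‖g x‖ ^ 2 := by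
      have h1 : Summable ((fun x => ‖g x‖ ^ 2) ∘ (fun x : Xn => x.1)) := by
        refine (FreeRes.summable_L2 f).congr ?_
        intro x
        simp only [Function.comp_apply, g]
        rw [dif_pos x.2]
      refine (Subtype.val_injective.summable_iff ?_).mp h1
      intro x hx
      have : ¬ C.deg x = n := fun h => hx ⟨⟨x, h⟩, rfl⟩
      simp only [g]
      rw [dif_neg this]
      simp
    obtain ⟨w, hw1, hw2⟩ := h (ev g) (by
      rw [C.HH_iff']
      refine hg.congr ?_
      intro x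
      rw [ev_single, one_mul])
    obtain ⟨w', rfl⟩ := C.exists_L2 hw1
    refine ⟨w', ?_⟩
    ext x
    rw [hS]
    have h1 := hw2 (Finsupp.single x.1 1) (by
      intro y hy
      have : y = x.1 := by
        by_contra hne
        exact hy (Finsupp.single_eq_of_ne hne)
      rw [this]
      exact x.2)
    rw [← hD, ev_single, ev_single, one_mul, one_mul] at h1
    rw [← h1]
    simp only [g]
    rw [dif_pos x.2]
  obtain ⟨K, hK0, hK⟩ := S.exists_preimage_norm_le hsurj
  intro htop
  obtain ⟨v, hv1, hv2⟩ := htop (K ^ 2)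
  let f : L2 Xn := ⟨fun x => (starRingEnd ℂ) (v x.1), by
    apply FreeRes.memL2_of
    simp only [RCLike.norm_conj]
    exact (n2_summable v).comp_injective Subtype.val_injective⟩
  have hf : ∀ x : Xn, f x = (starRingEnd ℂ) (v x.1) := fun x => rfl
  have hfn : ‖f‖ ^ 2 ≤ n2 v := by
    rw [norm_sq_L2, n2_tsum]
    simp only [hf, RCLike.norm_conj]
    exact Summable.tsum_le_tsum_of_inj (fun x : Xn => x.1) Subtype.val_injective
      (fun _ _ => by positivity) (fun _ => le_rfl)
      ((n2_summable v).comp_injective Subtype.val_injective) (n2_summable v)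
  obtain ⟨w, hw1, hw2⟩ := hK f
  have h1 : ev w (C.d v) = (n2 v : ℂ) := by
    rw [← hD, ev_apply]
    unfold n2
    push_cast
    apply Finset.sum_congr rfl
    intro x hx
    have hxn := hv1 x (Finsupp.mem_support_iff.mp hx)
    have h2 : D w x = (starRingEnd ℂ) (v x) := by
      have := congrArg (fun F : L2 Xn => F ⟨x, hxn⟩) hw1
      simp only [hS, hf] at this
      exact this
    rw [h2, Complex.mul_conj, Complex.normSq_eq_norm_sq]
    push_cast
    rfl
  have h2 := norm_ev_le w (C.d v)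
  rw [h1, Complex.norm_real, Real.norm_eq_abs, sq_abs] at h2
  have h3 : ‖w‖ ^ 2 ≤ K ^ 2 * n2 v := by
    calc ‖w‖ ^ 2 ≤ (K * ‖f‖) ^ 2 := pow_le_pow_left₀ (norm_nonneg _) hw2 2
      _ = K ^ 2 * ‖f‖ ^ 2 := by ring
      _ ≤ K ^ 2 * n2 v := mul_le_mul_of_nonneg_left hfn (by positivity)
  have h4 : n2 v ^ 2 ≤ K ^ 2 * n2 v * n2 (C.d v) :=
    h2.trans (mul_le_mul_of_nonneg_right h3 (n2_nonneg _))
  have h5 : 0 < n2 v := lt_of_le_of_lt (mul_nonneg (by positivity) (n2_nonneg _)) hv2
  nlinarith [mul_lt_mul_of_pos_left hv2 h5]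

theorem topEx_of_not_top (h : ¬ C.Top) : C.TopEx := by
  classical
  unfold Top at h
  push Not at h
  obtain ⟨K, hK⟩ := h
  intro u hu
  obtain ⟨f, rfl⟩ := C.exists_L2 hu
  let V : Submodule ℂ (C.X →₀ ℂ) :=
    { carrier := {v | ∀ x, v x ≠ 0 → C.deg x = n}
      add_mem' := by
        intro v w hv hw x hx
        by_contra hne
        apply hx
        have h1 : v x = 0 := by
          by_contra h; exact hne (hv x h)
        have h2 : w x = 0 := by
          by_contra h; exact hne (hw x h)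
        rw [Finsupp.add_apply, h1, h2, add_zero]
      zero_mem' := by
        intro x hx
        exact absurd rfl hx
      smul_mem' := by
        intro c v hv x hx
        apply hv
        intro h0
        apply hx
        rw [Finsupp.smul_apply, h0, smul_zero] }
  let T : V →ₗ[ℂ] L2 C.X := toL2 ∘ₗ C.d ∘ₗ V.subtype
  have hT : ∀ v : V, ‖T v‖ ^ 2 = n2 (C.d v) := fun v => norm_toL2 _
  have hT0 : ∀ v : V, n2 (v : C.X →₀ ℂ) ≤ |K| * ‖T v‖ ^ 2 := by
    intro v
    rw [hT]
    refine (hK v v.2).trans ?_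
    exact mul_le_mul_of_nonneg_right (le_abs_self K) (n2_nonneg _)
  have hinj : Function.Injective T := by
    rw [injective_iff_map_eq_zero]
    intro v hv
    have h1 := hT0 v
    rw [hv, norm_zero] at h1
    have h2 : n2 (v : C.X →₀ ℂ) ≤ 0 := by nlinarith
    exact Subtype.ext (eq_zero_of_n2 h2)
  let e := LinearEquiv.ofInjective T hinj
  let φ : LinearMap.range T →ₗ[ℂ] ℂ := ev f ∘ₗ V.subtype ∘ₗ e.symm.toLinearMap
  have hφ : ∀ y : LinearMap.range T, ‖φ y‖ ≤ (‖f‖ * Real.sqrt |K|) * ‖y‖ := by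
    intro y
    obtain ⟨v, rfl⟩ := e.surjective y
    have h1 : φ (e v) = ev f (v : C.X →₀ ℂ) := by
      show ev f ((e.symm (e v) : V) : C.X →₀ ℂ) = _
      rw [e.symm_apply_apply]
    have h2 : ‖e v‖ = ‖T v‖ := rfl
    rw [h1, h2]
    refine (sq_le_sq₀ (norm_nonneg _) (by positivity)).mp ?_
    refine (norm_ev_le f _).trans ?_
    calc ‖f‖ ^ 2 * n2 (v : C.X →₀ ℂ) ≤ ‖f‖ ^ 2 * (|K| * ‖T v‖ ^ 2) :=
          mul_le_mul_of_nonneg_left (hT0 v) (by positivity)
      _ = (‖f‖ * Real.sqrt |K| * ‖T v‖) ^ 2 := by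
          rw [mul_pow, mul_pow, Real.sq_sqrt (abs_nonneg K)]; ring
  let Φ : LinearMap.range T →L[ℂ] ℂ := φ.mkContinuous _ hφ
  obtain ⟨g, hg, -⟩ := exists_extension_norm_eq (LinearMap.range T) Φ
  let ξ : L2 C.X := (InnerProductSpace.toDual ℂ (L2 C.X)).symm g
  have hξ : ∀ y, inner ℂ ξ y = g y := fun y => InnerProductSpace.toDual_symm_apply
  let w : (C.X →₀ ℂ) →ₗ[ℂ] ℂ := (g : L2 C.X →ₗ[ℂ] ℂ) ∘ₗ toL2
  have hw : ∀ v, w v = g (toL2 v) := fun v => rfl
  refine ⟨w, ?_, ?_⟩
  · rw [C.HH_iff']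
    refine (FreeRes.summable_L2 ξ).congr ?_
    intro x
    rw [hw, ← hξ]
    have h1 : toL2 (Finsupp.single x 1) = (dl x : L2 C.X) := by
      ext y
      rw [toL2_apply, dl_apply, Finsupp.single_apply]
      simp only [eq_comm]
    rw [h1, inner_dl_right, RCLike.norm_conj]
  · intro v hv
    rw [hw]
    have h1 : ((LinearEquiv.ofInjective T hinj ⟨v, hv⟩ : LinearMap.range T) : L2 C.X) =
      toL2 (C.d v) := rfl
    rw [← h1, hg]
    show ev f v = ev f ((e.symm (e ⟨v, hv⟩) : V) : C.X →₀ ℂ)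
    rw [e.symm_apply_apply]

theorem top_iff : C.Top ↔ ¬ C.TopEx :=
  ⟨fun h h' => C.not_top_of_topEx h' h, fun h => by
    by_contra hcon
    exact h (C.topEx_of_not_top hcon)⟩

end BCx

end Pool.Agent.Lib.P9f173dU
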