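import Pool.Agent.Lib.P9f173dU.Cyc
import Pool.Agent.Lib.P9f173dU.Concl

/-!
Følner cycles of the top degree.
-/

namespace Pool.Agent.Lib.P9f173dU

open Pool.Agent.Lib.P9f173d

universe u

variable {Γ : Type u} [Group Γ]

theorem IsFolnerCycle.top {R : FinRes Γ} {n : ℕ} {z : R.cell → Γ → ℂ}
    (hz : IsFolnerCycle R n z) (hn : ∀ c, R.dim c ≤ n) : (ofRes R hn).Top := by
  classical
  -- the elements occurring in the boundary matrix
  set U : Finset Γ := Finset.univ.biUnion fun c : R.cell => Finset.univ.biUnion fun c' : R.cell =>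
    (R.bd c c').coeff.support with hU
  have hUmem : ∀ (c c' : R.cell) (h : Γ), h ∈ (R.bd c c').coeff.support → h ∈ U := by
    intro c c' h hh
    rw [hU, Finset.mem_biUnion]
    exact ⟨c, Finset.mem_univ _, Finset.mem_biUnion.mpr ⟨c', Finset.mem_univ _, hh⟩⟩
  set m : R.cell → R.cell → Γ → ℂ := fun c c' h => ((R.bd c c').coeff h : ℂ) with hm
  have hcyc : ∀ (c' : R.cell) (y : Γ), ∑ c, ∑ h ∈ U, z c (y * h⁻¹) * m c c' h = 0 := by
    intro c' y
    rw [← hz.cycle c' y]
    apply Finset.sum_congr rfl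
    intro c _
    symm
    apply Finset.sum_subset (fun h hh => hUmem c c' h hh)
    intro h _ hh
    rw [Finsupp.notMem_support_iff.mp hh]
    simp
  set M : ℝ := ∑ c, ∑ c', ∑ h ∈ U, ‖m c c' h‖ ^ 2 with hM
  have hM0 : 0 ≤ M := Finset.sum_nonneg fun _ _ => Finset.sum_nonneg fun _ _ =>
    Finset.sum_nonneg fun _ _ => by positivity
  set N : ℝ := M * Fintype.card R.cell * U.card with hN
  have hN0 : 0 ≤ N := by positivity
  intro K
  set S : Finset Γ := (U ×ˢ U).image fun p => p.1 * p.2⁻¹ with hS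
  obtain ⟨A, hA1, hA2⟩ := hz.folner S (1 / (2 * (|K| + 1) * (N + 1))) (by positivity)
  set B : Finset Γ := A.filter fun x => ∃ s ∈ S, x * s ∉ A with hB
  have hBA := hA2 B (Finset.filter_subset _ _) (fun x hx => (Finset.mem_filter.mp hx).2)
  set wA : ℝ := ∑ x ∈ A, ∑ c, ‖z c x‖ ^ 2 with hwA
  set wB : ℝ := ∑ x ∈ B, ∑ c, ‖z c x‖ ^ 2 with hwB
  -- the truncated chain
  let v : Γ × R.cell →₀ ℂ := Finsupp.onFinset (A ×ˢ Finset.univ)
    (fun p => if p.1 ∈ A then z p.2 p.1 else 0) (by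
      rintro ⟨x, c⟩ h
      rw [Finset.mem_product]
      refine ⟨?_, Finset.mem_univ _⟩
      by_contra hx
      exact h (if_neg hx))
  have hv : ∀ x c, v (x, c) = if x ∈ A then z c x else 0 := fun x c => rfl
  have hn2v : n2 v = wA := by
    rw [n2_eq_sum (s := A ×ˢ Finset.univ) Finsupp.support_onFinset_subset, Finset.sum_product]
    apply Finset.sum_congr rfl
    intro x hx
    apply Finset.sum_congr rfl
    intro c _
    rw [hv, if_pos hx]
  obtain ⟨w, hw⟩ : ∃ w : Γ × R.cell →₀ ℂ, w = mbd R.toFreeRes.bdC v := ⟨_, rfl⟩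
  have hdv : ∀ (y : Γ) (c' : R.cell), w (y, c') =
      ∑ c, ∑ h ∈ U, v (y * h⁻¹, c) * m c c' h := by
    intro y c'
    rw [hw]
    refine (mbd_apply _ _ _ _).trans ?_
    apply Finset.sum_congr rfl
    intro c _
    have e1 : ∀ h, (R.toFreeRes.bdC c c').coeff h = m c c' h := by
      intro h
      show (MonoidAlgebra.mapRingHom Γ (Int.castRingHom ℂ) (R.bd c c')).coeff h = _
      simp [hm, MonoidAlgebra.coeff_mapRingHom]
    simp only [e1]
    apply Finset.sum_subset
    · intro h hh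
      apply hUmem c c'
      rw [Finsupp.mem_support_iff] at hh ⊢
      intro h0
      apply hh
      rw [e1]
      simp [hm, h0]
    · intro h _ hh
      rw [Finsupp.notMem_support_iff] at hh
      rw [← e1, hh, mul_zero]
  -- the bound at a point
  set b : Γ → R.cell → ℝ := fun x c => if x ∈ B then ‖z c x‖ ^ 2 else 0 with hb
  have hb0 : ∀ x c, 0 ≤ b x c := by
    intro x c
    simp only [hb]
    split_ifs <;> positivity
  have hpt : ∀ y c', ‖w (y, c')‖ ^ 2 ≤
      M * ∑ c, ∑ h ∈ U, b (y * h⁻¹) c := by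
    intro y c'
    rw [hdv]
    by_cases hall : ∀ h ∈ U, y * h⁻¹ ∈ A
    · have : ∑ c, ∑ h ∈ U, v (y * h⁻¹, c) * m c c' h = 0 := by
        rw [← hcyc c' y]
        apply Finset.sum_congr rfl
        intro c _
        apply Finset.sum_congr rfl
        intro h hh
        rw [hv, if_pos (hall h hh)]
      rw [this]
      simp only [norm_zero, ne_eq, OfNat.ofNat_ne_zero, not_false_eq_true, zero_pow]
      exact mul_nonneg hM0 (Finset.sum_nonneg fun _ _ => Finset.sum_nonneg fun _ _ => hb0 _ _)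
    · push Not at hall
      obtain ⟨h', hh', hy'⟩ := hall
      have e1 : ∀ c, ∀ h ∈ U, ‖v (y * h⁻¹, c)‖ ^ 2 ≤ b (y * h⁻¹) c := by
        intro c h hh
        rw [hv]
        split_ifs with hx
        · have : y * h⁻¹ ∈ B := by
            rw [hB, Finset.mem_filter]
            refine ⟨hx, h * h'⁻¹, ?_, ?_⟩
            · rw [hS, Finset.mem_image]
              exact ⟨(h, h'), Finset.mem_product.mpr ⟨hh, hh'⟩, rfl⟩
            · rwa [← mul_assoc, inv_mul_cancel_right]
          simp only [hb]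
          rw [if_pos this]
        · simp only [norm_zero, ne_eq, OfNat.ofNat_ne_zero, not_false_eq_true, zero_pow]
          exact hb0 _ _
      have e2 : ‖∑ c, ∑ h ∈ U, v (y * h⁻¹, c) * m c c' h‖ ≤
          ∑ p ∈ (Finset.univ : Finset R.cell) ×ˢ U, ‖v (y * p.2⁻¹, p.1)‖ * ‖m p.1 c' p.2‖ := by
        rw [Finset.sum_product]
        refine (norm_sum_le _ _).trans ?_
        apply Finset.sum_le_sum
        intro c _
        refine (norm_sum_le _ _).trans ?_
        apply Finset.sum_le_sum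
        intro h _
        rw [norm_mul]
      have e3 := Finset.sum_mul_sq_le_sq_mul_sq ((Finset.univ : Finset R.cell) ×ˢ U)
        (fun p => ‖v (y * p.2⁻¹, p.1)‖) (fun p => ‖m p.1 c' p.2‖)
      rw [Finset.sum_product, Finset.sum_product (f := fun p => ‖v (y * p.2⁻¹, p.1)‖ ^ 2),
        Finset.sum_product (f := fun p => ‖m p.1 c' p.2‖ ^ 2)] at e3
      rw [Finset.sum_product] at e2
      have e4 : ∑ c, ∑ h ∈ U, ‖m c c' h‖ ^ 2 ≤ M := by
        rw [hM]
        apply Finset.sum_le_sum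
        intro c _
        exact Finset.single_le_sum (f := fun c' => ∑ h ∈ U, ‖m c c' h‖ ^ 2)
          (fun _ _ => Finset.sum_nonneg fun _ _ => by positivity) (Finset.mem_univ c')
      have e5 : ∑ c, ∑ h ∈ U, ‖v (y * h⁻¹, c)‖ ^ 2 ≤ ∑ c, ∑ h ∈ U, b (y * h⁻¹) c :=
        Finset.sum_le_sum fun c _ => Finset.sum_le_sum fun h hh => e1 c h hh
      calc ‖∑ c, ∑ h ∈ U, v (y * h⁻¹, c) * m c c' h‖ ^ 2 ≤
            (∑ c, ∑ h ∈ U, ‖v (y * h⁻¹, c)‖ * ‖m c c' h‖) ^ 2 :=
            pow_le_pow_left₀ (norm_nonneg _) e2 2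
        _ ≤ (∑ c, ∑ h ∈ U, ‖v (y * h⁻¹, c)‖ ^ 2) * ∑ c, ∑ h ∈ U, ‖m c c' h‖ ^ 2 := e3
        _ ≤ (∑ c, ∑ h ∈ U, b (y * h⁻¹) c) * M :=
            mul_le_mul e5 e4 (Finset.sum_nonneg fun _ _ => Finset.sum_nonneg fun _ _ => by
              positivity) (Finset.sum_nonneg fun _ _ => Finset.sum_nonneg fun _ _ => hb0 _ _)
        _ = _ := mul_comm _ _
  -- the total bound
  have hsh : ∀ (Y : Finset Γ) (h : Γ) (c : R.cell),
      ∑ y ∈ Y, b (y * h⁻¹) c ≤ ∑ x ∈ B, ‖z c x‖ ^ 2 := by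
    intro Y h c
    have e1 : ∑ y ∈ Y, b (y * h⁻¹) c = ∑ x ∈ Y.image (· * h⁻¹), b x c := by
      rw [Finset.sum_image]
      intro a _ b _ hab
      exact mul_right_cancel hab
    rw [e1]
    have e2 : ∑ x ∈ B, ‖z c x‖ ^ 2 = ∑ x ∈ B, b x c := by
      apply Finset.sum_congr rfl
      intro x hx
      simp only [hb]
      rw [if_pos hx]
    rw [e2]
    have e3 : ∑ x ∈ Y.image (· * h⁻¹), b x c = ∑ x ∈ (Y.image (· * h⁻¹)) ∩ B, b x c := by
      symm
      apply Finset.sum_subset Finset.inter_subset_left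
      intro x hx hx'
      simp only [hb]
      rw [if_neg]
      intro hxB
      exact hx' (Finset.mem_inter.mpr ⟨hx, hxB⟩)
    rw [e3]
    exact Finset.sum_le_sum_of_subset_of_nonneg Finset.inter_subset_right
      (fun x _ _ => hb0 x c)
  have htot : n2 w ≤ N * wB := by
    set Y : Finset Γ := w.support.image Prod.fst with hY
    have hsupp : w.support ⊆ Y ×ˢ (Finset.univ : Finset R.cell) := by
      intro p hp
      rw [Finset.mem_product]
      exact ⟨Finset.mem_image_of_mem _ hp, Finset.mem_univ _⟩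
    rw [n2_eq_sum hsupp, Finset.sum_product]
    calc ∑ y ∈ Y, ∑ c', ‖w (y, c')‖ ^ 2
        ≤ ∑ y ∈ Y, ∑ c' : R.cell, M * ∑ c, ∑ h ∈ U, b (y * h⁻¹) c :=
          Finset.sum_le_sum fun y _ => Finset.sum_le_sum fun c' _ => hpt y c'
      _ = M * Fintype.card R.cell * ∑ h ∈ U, ∑ c, ∑ y ∈ Y, b (y * h⁻¹) c := by
          simp only [Finset.sum_const, Finset.card_univ, nsmul_eq_mul]
          rw [← Finset.mul_sum, ← Finset.mul_sum]
          have : ∑ y ∈ Y, ∑ c, ∑ h ∈ U, b (y * h⁻¹) c = ∑ h ∈ U, ∑ c, ∑ y ∈ Y, b (y * h⁻¹) c := by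
            calc ∑ y ∈ Y, ∑ c, ∑ h ∈ U, b (y * h⁻¹) c = ∑ c, ∑ y ∈ Y, ∑ h ∈ U, b (y * h⁻¹) c :=
                  Finset.sum_comm
              _ = ∑ c, ∑ h ∈ U, ∑ y ∈ Y, b (y * h⁻¹) c :=
                  Finset.sum_congr rfl fun c _ => Finset.sum_comm
              _ = _ := Finset.sum_comm
          rw [this]
          ring
      _ ≤ M * Fintype.card R.cell * ∑ h ∈ U, wB := by
          apply mul_le_mul_of_nonneg_left _ (by positivity)
          apply Finset.sum_le_sum
          intro h _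
          have e6 : wB = ∑ c, ∑ x ∈ B, ‖z c x‖ ^ 2 := Finset.sum_comm
          rw [e6]
          exact Finset.sum_le_sum fun c _ => hsh Y h c
      _ = N * wB := by
          rw [Finset.sum_const, nsmul_eq_mul, hN]
          ring
  refine ⟨v, ?_, ?_⟩
  · rintro ⟨x, c⟩ h
    have h' : (if x ∈ A then z c x else 0) ≠ 0 := h
    have h2 : z c x ≠ 0 := by
      intro h0
      apply h'
      rw [h0]
      simp
    exact hz.supp c x h2
  · show K * n2 (mbd R.toFreeRes.bdC v) < n2 v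
    rw [hn2v, ← hw]
    have hK := abs_nonneg K
    have h1 : K * n2 w ≤ |K| * (N * wB) :=
      (mul_le_mul_of_nonneg_right (le_abs_self K) (n2_nonneg _)).trans
        (mul_le_mul_of_nonneg_left htot hK)
    have h2 : |K| * (N * wB) ≤ |K| * (N * (1 / (2 * (|K| + 1) * (N + 1)) * wA)) :=
      mul_le_mul_of_nonneg_left (mul_le_mul_of_nonneg_left hBA hN0) hK
    have h3 : |K| * (N * (1 / (2 * (|K| + 1) * (N + 1)) * wA)) =
        (|K| * N / ((|K| + 1) * (N + 1))) * (wA / 2) := by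
      field_simp
    have h4 : |K| * N / ((|K| + 1) * (N + 1)) ≤ 1 := by
      rw [div_le_one (by positivity)]
      nlinarith
    have h5 : (|K| * N / ((|K| + 1) * (N + 1))) * (wA / 2) ≤ 1 * (wA / 2) :=
      mul_le_mul_of_nonneg_right h4 (by linarith)
    rw [h3] at h2
    have h6 : K * n2 w < wA := by linarith
    exact h6

end Pool.Agent.Lib.P9f173dU
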