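import Pool.Agent.Lib.P9f173dU.Prod

/-!
The differential in degree zero is bounded below on square-summable cochains when there are no
almost invariant square-summable functions.
-/

namespace Pool.Agent.Lib.P9f173dU

open Pool.Agent.Lib.P9f173d

universe u

/-- The left regular action. -/
def lm (Γ : Type*) [Group Γ] : Γ →* Equiv.Perm Γ := MulAction.toPermHom Γ Γ

theorem lm_apply {Γ : Type*} [Group Γ] (γ x : Γ) : lm Γ γ x = γ * x := rfl

namespace BCx

variable {Γ : Type u} [Group Γ] {n : ℕ} (C : BCx Γ n)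

theorem exists_orb (b : C.X →₀ ℂ) :
    ∃ T : L2 C.X →L[ℂ] L2 Γ, ∀ f γ, T f γ = ev f (prep C.act γ b) := by
  classical
  let A : (Γ →₀ ℂ) →ₗ[ℂ] (C.X →₀ ℂ) :=
    Finsupp.linearCombination ℂ (fun γ => prep C.act γ b)
  have hA : ∀ γ, A (Finsupp.single γ 1) = prep C.act γ b := by
    intro γ
    simp [A]
  have hAe : Eqv (prep (lm Γ)) (prep C.act) A := by
    intro γ v
    have key : A ∘ₗ prep (lm Γ) γ = prep C.act γ ∘ₗ A := by
      apply Finsupp.lhom_ext'
      intro x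
      ext1
      simp only [LinearMap.coe_comp, Function.comp_apply, Finsupp.lsingle_apply]
      rw [prep_single, hA, hA, lm_apply, map_mul]
      rfl
    exact congrArg (fun S => S v) key
  obtain ⟨T, hT⟩ := exists_dual (a := lm Γ) (b := C.act)
    (by
      intro γ x h
      rw [lm_apply] at h
      simpa using h)
    ⟨{1}, fun x => ⟨x⁻¹, by rw [lm_apply, inv_mul_cancel]; exact Finset.mem_singleton_self _⟩⟩
    C.free C.fin A hAe
  refine ⟨T, fun f γ => ?_⟩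
  have h1 := hT f (Finsupp.single γ 1)
  rw [ev_single, one_mul, hA] at h1
  exact h1

theorem act_inj (b : C.X) : Function.Injective fun γ => C.act γ b := by
  intro γ δ h
  have h1 : C.act (δ⁻¹ * γ) b = b := by
    have h2 : C.act γ b = C.act δ b := h
    rw [map_mul, Equiv.Perm.mul_apply, h2, map_inv]
    simp
  have h3 := C.free _ _ h1
  exact (inv_mul_eq_one.mp h3).symm

theorem norm_le_orbits (B : Finset C.X) (hB : ∀ x, ∃ γ, C.act γ x ∈ B) (f : L2 C.X) :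
    ‖f‖ ^ 2 ≤ ∑ b ∈ B, ∑' γ, ‖f (C.act γ b)‖ ^ 2 := by
  classical
  have h1 : ∀ b ∈ B, Summable ((Set.range fun γ => C.act γ b).indicator
      fun x => ‖f x‖ ^ 2) := fun b _ => (FreeRes.summable_L2 f).indicator _
  have h2 : ∀ b ∈ B, ∑' γ, ‖f (C.act γ b)‖ ^ 2 =
      ∑' x, (Set.range fun γ => C.act γ b).indicator (fun x => ‖f x‖ ^ 2) x := by
    intro b _
    rw [← (C.act_inj b).tsum_eq]
    · apply tsum_congr
      intro γ
      have h5 : C.act γ b ∈ Set.range fun γ => C.act γ b := ⟨γ, rfl⟩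
      rw [Set.indicator_of_mem h5]
    · intro x hx
      by_contra hne
      apply hx
      exact Set.indicator_of_notMem hne _
  rw [Finset.sum_congr rfl h2, ← Summable.tsum_finsetSum h1, norm_sq_L2]
  apply Summable.tsum_le_tsum _ (FreeRes.summable_L2 f) (summable_sum h1)
  intro x
  obtain ⟨γ, hγ⟩ := hB x
  have h4 : (Set.range fun δ => C.act δ (C.act γ x)).indicator
      (fun x => ‖f x‖ ^ 2) x = ‖f x‖ ^ 2 := by
    apply Set.indicator_of_mem
    refine ⟨γ⁻¹, ?_⟩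
    simp only
    rw [map_inv]
    simp
  refine h4.symm.le.trans ?_
  exact Finset.single_le_sum (f := fun b => (Set.range fun δ => C.act δ b).indicator
    (fun x => ‖f x‖ ^ 2) x)
    (fun b _ => Set.indicator_nonneg (fun _ _ => by positivity) _) hγ

theorem low (D : L2 C.X →L[ℂ] L2 C.X)
    (hD : ∀ (f : L2 C.X) (v : C.X →₀ ℂ), ev (D f) v = ev f (C.d v))
    (S : Finset Γ) (ε : ℝ) (hε : 0 < ε)
    (hgap : ∀ ξ : L2 Γ, ε * ∑' x, ‖ξ x‖ ^ 2 ≤ ∑ s ∈ S, ∑' x, ‖ξ (s * x) - ξ x‖ ^ 2) :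
    ∃ K : ℝ, ∀ f : L2 C.X, (∀ x, f x ≠ 0 → C.deg x = 0) → ‖f‖ ≤ K * ‖D f‖ := by
  classical
  obtain ⟨-, η, -, hη1, hη2, -, -⟩ := C.exists_contr
  obtain ⟨B, hB⟩ := C.fin
  choose T hT using C.exists_orb
  -- primitives
  have hs : ∀ s : Γ, ∃ b, C.d b = prep C.act s⁻¹ η - η := by
    intro s
    apply C.exact
    · rw [map_sub, C.d_act, hη2, map_zero, sub_zero]
    · rw [map_sub, C.ε_act, sub_self]
  choose bs hbs using hs
  have hc : ∀ b : C.X, ∃ c, C.deg b = 0 →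
      C.d c = Finsupp.single b 1 - C.ε (Finsupp.single b 1) • η := by
    intro b
    by_cases hb : C.deg b = 0
    · have h1 : C.d (Finsupp.single b 1) = 0 := by
        ext y
        by_contra hne
        have := C.d_deg b y hne
        omega
      obtain ⟨c, hc⟩ := C.exact (Finsupp.single b 1 - C.ε (Finsupp.single b 1) • η)
        (by rw [map_sub, map_smul, h1, hη2, smul_zero, sub_zero])
        (by rw [map_sub, map_smul, hη1, smul_eq_mul, mul_one, sub_self])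
      exact ⟨c, fun _ => hc⟩
    · exact ⟨0, fun h => absurd h hb⟩
  choose cb hcb using hc
  -- the key identity
  have hTd : ∀ (b : C.X →₀ ℂ) f, T b (D f) = T (C.d b) f := by
    intro b f
    ext γ
    rw [hT, hT, hD, C.d_act]
  have hTsub : ∀ (a b : C.X →₀ ℂ) f, T (a - b) f = T a f - T b f := by
    intro a b f
    ext γ
    rw [lp.coeFn_sub, Pi.sub_apply, hT, hT, hT, map_sub, map_sub]
  have hTsmul : ∀ (r : ℂ) (b : C.X →₀ ℂ) f, T (r • b) f = r • T b f := by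
    intro r b f
    ext γ
    rw [lp.coeFn_smul, Pi.smul_apply, hT, hT, map_smul, map_smul]
  set K1 : ℝ := (∑ s ∈ S, ‖T (bs s)‖ ^ 2) / ε with hK1
  have hK10 : 0 ≤ K1 := div_nonneg (Finset.sum_nonneg fun _ _ => by positivity) hε.le
  have hξ : ∀ f, ‖T η f‖ ^ 2 ≤ K1 * ‖D f‖ ^ 2 := by
    intro f
    let ζ : L2 Γ := ⟨fun x => T η f x⁻¹,
      FreeRes.memL2_of ((FreeRes.summable_L2 (T η f)).comp_injective inv_injective)⟩
    have hζ : ∀ x, ζ x = T η f x⁻¹ := fun x => rfl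
    have h1 := hgap ζ
    have h2 : ∑' x, ‖ζ x‖ ^ 2 = ‖T η f‖ ^ 2 := by
      rw [norm_sq_L2]
      exact (Equiv.inv Γ).tsum_eq (fun x => ‖T η f x‖ ^ 2)
    have h3 : ∀ s ∈ S, ∑' x, ‖ζ (s * x) - ζ x‖ ^ 2 ≤ ‖T (bs s)‖ ^ 2 * ‖D f‖ ^ 2 := by
      intro s _
      have h4 : ∀ x, ζ (s * x) - ζ x = T (bs s) (D f) x⁻¹ := by
        intro x
        rw [hTd, hbs, hTsub, lp.coeFn_sub, Pi.sub_apply, hζ, hζ, hT, hT, hT, mul_inv_rev,
          map_mul]
        rfl
      simp only [h4]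
      have h5 : ∑' x, ‖T (bs s) (D f) x⁻¹‖ ^ 2 = ‖T (bs s) (D f)‖ ^ 2 := by
        rw [norm_sq_L2]
        exact (Equiv.inv Γ).tsum_eq (fun x => ‖T (bs s) (D f) x‖ ^ 2)
      rw [h5, ← mul_pow]
      exact pow_le_pow_left₀ (norm_nonneg _) ((T (bs s)).le_opNorm _) 2
    have h6 := h1.trans (Finset.sum_le_sum h3)
    rw [h2, ← Finset.sum_mul] at h6
    rw [hK1, div_mul_eq_mul_div, le_div_iff₀ hε]
    linarith
  set K2 : ℝ := ∑ b ∈ B, (2 * ‖C.ε (Finsupp.single b 1)‖ ^ 2 * K1 + 2 * ‖T (cb b)‖ ^ 2) with hK2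
  have hK20 : 0 ≤ K2 := Finset.sum_nonneg fun _ _ => by positivity
  refine ⟨Real.sqrt K2, ?_⟩
  intro f hf
  refine (sq_le_sq₀ (norm_nonneg _) (by positivity)).mp ?_
  rw [mul_pow, Real.sq_sqrt hK20]
  refine (C.norm_le_orbits B hB f).trans ?_
  rw [hK2, Finset.sum_mul]
  apply Finset.sum_le_sum
  intro b _
  by_cases hb : C.deg b = 0
  · have h1 : ∀ γ, f (C.act γ b) = (C.ε (Finsupp.single b 1) • T η f + T (cb b) (D f)) γ := by
      intro γ
      rw [hTd, hcb b hb, hTsub, hTsmul, add_sub_cancel, hT, prep_single, ev_single, one_mul]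
    have h2 : ∑' γ, ‖f (C.act γ b)‖ ^ 2 =
        ‖C.ε (Finsupp.single b 1) • T η f + T (cb b) (D f)‖ ^ 2 := by
      rw [norm_sq_L2]
      apply tsum_congr
      intro γ
      rw [h1]
    rw [h2]
    have h3 : ‖C.ε (Finsupp.single b 1) • T η f + T (cb b) (D f)‖ ≤
        ‖C.ε (Finsupp.single b 1)‖ * ‖T η f‖ + ‖T (cb b)‖ * ‖D f‖ := by
      refine (norm_add_le _ _).trans ?_
      rw [norm_smul]
      exact add_le_add le_rfl ((T (cb b)).le_opNorm _)
    have h4 : ‖C.ε (Finsupp.single b 1) • T η f + T (cb b) (D f)‖ ^ 2 ≤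
        (‖C.ε (Finsupp.single b 1)‖ * ‖T η f‖ + ‖T (cb b)‖ * ‖D f‖) ^ 2 :=
      pow_le_pow_left₀ (norm_nonneg _) h3 2
    have h5 := hξ f
    have h6 : ‖C.ε (Finsupp.single b 1)‖ ^ 2 * ‖T η f‖ ^ 2 ≤
        ‖C.ε (Finsupp.single b 1)‖ ^ 2 * (K1 * ‖D f‖ ^ 2) :=
      mul_le_mul_of_nonneg_left h5 (by positivity)
    nlinarith [sq_nonneg (‖C.ε (Finsupp.single b 1)‖ * ‖T η f‖ - ‖T (cb b)‖ * ‖D f‖)]
  · have h1 : ∀ γ, f (C.act γ b) = 0 := by
      intro γ
      by_contra hne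
      have := hf _ hne
      rw [C.deg_act] at this
      exact hb this
    simp only [h1]
    simp only [norm_zero, ne_eq, OfNat.ofNat_ne_zero, not_false_eq_true, zero_pow, tsum_zero]
    positivity

end BCx

end Pool.Agent.Lib.P9f173dU
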