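import Pool.Agent.Lib.P9f173dU.Conv
import Pool.Agent.Lib.P9f173dU.Concl

/-!
Groups with a poly-infinite-cyclic subgroup of full Hirsch length.
-/

namespace Pool.Agent.Lib.P9f173dU

open Pool.Agent.Lib.P9f173d
open scoped Matrix

universe u

section rinv

theorem exists_rinv {E F : Type*} [NormedAddCommGroup E] [InnerProductSpace ℂ E]
    [CompleteSpace E] [NormedAddCommGroup F] [InnerProductSpace ℂ F] [CompleteSpace F]
    (f : E →L[ℂ] F) (hf : Function.Surjective f) : ∃ S : F →L[ℂ] E, ∀ y, f (S y) = y := by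
  let N : Submodule ℂ E := LinearMap.ker (f : E →ₗ[ℂ] F)
  have hN : ∀ x, x ∈ N ↔ f x = 0 := fun x => Iff.rfl
  have hNc : IsClosed (N : Set E) := by
    have : (N : Set E) = {x | f x = 0} := by
      ext x; exact hN x
    rw [this]
    exact isClosed_eq f.continuous continuous_const
  have : CompleteSpace N := hNc.completeSpace_coe
  let g : Nᗮ →L[ℂ] F := f ∘L Nᗮ.subtypeL
  have hg : ∀ x : Nᗮ, g x = f x := fun x => rfl
  have hginj : LinearMap.ker (g : Nᗮ →ₗ[ℂ] F) = ⊥ := by
    rw [LinearMap.ker_eq_bot']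
    intro x hx
    have h1 : (x : E) ∈ N := hx
    have h2 : (x : E) ∈ N ⊓ Nᗮ := ⟨h1, x.2⟩
    rw [Submodule.inf_orthogonal_eq_bot] at h2
    exact Subtype.ext ((Submodule.mem_bot ℂ).mp h2)
  have hgs : LinearMap.range (g : Nᗮ →ₗ[ℂ] F) = ⊤ := by
    rw [LinearMap.range_eq_top]
    intro y
    obtain ⟨x, hx⟩ := hf y
    obtain ⟨a, ha, b, hb, hab⟩ := N.exists_add_mem_mem_orthogonal x
    refine ⟨⟨b, hb⟩, ?_⟩
    show f b = y
    rw [← hx, hab, map_add, (hN a).mp ha, zero_add]
  let e : Nᗮ ≃L[ℂ] F := ContinuousLinearEquiv.ofBijective g hginj hgs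
  refine ⟨Nᗮ.subtypeL ∘L (e.symm : F →L[ℂ] Nᗮ), ?_⟩
  intro y
  show g (e.symm y) = y
  exact ContinuousLinearEquiv.ofBijective_apply_symm_apply g hginj hgs y

end rinv

section pull

variable {A B : Type*}

/-- Composition with an injective map. -/
noncomputable def pull (φ : A → B) (hφ : Function.Injective φ) : L2 B →L[ℂ] L2 A :=
  LinearMap.mkContinuous
    { toFun := fun f => ⟨fun a => f (φ a),
        FreeRes.memL2_of ((FreeRes.summable_L2 f).comp_injective hφ)⟩
      map_add' := by
        intro f g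
        ext x
        rfl
      map_smul' := by
        intro c f
        ext x
        rfl } 1 (by
    intro f
    rw [one_mul]
    refine (sq_le_sq₀ (norm_nonneg _) (norm_nonneg _)).mp ?_
    rw [norm_sq_L2, norm_sq_L2]
    exact Summable.tsum_le_tsum_of_inj φ hφ (fun _ _ => by positivity) (fun _ => le_rfl)
      ((FreeRes.summable_L2 f).comp_injective hφ) (FreeRes.summable_L2 f))

theorem pull_apply (φ : A → B) (hφ : Function.Injective φ) (f : L2 B) (a : A) :
    pull φ hφ f a = f (φ a) := rfl

theorem ext_summable (φ : A → B) (hφ : Function.Injective φ) (f : L2 A) :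
    Summable fun b => ‖Function.extend φ f 0 b‖ ^ 2 := by
  have h1 : Summable ((fun b => ‖Function.extend φ f 0 b‖ ^ 2) ∘ φ) := by
    refine (FreeRes.summable_L2 f).congr ?_
    intro a
    simp only [Function.comp_apply]
    rw [hφ.extend_apply]
  refine (hφ.summable_iff ?_).mp h1
  intro b hb
  rw [Function.extend_apply' _ _ _ (fun ⟨a, ha⟩ => hb ⟨a, ha⟩)]
  simp

/-- Extension by zero. -/
noncomputable def push (φ : A → B) (hφ : Function.Injective φ) : L2 A →L[ℂ] L2 B :=
  LinearMap.mkContinuous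
    { toFun := fun f => ⟨Function.extend φ f 0, FreeRes.memL2_of (ext_summable φ hφ f)⟩
      map_add' := by
        intro f g
        ext b
        show Function.extend φ (f + g : L2 A) 0 b =
          Function.extend φ f 0 b + Function.extend φ g 0 b
        by_cases hb : ∃ a, φ a = b
        · obtain ⟨a, rfl⟩ := hb
          rw [hφ.extend_apply, hφ.extend_apply, hφ.extend_apply]
          rfl
        · rw [Function.extend_apply' _ _ _ hb, Function.extend_apply' _ _ _ hb,
            Function.extend_apply' _ _ _ hb]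
          simp
      map_smul' := by
        intro c f
        ext b
        show Function.extend φ (c • f : L2 A) 0 b = c * Function.extend φ f 0 b
        by_cases hb : ∃ a, φ a = b
        · obtain ⟨a, rfl⟩ := hb
          rw [hφ.extend_apply, hφ.extend_apply]
          rfl
        · rw [Function.extend_apply' _ _ _ hb, Function.extend_apply' _ _ _ hb]
          simp } 1 (by
    intro f
    rw [one_mul]
    refine (sq_le_sq₀ (norm_nonneg _) (norm_nonneg _)).mp ?_
    rw [norm_sq_L2, norm_sq_L2]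
    apply le_of_eq
    rw [← hφ.tsum_eq]
    · apply tsum_congr
      intro a
      show ‖Function.extend φ f 0 (φ a)‖ ^ 2 = _
      rw [hφ.extend_apply]
    · intro b hb
      by_contra hn
      apply hb
      show ‖Function.extend φ f 0 b‖ ^ 2 = 0
      rw [Function.extend_apply' _ _ _ (fun ⟨a, ha⟩ => hn ⟨a, ha⟩)]
      simp)

theorem push_apply (φ : A → B) (hφ : Function.Injective φ) (f : L2 A) (b : B) :
    push φ hφ f b = Function.extend φ f 0 b := rfl

end pull

section core

open Pool.Agent.Lib.P9f173dA MonoidAlgebra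

variable {G : Type u} [Group G]

/-- The core of the argument. -/
theorem polyZ_core {n : ℕ} (F : FiniteFreeResolution G (n + 1)) {t : Fin (n + 1) → G}
    (ht : IsPolyZ t)
    (S : Fin (F.r n) → Fin (F.r (n + 1)) →
      (Pool.Agent.Lib.P9f173dA.L2 G →L[ℂ] Pool.Agent.Lib.P9f173dA.L2 G))
    (hS : ∀ i j, ∑ k, op (F.D n i k) * S k j = if i = j then 1 else 0) : False := by
  classical
  obtain ⟨-, χ, hχ, y, hy, -, htf, -⟩ := P_ch (Pool.Agent.Lib.P9f173dA.toCx F) ht (n + 1) le_rfl
  have hFo := Fo_ch ht (n + 1) le_rfl χ hχ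
  have hyK : ¬ y ∈ K ((Pool.Agent.Lib.P9f173dA.toCx F).ρ (n + 1)) (ch t (n + 1)) χ := by
    intro h
    have := htf 1 (by rw [one_smul]; exact K_le_Bd _ _ _ _ h)
    exact one_ne_zero this
  apply hyK
  apply mem_K_free
  intro j g
  have hz : (Pool.Agent.Lib.P9f173dA.toCx F).δ n y ∈ K (actFree G (F.r n)) (ch t (n + 1)) χ := hy
  set z : Fin (F.r n) → MonoidAlgebra ℤ G := y ᵥ* F.D n with hzdef
  set T : Fin (F.r n) → Pool.Agent.Lib.P9f173dA.L2 G →L[ℂ] Pool.Agent.Lib.P9f173dA.L2 G :=
    fun k => S k j * lam g⁻¹ with hT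
  obtain ⟨S1, hS1, ε1, hε1, k1⟩ := null hχ T hz (1 / 4) (by norm_num)
  obtain ⟨S2, hS2, ε2, hε2, k2⟩ := Pool.Agent.Lib.P9f173dA.eval
    (A := ch t (n + 1)) (χ := χ) g (y j) (1 / 4) (by norm_num)
  obtain ⟨ξ, hξ1, hξ2, hξ3⟩ := hFo (S1 ∪ S2) (by
    intro a ha
    rcases Finset.mem_union.mp ha with h | h
    · exact hS1 a h
    · exact hS2 a h) (min ε1 ε2) (lt_min hε1 hε2)
  have b1 := k1 ξ hξ1 fun a ha =>
    (hξ3 a (Finset.mem_union_left _ ha)).trans (min_le_left _ _)
  have b2 := k2 ξ hξ1 hξ2 fun a ha =>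
    (hξ3 a (Finset.mem_union_right _ ha)).trans (min_le_right _ _)
  have op_sum : ∀ {ι : Type} (s : Finset ι) (f : ι → MonoidAlgebra ℤ G),
      op (∑ i ∈ s, f i) = ∑ i ∈ s, op (f i) := by
    intro ι s f
    exact map_sum (AddMonoidHom.mk' (op (G := G)) op_add) f s
  -- the identity
  have hid : op (y j) = ∑ k, op (z k) * S k j := by
    have e1 : ∀ k, op (z k) = ∑ i, op (y i) * op (F.D n i k) := by
      intro k
      rw [hzdef]
      simp only [Matrix.vecMul, dotProduct]
      rw [op_sum]
      simp only [op_mul]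
    calc op (y j) = ∑ i, op (y i) * (if i = j then 1 else 0) := by
          rw [Finset.sum_eq_single j]
          · rw [if_pos rfl, mul_one]
          · intro i _ hij
            rw [if_neg hij, mul_zero]
          · intro h
            exact absurd (Finset.mem_univ _) h
      _ = ∑ i, op (y i) * ∑ k, op (F.D n i k) * S k j := by
          apply Finset.sum_congr rfl
          intro i _
          rw [hS]
      _ = ∑ k, op (z k) * S k j := by
          simp only [e1, Finset.mul_sum, Finset.sum_mul, mul_assoc]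
          rw [Finset.sum_comm]
  have htest : inner ℂ ξ (op (y j) (lam g⁻¹ ξ)) = test z T ξ := by
    unfold test
    rw [hid, ← inner_sum]
    congr 1
    rw [hT]
    simp
  rw [htest] at b2
  have b1' : ‖test z T ξ‖ ≤ 1 / 4 := b1
  have b3 : ‖((th (ch t (n + 1)) χ g (y j) : ℤ) : ℂ)‖ < 1 := by
    have e : ((th (ch t (n + 1)) χ g (y j) : ℤ) : ℂ) = test z T ξ -
      (test z T ξ - ((th (ch t (n + 1)) χ g (y j) : ℤ) : ℂ)) := by ring
    rw [e]
    refine lt_of_le_of_lt (norm_sub_le _ _) ?_
    linarith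
  rw [Complex.norm_intCast] at b3
  have b4 : |th (ch t (n + 1)) χ g (y j)| < 1 := by exact_mod_cast b3
  exact Int.abs_lt_one_iff.mp b4

theorem op_apply (a : MonoidAlgebra ℤ G) (ξ : Pool.Agent.Lib.P9f173dA.L2 G) (x : G) :
    op a ξ x = ∑ h ∈ a.coeff.support, (a.coeff h : ℂ) * ξ (h⁻¹ * x) := by
  classical
  have h1 : op a = ∑ h ∈ a.coeff.support, ((a.coeff h : ℤ) : ℂ) • lam h := by
    have h2 : a = ∑ h ∈ a.coeff.support, MonoidAlgebra.single h (a.coeff h) := by
      conv_lhs => rw [← MonoidAlgebra.sum_coeff_single a]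
      rfl
    have h3 : op (∑ h ∈ a.coeff.support, MonoidAlgebra.single h (a.coeff h)) =
        ∑ h ∈ a.coeff.support, op (MonoidAlgebra.single h (a.coeff h)) :=
      map_sum (AddMonoidHom.mk' (op (G := G)) op_add) _ _
    conv_lhs => rw [h2, h3]
    simp only [op_single]
  rw [h1, _root_.sum_apply, lp.coeFn_sum, Finset.sum_apply]
  rfl

end core

theorem ev_mbd {Γ : Type u} [Group Γ] (R : FinRes Γ) (f : Γ × R.cell → ℂ) (x : Γ)
    (c : R.cell) : ev f (mbd R.toFreeRes.bdC (Finsupp.single (x, c) 1) : Γ × R.cell →₀ ℂ) =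
      ∑ c', ∑ h ∈ (R.bd c c').coeff.support, ((R.bd c c').coeff h : ℂ) * f (x * h, c') := by
  have h5 : ∀ c' g, (R.toFreeRes.bdC c c').coeff g = ((R.bd c c').coeff g : ℂ) := by
    intro c' g
    show (MonoidAlgebra.mapRingHom Γ (Int.castRingHom ℂ) (R.bd c c')).coeff g = _
    rw [MonoidAlgebra.coeff_mapRingHom]
    rfl
  have h4 : ∀ c', (R.toFreeRes.bdC c c').coeff.support = (R.bd c c').coeff.support := by
    intro c'
    ext g
    rw [Finsupp.mem_support_iff, Finsupp.mem_support_iff, h5]
    simp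
  have h1 : (mbd R.toFreeRes.bdC (Finsupp.single (x, c) 1) : Γ × R.cell →₀ ℂ) =
      ∑ c', ∑ h ∈ (R.bd c c').coeff.support,
        ((R.bd c c').coeff h : ℂ) • Finsupp.single (x * h, c') 1 := by
    refine (mbd_single _ _ _ _).trans ?_
    apply Finset.sum_congr rfl
    intro c' _
    rw [h4]
    apply Finset.sum_congr rfl
    intro h _
    rw [h5, one_mul]
    rfl
  rw [h1, map_sum]
  apply Finset.sum_congr rfl
  intro c' _
  rw [map_sum]
  apply Finset.sum_congr rfl
  intro h _
  rw [map_smul, ev_single, one_mul, smul_eq_mul]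

open Pool.Agent.Lib.P9f173dA in
theorem polyZ_top {Γ : Type u} [Group Γ] (R : FinRes Γ) {n : ℕ} (hn : ∀ c, R.dim c ≤ n)
    {t : Fin n → Γ} (ht : IsPolyZ t) : (ofRes R hn).Top := by
  classical
  cases n with
  | zero =>
    -- there is a cell of dimension zero
    obtain ⟨x, hx⟩ := R.aug_surj
    obtain ⟨c, hc⟩ : ∃ c, R.aug c ≠ 0 := by
      by_contra hcon
      push Not at hcon
      simp [hcon] at hx
    intro K
    refine ⟨Finsupp.single ((1 : Γ), c) 1, ?_, ?_⟩
    · intro y hy
      have := (ofRes R hn).deg_le y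
      omega
    · have h1 : (ofRes R hn).d (Finsupp.single ((1 : Γ), c) 1) = 0 := by
        apply Finsupp.ext
        intro y
        by_contra h2
        have h3 := (ofRes R hn).d_deg _ _ h2
        have h4 : (ofRes R hn).deg ((1 : Γ), c) = 0 := R.aug_dim c hc
        omega
      rw [h1, n2_zero, mul_zero]
      have h5 : n2 (Finsupp.single ((1 : Γ), c) (1 : ℂ)) = 1 := by
        rw [n2_single]; simp
      exact h5.symm ▸ one_pos
  | succ n =>
    by_contra hcon
    have hex := (ofRes R hn).topEx_of_not_top hcon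
    set C := ofRes R hn with hC
    obtain ⟨D, hD⟩ := exists_dual C.free C.fin C.free C.fin C.d C.d_act
    let Xn := {x : C.X // C.deg x = n + 1}
    let f : Pool.Agent.Lib.P9f173d.L2 C.X →L[ℂ] Pool.Agent.Lib.P9f173d.L2 Xn :=
      pull (fun x : Xn => x.1) Subtype.val_injective ∘L D
    have hf : ∀ w (x : Xn), f w x = D w x.1 := fun w x => rfl
    have hsurj : Function.Surjective f := by
      intro g
      obtain ⟨w, hw1, hw2⟩ := hex (ev (push (fun x : Xn => x.1) Subtype.val_injective g))
        (C.HH_ev _)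
      obtain ⟨w', rfl⟩ := C.exists_L2 hw1
      refine ⟨w', ?_⟩
      ext x
      rw [hf]
      have h1 := hw2 (Finsupp.single x.1 1) (by
        intro y hy
        have : y = x.1 := by
          by_contra hne
          exact hy (Finsupp.single_eq_of_ne hne)
        rw [this]
        exact x.2)
      rw [← hD, ev_single, ev_single, one_mul, one_mul, push_apply] at h1
      rw [← h1]
      exact Subtype.val_injective.extend_apply g 0 x
    obtain ⟨s, hs⟩ := exists_rinv f hsurj
    let φ : Fin (rk R (n + 1)) → Γ → Xn := fun j g => ⟨(g⁻¹, (en R (n + 1) j).1), en_dim R _ j⟩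
    have hφ : ∀ j, Function.Injective (φ j) := by
      intro j a b hab
      have h1 : ((a⁻¹, (en R (n + 1) j).1) : Γ × R.cell) = (b⁻¹, (en R (n + 1) j).1) :=
        congrArg Subtype.val hab
      exact inv_injective (Prod.mk.inj h1).1
    let ψ : Fin (rk R n) → Γ → C.X := fun k g => (g⁻¹, (en R n k).1)
    have hψ : ∀ k, Function.Injective (ψ k) := by
      intro k a b hab
      exact inv_injective (Prod.mk.inj hab).1
    refine polyZ_core (toA R hn) ht
      (fun k j => pull (ψ k) (hψ k) ∘L s ∘L push (φ j) (hφ j)) ?_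
    intro i j
    ext ξ x
    obtain ⟨w, hw⟩ : ∃ w, w = s (push (φ j) (hφ j) ξ) := ⟨_, rfl⟩
    have e1 : (∑ k, op ((toA R hn).D n i k) *
        (pull (ψ k) (hψ k) ∘L s ∘L push (φ j) (hφ j))) ξ x =
        ∑ k, op (mt R n i k) (pull (ψ k) (hψ k) w) x := by
      rw [_root_.sum_apply, lp.coeFn_sum, Finset.sum_apply, hw]
      rfl
    refine e1.trans ?_
    have e2 : ∀ k, op (mt R n i k) (pull (ψ k) (hψ k) w) x =
        ∑ h ∈ (mt R n i k).coeff.support, ((mt R n i k).coeff h : ℂ) *
          w (x⁻¹ * h, (en R n k).1) := by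
      intro k
      rw [op_apply]
      apply Finset.sum_congr rfl
      intro h _
      rw [pull_apply]
      simp only [ψ, mul_inv_rev, inv_inv]
    simp only [e2]
    have e3 : f w (φ i x) = ∑ k, ∑ h ∈ (mt R n i k).coeff.support, ((mt R n i k).coeff h : ℂ) *
          w (x⁻¹ * h, (en R n k).1) := by
      have h2 : f w (φ i x) = D w (x⁻¹, (en R (n + 1) i).1) := rfl
      have h3 := hD w (Finsupp.single (x⁻¹, (en R (n + 1) i).1) 1)
      rw [ev_single, one_mul] at h3
      rw [h2, h3]
      refine (ev_mbd R w x⁻¹ (en R (n + 1) i).1).trans ?_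
      refine (sum_en R n _ ?_).trans rfl
      intro c' hc'
      have h7 : R.bd (en R (n + 1) i).1 c' = 0 := by
        by_contra h8
        have := R.bd_dim _ _ h8
        rw [en_dim] at this
        omega
      rw [h7]
      simp
    rw [← e3, hw, hs, push_apply]
    by_cases hij : i = j
    · subst hij
      rw [(hφ i).extend_apply, if_pos rfl]
      rfl
    · rw [if_neg hij, Function.extend_apply']
      · rfl
      · rintro ⟨a, ha⟩
        apply hij
        have h1 : ((a⁻¹, (en R (n + 1) j).1) : Γ × R.cell) = (x⁻¹, (en R (n + 1) i).1) :=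
          congrArg Subtype.val ha
        have h2 := (Prod.mk.inj h1).2
        exact ((en R (n + 1)).injective (Subtype.ext h2)).symm

end Pool.Agent.Lib.P9f173dU
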