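import Pool.Agent.Lib.P9f173dU.Mono

/-!
Products.
-/

namespace Pool.Agent.Lib.P9f173dU

open Pool.Agent.Lib.P9f173d

universe u

section box

variable {X Y X' Y' X'' Y'' : Type*}

/-- The product of two functions. -/
noncomputable def bx (v : X →₀ ℂ) (w : Y →₀ ℂ) : X × Y →₀ ℂ :=
  finsuppTensorFinsupp' ℂ X Y (v ⊗ₜ w)

theorem bx_apply (v : X →₀ ℂ) (w : Y →₀ ℂ) (x : X) (y : Y) : bx v w (x, y) = v x * w y :=
  finsuppTensorFinsupp'_apply_apply ℂ X Y v w x y

theorem bx_single (x : X) (y : Y) :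
    bx (Finsupp.single x (1 : ℂ)) (Finsupp.single y 1) = Finsupp.single (x, y) 1 := by
  classical
  ext ⟨x', y'⟩
  rw [bx_apply, Finsupp.single_apply, Finsupp.single_apply, Finsupp.single_apply]
  by_cases h1 : x = x'
  · by_cases h2 : y = y'
    · subst h1; subst h2; simp
    · rw [if_neg h2, mul_zero, if_neg]
      intro h; exact h2 (Prod.mk.inj h).2
  · rw [if_neg h1, zero_mul, if_neg]
    intro h; exact h1 (Prod.mk.inj h).1

/-- The product of two operators. -/
noncomputable def box (A : (X →₀ ℂ) →ₗ[ℂ] (X' →₀ ℂ)) (B : (Y →₀ ℂ) →ₗ[ℂ] (Y' →₀ ℂ)) :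
    (X × Y →₀ ℂ) →ₗ[ℂ] (X' × Y' →₀ ℂ) :=
  (finsuppTensorFinsupp' ℂ X' Y').toLinearMap ∘ₗ TensorProduct.map A B ∘ₗ
    (finsuppTensorFinsupp' ℂ X Y).symm.toLinearMap

theorem box_bx (A : (X →₀ ℂ) →ₗ[ℂ] (X' →₀ ℂ)) (B : (Y →₀ ℂ) →ₗ[ℂ] (Y' →₀ ℂ))
    (v : X →₀ ℂ) (w : Y →₀ ℂ) : box A B (bx v w) = bx (A v) (B w) := by
  simp [box, bx]

theorem box_ext {M : Type*} [AddCommGroup M] [Module ℂ M] {A B : (X × Y →₀ ℂ) →ₗ[ℂ] M}
    (h : ∀ x y, A (bx (Finsupp.single x 1) (Finsupp.single y 1)) =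
      B (bx (Finsupp.single x 1) (Finsupp.single y 1))) : A = B := by
  apply Finsupp.lhom_ext'
  rintro ⟨x, y⟩
  ext
  simp only [LinearMap.coe_comp, Function.comp_apply, Finsupp.lsingle_apply]
  rw [← bx_single]
  exact h x y

theorem box_comp (A : (X →₀ ℂ) →ₗ[ℂ] (X' →₀ ℂ)) (B : (Y →₀ ℂ) →ₗ[ℂ] (Y' →₀ ℂ))
    (A' : (X' →₀ ℂ) →ₗ[ℂ] (X'' →₀ ℂ)) (B' : (Y' →₀ ℂ) →ₗ[ℂ] (Y'' →₀ ℂ)) :
    box A' B' ∘ₗ box A B = box (A' ∘ₗ A) (B' ∘ₗ B) := by
  apply box_ext
  intro x y
  rw [LinearMap.comp_apply, box_bx, box_bx, box_bx]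
  rfl

theorem box_add_left (A A' : (X →₀ ℂ) →ₗ[ℂ] (X' →₀ ℂ)) (B : (Y →₀ ℂ) →ₗ[ℂ] (Y' →₀ ℂ)) :
    box (A + A') B = box A B + box A' B := by
  unfold box
  rw [TensorProduct.map_add_left, LinearMap.add_comp, LinearMap.comp_add]

theorem box_add_right (A : (X →₀ ℂ) →ₗ[ℂ] (X' →₀ ℂ)) (B B' : (Y →₀ ℂ) →ₗ[ℂ] (Y' →₀ ℂ)) :
    box A (B + B') = box A B + box A B' := by
  unfold box
  rw [TensorProduct.map_add_right, LinearMap.add_comp, LinearMap.comp_add]

theorem bx_add_left (v v' : X →₀ ℂ) (w : Y →₀ ℂ) : bx (v + v') w = bx v w + bx v' w := by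
  unfold bx
  rw [TensorProduct.add_tmul, map_add]

theorem bx_zero_left (w : Y →₀ ℂ) : bx (0 : X →₀ ℂ) w = 0 := by
  unfold bx
  rw [TensorProduct.zero_tmul, map_zero]

theorem bx_zero_right (v : X →₀ ℂ) : bx v (0 : Y →₀ ℂ) = 0 := by
  unfold bx
  rw [TensorProduct.tmul_zero, map_zero]

theorem bx_smul_left (c : ℂ) (v : X →₀ ℂ) (w : Y →₀ ℂ) : bx (c • v) w = c • bx v w := by
  unfold bx
  rw [← TensorProduct.smul_tmul', map_smul]

theorem bx_smul_right (c : ℂ) (v : X →₀ ℂ) (w : Y →₀ ℂ) : bx v (c • w) = c • bx v w := by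
  unfold bx
  rw [TensorProduct.tmul_smul, map_smul]

theorem bx_sub_left (v v' : X →₀ ℂ) (w : Y →₀ ℂ) : bx (v - v') w = bx v w - bx v' w := by
  unfold bx
  rw [TensorProduct.sub_tmul, map_sub]

theorem bx_sub_right (v : X →₀ ℂ) (w w' : Y →₀ ℂ) : bx v (w - w') = bx v w - bx v w' := by
  unfold bx
  rw [TensorProduct.tmul_sub, map_sub]

theorem bx_neg_left (v : X →₀ ℂ) (w : Y →₀ ℂ) : bx (-v) w = - bx v w := by
  unfold bx
  rw [TensorProduct.neg_tmul, map_neg]

theorem n2_bx (v : X →₀ ℂ) (w : Y →₀ ℂ) : n2 (bx v w) = n2 v * n2 w := by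
  classical
  rw [n2_eq_sum (s := v.support ×ˢ w.support), Finset.sum_product]
  · unfold n2
    rw [Finset.sum_mul_sum]
    apply Finset.sum_congr rfl
    intro x _
    apply Finset.sum_congr rfl
    intro y _
    rw [bx_apply, norm_mul, mul_pow]
  · rintro ⟨x, y⟩ h
    rw [Finsupp.mem_support_iff, bx_apply] at h
    rw [Finset.mem_product, Finsupp.mem_support_iff, Finsupp.mem_support_iff]
    exact ⟨left_ne_zero_of_mul h, right_ne_zero_of_mul h⟩

end box

section sign

variable {X : Type*}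

/-- The sign operator. -/
noncomputable def sn (deg : X → ℕ) : (X →₀ ℂ) →ₗ[ℂ] (X →₀ ℂ) :=
  Finsupp.linearCombination ℂ (fun x => (-1 : ℂ) ^ deg x • Finsupp.single x 1)

theorem sn_single (deg : X → ℕ) (x : X) (c : ℂ) :
    sn deg (Finsupp.single x c) = (-1 : ℂ) ^ deg x • Finsupp.single x c := by
  simp [sn, mul_comm]

theorem sn_apply (deg : X → ℕ) (v : X →₀ ℂ) (x : X) : sn deg v x = (-1 : ℂ) ^ deg x * v x := by
  classical
  induction v using Finsupp.induction_linear with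
  | zero => simp
  | add f g hf hg => rw [map_add, Finsupp.add_apply, hf, hg, Finsupp.add_apply, mul_add]
  | single y c =>
    rw [sn_single, Finsupp.smul_apply, smul_eq_mul, Finsupp.single_apply]
    by_cases h : y = x
    · subst h
      rw [if_pos rfl]
    · rw [if_neg h, mul_zero, mul_zero]

theorem sn_sn (deg : X → ℕ) (v : X →₀ ℂ) : sn deg (sn deg v) = v := by
  ext x
  rw [sn_apply, sn_apply, ← mul_assoc, ← mul_pow]
  simp

theorem n2_sn (deg : X → ℕ) (v : X →₀ ℂ) : n2 (sn deg v) = n2 v := by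
  rw [n2_tsum, n2_tsum]
  apply tsum_congr
  intro x
  rw [sn_apply, norm_mul, norm_pow, norm_neg, norm_one, one_pow, one_mul]

theorem sn_of_deg {deg : X → ℕ} {k : ℕ} {v : X →₀ ℂ} (h : ∀ x, v x ≠ 0 → deg x = k) :
    sn deg v = (-1 : ℂ) ^ k • v := by
  ext x
  rw [sn_apply, Finsupp.smul_apply, smul_eq_mul]
  by_cases hx : v x = 0
  · rw [hx, mul_zero, mul_zero]
  · rw [h x hx]

end sign

namespace BCx

variable {Γ : Type u} [Group Γ] {n : ℕ} (C : BCx Γ n)

theorem sn_d (v : C.X →₀ ℂ) : sn C.deg (C.d v) = - C.d (sn C.deg v) := by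
  have key : sn C.deg ∘ₗ C.d = - (C.d ∘ₗ sn C.deg) := by
    apply Finsupp.lhom_ext'
    intro x
    ext y
    simp only [LinearMap.coe_comp, Function.comp_apply, Finsupp.lsingle_apply,
      LinearMap.neg_apply]
    rw [sn_single, map_smul, sn_apply, Finsupp.neg_apply, Finsupp.smul_apply, smul_eq_mul]
    by_cases h0 : C.d (Finsupp.single x 1) y = 0
    · rw [h0]; simp
    · rw [C.d_deg x y h0, pow_succ]
      ring
  exact congrArg (fun T => T v) key

theorem ε_sn (v : C.X →₀ ℂ) : C.ε (sn C.deg v) = C.ε v := by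
  have key : C.ε ∘ₗ sn C.deg = C.ε := by
    apply Finsupp.lhom_ext'
    intro x
    ext
    simp only [LinearMap.coe_comp, Function.comp_apply, Finsupp.lsingle_apply]
    rw [sn_single, map_smul, smul_eq_mul]
    by_cases h0 : C.ε (Finsupp.single x 1) = 0
    · rw [h0, mul_zero]
    · rw [C.ε_deg x h0, pow_zero, one_mul]
  exact congrArg (fun T => T v) key

theorem fl_sum (v : C.X →₀ ℂ) : ∑ k ∈ Finset.range (n + 1), fl C.deg k v = v :=
  (C.res (MonoidHom.id Γ)).e_sum v

theorem exists_sec {V : Type*} [AddCommGroup V] [Module ℂ V] (d : V →ₗ[ℂ] V) :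
    ∃ σ : LinearMap.range d →ₗ[ℂ] V, ∀ y : LinearMap.range d, d (σ y) = y := by
  obtain ⟨σ, hσ⟩ := d.rangeRestrict.exists_rightInverse_of_surjective
    (LinearMap.range_eq_top.mpr d.surjective_rangeRestrict)
  refine ⟨σ, fun y => ?_⟩
  exact congrArg (fun T => ((T y : LinearMap.range d) : V)) hσ

/-- A homogeneous contraction. -/
theorem exists_contr : ∃ (s : (C.X →₀ ℂ) →ₗ[ℂ] (C.X →₀ ℂ)) (η : C.X →₀ ℂ),
    (∀ v, C.d (s v) + s (C.d v) = v - C.ε v • η) ∧ C.ε η = 1 ∧ C.d η = 0 ∧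
    sn C.deg η = η ∧ ∀ v, sn C.deg (s v) = - s (sn C.deg v) := by
  obtain ⟨η0, hη0⟩ := C.surj
  set η := fl C.deg 0 η0 with hηdef
  have hη1 : C.ε η = 1 := by
    have h1 := congrArg C.ε (C.fl_sum η0)
    rw [map_sum, Finset.sum_eq_single 0] at h1
    · rw [hηdef, h1, hη0]
    · intro k _ hk
      exact C.ε_fl k _ hk
    · intro h; simp at h
  have hη2 : C.d η = 0 := C.d_fl0 _
  have hη3 : ∀ x, η x ≠ 0 → C.deg x = 0 := by
    intro x hx
    by_contra hne
    apply hx
    rw [hηdef, fl_apply, if_neg hne]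
  have hη4 : sn C.deg η = η := by
    rw [sn_of_deg hη3, pow_zero, one_smul]
  have hηk : ∀ k, k ≠ 0 → fl C.deg k η = 0 := by
    intro k hk
    ext x
    rw [fl_apply]
    split_ifs with h
    · by_contra hne
      have := hη3 x hne
      omega
    · rfl
  -- a section of the differential
  obtain ⟨σ0, hσ0⟩ := exists_sec C.d
  let σ : LinearMap.range C.d →ₗ[ℂ] (C.X →₀ ℂ) := σ0 - (C.ε ∘ₗ σ0).smulRight η
  have hσ : ∀ y, σ y = σ0 y - C.ε (σ0 y) • η := fun y => rfl
  have hσd : ∀ y : LinearMap.range C.d, C.d (σ y) = y := by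
    intro y
    rw [hσ, map_sub, map_smul, hη2, smul_zero, sub_zero]
    exact hσ0 y
  have hσε : ∀ y : LinearMap.range C.d, C.ε (σ y) = 0 := by
    intro y
    rw [hσ, map_sub, map_smul, hη1, smul_eq_mul, mul_one, sub_self]
  let r : (C.X →₀ ℂ) →ₗ[ℂ] (C.X →₀ ℂ) :=
    LinearMap.id - C.ε.smulRight η - σ ∘ₗ C.d.rangeRestrict
  have hr : ∀ v, r v = v - C.ε v • η - σ (C.d.rangeRestrict v) := fun v => rfl
  have hr' : ∀ v, r v ∈ LinearMap.range C.d := by
    intro v
    obtain ⟨w, hw⟩ := C.exact (r v)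
      (by
        rw [hr, map_sub, map_sub, map_smul, hη2, smul_zero, sub_zero, hσd]
        exact sub_self _)
      (by
        rw [hr, map_sub, map_sub, map_smul, hη1, hσε, smul_eq_mul, mul_one]
        simp)
    exact ⟨w, hw⟩
  let s0 : (C.X →₀ ℂ) →ₗ[ℂ] (C.X →₀ ℂ) := σ ∘ₗ r.codRestrict _ hr'
  have hs0 : ∀ v, C.d (s0 v) + s0 (C.d v) = v - C.ε v • η := by
    intro v
    have e1 : C.d (s0 v) = r v := hσd _
    have e2 : s0 (C.d v) = σ (C.d.rangeRestrict v) := by
      show σ (r.codRestrict _ hr' (C.d v)) = _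
      congr 1
      apply Subtype.ext
      show r (C.d v) = C.d v
      have e3 : C.d.rangeRestrict (C.d v) = 0 := Subtype.ext (C.d_d v)
      rw [hr, C.ε_d, e3, map_zero, zero_smul, sub_zero, sub_zero]
    rw [e1, e2, hr]
    abel
  -- the homogeneous part
  let s : (C.X →₀ ℂ) →ₗ[ℂ] (C.X →₀ ℂ) :=
    ∑ k ∈ Finset.range (n + 1), fl C.deg (k + 1) ∘ₗ s0 ∘ₗ fl C.deg k
  have hs : ∀ v, s v = ∑ k ∈ Finset.range (n + 1), fl C.deg (k + 1) (s0 (fl C.deg k v)) := by
    intro v
    simp only [s, LinearMap.sum_apply, LinearMap.comp_apply]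
  refine ⟨s, η, ?_, hη1, hη2, hη4, ?_⟩
  · intro v
    let a : ℕ → (C.X →₀ ℂ) := fun k => fl C.deg k (C.d (s0 (fl C.deg k v)))
    have e1 : C.d (s v) = ∑ k ∈ Finset.range (n + 1), a k := by
      rw [hs, map_sum]
      exact Finset.sum_congr rfl fun k _ => C.d_fl _ _
    have e2 : s (C.d v) = ∑ k ∈ Finset.range (n + 1), (fl C.deg (k + 1) v - a (k + 1)) := by
      rw [hs]
      apply Finset.sum_congr rfl
      intro k _
      rw [← C.d_fl]
      have h1 := hs0 (fl C.deg (k + 1) v)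
      rw [C.ε_fl _ _ (Nat.succ_ne_zero k), zero_smul, sub_zero] at h1
      have h2 : s0 (C.d (fl C.deg (k + 1) v)) =
          fl C.deg (k + 1) v - C.d (s0 (fl C.deg (k + 1) v)) := by
        rw [add_comm] at h1
        exact eq_sub_of_add_eq h1
      rw [h2, map_sub]
      congr 1
      ext x
      rw [fl_apply, fl_apply]
      split_ifs <;> rfl
    have e3 : a 0 = fl C.deg 0 v - C.ε v • η := by
      have h1 := hs0 (fl C.deg 0 v)
      rw [C.d_fl0, map_zero, add_zero] at h1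
      have h2 : C.ε (fl C.deg 0 v) = C.ε v := by
        have h3 := congrArg C.ε (C.fl_sum v)
        rw [map_sum, Finset.sum_eq_single 0] at h3
        · exact h3
        · intro k _ hk
          exact C.ε_fl k _ hk
        · intro h; simp at h
      simp only [a]
      have h3 : fl C.deg 0 η = η := by
        rw [hηdef]
        ext x
        rw [fl_apply, fl_apply]
        split_ifs <;> rfl
      have h4 : fl C.deg 0 (fl C.deg 0 v) = fl C.deg 0 v := by
        ext x
        rw [fl_apply, fl_apply]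
        split_ifs <;> rfl
      rw [h1, h2, map_sub, map_smul, h3, h4]
    have e4 : a (n + 1) = 0 := by
      simp only [a]
      rw [C.fl_top_succ]
    have e5 : ∑ k ∈ Finset.range (n + 1), a k = a 0 + ∑ k ∈ Finset.range (n + 1), a (k + 1) := by
      have h1 := Finset.sum_range_succ a (n + 1)
      have h2 := Finset.sum_range_succ' a (n + 1)
      rw [h1, e4, add_zero] at h2
      rw [h2, add_comm]
    have e6 : ∑ k ∈ Finset.range (n + 1), fl C.deg (k + 1) v = v - fl C.deg 0 v := by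
      have h2 := Finset.sum_range_succ' (fun k => fl C.deg k v) (n + 1)
      have h1 := Finset.sum_range_succ (fun k => fl C.deg k v) (n + 1)
      rw [h1, C.fl_sum, C.fl_top_succ, add_zero] at h2
      exact eq_sub_of_add_eq h2.symm
    rw [e1, e2, Finset.sum_sub_distrib, e5, e6, e3]
    abel
  · intro v
    rw [hs, hs, map_sum, ← Finset.sum_neg_distrib]
    apply Finset.sum_congr rfl
    intro k _
    have h1 : ∀ (j : ℕ) (w : C.X →₀ ℂ), sn C.deg (fl C.deg j w) = (-1 : ℂ) ^ j • fl C.deg j w := by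
      intro j w
      apply sn_of_deg
      intro x hx
      by_contra hne
      apply hx
      rw [fl_apply, if_neg hne]
    have h2 : fl C.deg k (sn C.deg v) = (-1 : ℂ) ^ k • fl C.deg k v := by
      ext x
      rw [fl_apply, sn_apply, Finsupp.smul_apply, fl_apply, smul_eq_mul]
      split_ifs with h
      · rw [h]
      · rw [mul_zero]
    rw [h1, h2, map_smul, map_smul, pow_succ]
    rw [mul_neg_one, neg_smul]

variable {Δ : Type u} [Group Δ] {m : ℕ} (D : BCx Δ m)

/-- The differential of the product. -/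
noncomputable def pd : (C.X × D.X →₀ ℂ) →ₗ[ℂ] (C.X × D.X →₀ ℂ) :=
  box C.d LinearMap.id + box (sn C.deg) D.d

theorem pd_bx (v : C.X →₀ ℂ) (w : D.X →₀ ℂ) :
    C.pd D (bx v w) = bx (C.d v) w + bx (sn C.deg v) (D.d w) := by
  rw [pd, LinearMap.add_apply, box_bx, box_bx, LinearMap.id_apply]

theorem pd_pd (z : C.X × D.X →₀ ℂ) : C.pd D (C.pd D z) = 0 := by
  have key : C.pd D ∘ₗ C.pd D = 0 := by
    apply box_ext
    intro x y
    rw [LinearMap.comp_apply, pd_bx, map_add, pd_bx, pd_bx, C.d_d, D.d_d, C.sn_d, bx_zero_left,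
      bx_zero_right, LinearMap.zero_apply, bx_neg_left]
    abel
  exact congrArg (fun T => T z) key

/-- The augmentation of the product. -/
noncomputable def pε : (C.X × D.X →₀ ℂ) →ₗ[ℂ] ℂ :=
  Finsupp.linearCombination ℂ fun p =>
    C.ε (Finsupp.single p.1 1) * D.ε (Finsupp.single p.2 1)

theorem pε_bx (v : C.X →₀ ℂ) (w : D.X →₀ ℂ) : C.pε D (bx v w) = C.ε v * D.ε w := by
  have e1 : ∀ x, C.pε D (bx (Finsupp.single x 1) w) = C.ε (Finsupp.single x 1) * D.ε w := by
    intro x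
    induction w using Finsupp.induction_linear with
    | zero => rw [bx_zero_right, map_zero, map_zero, mul_zero]
    | add f g hf hg =>
      have : bx (Finsupp.single x 1) (f + g) =
          bx (Finsupp.single x 1) f + bx (Finsupp.single x 1) g := by
        unfold bx
        rw [TensorProduct.tmul_add, map_add]
      rw [this, map_add, hf, hg, map_add, mul_add]
    | single y c =>
      have h1 : (Finsupp.single y c : D.X →₀ ℂ) = c • Finsupp.single y 1 := by simp
      rw [h1, bx_smul_right, map_smul, map_smul, bx_single]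
      simp only [pε, Finsupp.linearCombination_single, smul_eq_mul]
      ring
  induction v using Finsupp.induction_linear with
  | zero => rw [bx_zero_left, map_zero, map_zero, zero_mul]
  | add f g hf hg => rw [bx_add_left, map_add, hf, hg, map_add, add_mul]
  | single y c =>
    have h1 : (Finsupp.single y c : C.X →₀ ℂ) = c • Finsupp.single y 1 := by simp
    rw [h1, bx_smul_left, map_smul, map_smul, e1]
    simp only [smul_eq_mul]
    ring

theorem pε_pd (z : C.X × D.X →₀ ℂ) : C.pε D (C.pd D z) = 0 := by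
  have key : C.pε D ∘ₗ C.pd D = 0 := by
    apply box_ext
    intro x y
    rw [LinearMap.comp_apply, pd_bx, map_add, pε_bx, pε_bx, C.ε_d, D.ε_d, zero_mul, mul_zero,
      add_zero, LinearMap.zero_apply]
  exact congrArg (fun T => T z) key

theorem p_exact (z : C.X × D.X →₀ ℂ) (h1 : C.pd D z = 0) (h2 : C.pε D z = 0) :
    ∃ w, C.pd D w = z := by
  obtain ⟨s, η, a1, a2, a3, a4, a5⟩ := C.exists_contr
  obtain ⟨s', η', b1, b2, b3, b4, b5⟩ := D.exists_contr
  let S : (C.X × D.X →₀ ℂ) →ₗ[ℂ] (C.X × D.X →₀ ℂ) :=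
    box s LinearMap.id + box (C.ε.smulRight η) s'
  have hS : ∀ v w, S (bx v w) = bx (s v) w + C.ε v • bx η (s' w) := by
    intro v w
    simp only [S, LinearMap.add_apply, box_bx, LinearMap.id_apply, LinearMap.smulRight_apply]
    rw [bx_smul_left]
  have key : C.pd D ∘ₗ S + S ∘ₗ C.pd D =
      LinearMap.id - (C.pε D).smulRight (bx η η') := by
    apply box_ext
    intro x y
    generalize (Finsupp.single x 1 : C.X →₀ ℂ) = v
    generalize (Finsupp.single y 1 : D.X →₀ ℂ) = w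
    simp only [LinearMap.add_apply, LinearMap.comp_apply, LinearMap.sub_apply,
      LinearMap.id_apply, LinearMap.smulRight_apply]
    rw [hS, map_add, map_smul, pd_bx, pd_bx, pd_bx, map_add, hS, hS, pε_bx, a3, bx_zero_left,
      zero_add, a4, C.ε_d, zero_smul, add_zero, a5, C.ε_sn]
    have e1 : bx (C.d (s v)) w = bx v w - C.ε v • bx η w - bx (s (C.d v)) w := by
      have := a1 v
      have h3 : C.d (s v) = v - C.ε v • η - s (C.d v) := by rw [← this]; abel
      rw [h3, bx_sub_left, bx_sub_left, bx_smul_left]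
    have e2 : bx η (D.d (s' w)) = bx η w - D.ε w • bx η η' - bx η (s' (D.d w)) := by
      have := b1 w
      have h3 : D.d (s' w) = w - D.ε w • η' - s' (D.d w) := by rw [← this]; abel
      rw [h3, bx_sub_right, bx_sub_right, bx_smul_right]
    rw [e1, e2, bx_neg_left, smul_sub, smul_sub, smul_smul]
    abel
  refine ⟨S z, ?_⟩
  have h3 := congrArg (fun T => T z) key
  simp only [LinearMap.add_apply, LinearMap.comp_apply, LinearMap.sub_apply,
      LinearMap.id_apply, LinearMap.smulRight_apply] at h3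
  rw [h1, h2, map_zero, add_zero, zero_smul, sub_zero] at h3
  exact h3

/-- The action on the product. -/
def pact : Γ × Δ →* Equiv.Perm (C.X × D.X) where
  toFun p := (C.act p.1).prodCongr (D.act p.2)
  map_one' := by
    ext p <;> simp
  map_mul' x y := by
    ext p <;> simp

theorem pact_apply (γ : Γ) (δ : Δ) (x : C.X) (y : D.X) :
    C.pact D (γ, δ) (x, y) = (C.act γ x, D.act δ y) := rfl

theorem prep_pact (p : Γ × Δ) (v : C.X →₀ ℂ) (w : D.X →₀ ℂ) :
    prep (C.pact D) p (bx v w) = bx (prep C.act p.1 v) (prep D.act p.2 w) := by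
  ext ⟨x, y⟩
  have h1 : prep (C.pact D) p (bx v w) (x, y) = bx v w (C.act p.1⁻¹ x, D.act p.2⁻¹ y) :=
    prep_apply _ _ _ _
  rw [h1, bx_apply, bx_apply, prep_apply, prep_apply]

theorem sn_act (γ : Γ) (v : C.X →₀ ℂ) :
    sn C.deg (prep C.act γ v) = prep C.act γ (sn C.deg v) := by
  ext x
  rw [sn_apply, prep_apply, prep_apply, sn_apply, C.deg_act]

/-- The product complex. -/
noncomputable def prod : BCx (Γ × Δ) (n + m) where
  X := C.X × D.X
  act := C.pact D
  free := by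
    rintro ⟨γ, δ⟩ ⟨x, y⟩ h
    rw [pact_apply] at h
    have h1 := C.free γ x (Prod.mk.inj h).1
    have h2 := D.free δ y (Prod.mk.inj h).2
    rw [h1, h2]
    rfl
  fin := by
    obtain ⟨B, hB⟩ := C.fin
    obtain ⟨B', hB'⟩ := D.fin
    refine ⟨B ×ˢ B', ?_⟩
    rintro ⟨x, y⟩
    obtain ⟨γ, hγ⟩ := hB x
    obtain ⟨δ, hδ⟩ := hB' y
    exact ⟨(γ, δ), by rw [pact_apply, Finset.mem_product]; exact ⟨hγ, hδ⟩⟩
  deg := fun p => C.deg p.1 + D.deg p.2
  deg_le := fun p => Nat.add_le_add (C.deg_le _) (D.deg_le _)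
  deg_act := fun p x => by
    show C.deg (C.act p.1 x.1) + D.deg (D.act p.2 x.2) = _
    rw [C.deg_act, D.deg_act]
  d := C.pd D
  d_act := by
    intro p z
    have key : C.pd D ∘ₗ prep (C.pact D) p = prep (C.pact D) p ∘ₗ C.pd D := by
      apply box_ext
      intro x y
      rw [LinearMap.comp_apply, LinearMap.comp_apply, prep_pact, pd_bx, pd_bx, map_add,
        prep_pact, prep_pact, C.d_act, D.d_act, C.sn_act]
    exact congrArg (fun T => T z) key
  d_deg := by
    classical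
    rintro ⟨x, y⟩ ⟨x', y'⟩ h
    rw [← bx_single, pd_bx, Finsupp.add_apply, bx_apply, bx_apply, sn_single,
      Finsupp.smul_apply] at h
    by_cases h1 : C.d (Finsupp.single x 1) x' * (Finsupp.single y (1 : ℂ)) y' = 0
    · rw [h1, zero_add] at h
      have h2 : D.d (Finsupp.single y 1) y' ≠ 0 := right_ne_zero_of_mul h
      have h3 : (Finsupp.single x (1 : ℂ)) x' ≠ 0 := by
        intro h4
        apply h
        rw [h4]
        simp
      have h4 : x = x' := by
        by_contra hne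
        exact h3 (Finsupp.single_eq_of_ne (Ne.symm hne))
      have h5 := D.d_deg _ _ h2
      show C.deg x + D.deg y = C.deg x' + D.deg y' + 1
      rw [← h4, h5]
      ring
    · have h2 : C.d (Finsupp.single x 1) x' ≠ 0 := left_ne_zero_of_mul h1
      have h3 : (Finsupp.single y (1 : ℂ)) y' ≠ 0 := right_ne_zero_of_mul h1
      have h4 : y = y' := by
        by_contra hne
        exact h3 (Finsupp.single_eq_of_ne (Ne.symm hne))
      have h5 := C.d_deg _ _ h2
      show C.deg x + D.deg y = C.deg x' + D.deg y' + 1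
      rw [← h4, h5]
      ring
  d_d := C.pd_pd D
  ε := C.pε D
  ε_act := by
    intro p z
    have key : C.pε D ∘ₗ prep (C.pact D) p = C.pε D := by
      apply box_ext
      intro x y
      rw [LinearMap.comp_apply, prep_pact, pε_bx, pε_bx, C.ε_act, D.ε_act]
    exact congrArg (fun T => T z) key
  ε_deg := by
    rintro ⟨x, y⟩ h
    rw [← bx_single, pε_bx] at h
    have h1 := C.ε_deg x (left_ne_zero_of_mul h)
    have h2 := D.ε_deg y (right_ne_zero_of_mul h)
    show C.deg x + D.deg y = 0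
    rw [h1, h2]
  ε_d := C.pε_pd D
  exact := C.p_exact D
  surj := by
    obtain ⟨v, hv⟩ := C.surj
    obtain ⟨w, hw⟩ := D.surj
    exact ⟨bx v w, by rw [pε_bx, hv, hw, mul_one]⟩

theorem Top.prod {C : BCx Γ n} {D : BCx Δ m} (hC : C.Top) (hD : D.Top) : (C.prod D).Top := by
  intro K
  obtain ⟨v, hv1, hv2⟩ := hC (4 * |K| + 1)
  obtain ⟨w, hw1, hw2⟩ := hD (4 * |K| + 1)
  refine ⟨bx v w, ?_, ?_⟩
  · rintro ⟨x, y⟩ h
    have h' : v x * w y ≠ 0 := by
      rw [← bx_apply]
      exact h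
    show C.deg x + D.deg y = n + m
    rw [hv1 x (left_ne_zero_of_mul h'), hw1 y (right_ne_zero_of_mul h')]
  · show K * n2 (C.pd D (bx v w)) < n2 (bx v w)
    have hK := abs_nonneg K
    have p1 : 0 < n2 v := lt_of_le_of_lt (mul_nonneg (by positivity) (n2_nonneg _)) hv2
    have p2 : 0 < n2 w := lt_of_le_of_lt (mul_nonneg (by positivity) (n2_nonneg _)) hw2
    have h1 : n2 (C.pd D (bx v w)) ≤ 2 * (n2 (C.d v) * n2 w) + 2 * (n2 v * n2 (D.d w)) := by
      rw [pd_bx]
      refine (n2_add_le _ _).trans ?_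
      rw [n2_bx, n2_bx, n2_sn]
    rw [n2_bx]
    have h2 : (4 * |K| + 1) * n2 (C.d v) * n2 w < n2 v * n2 w :=
      mul_lt_mul_of_pos_right hv2 p2
    have h3 : (4 * |K| + 1) * n2 (D.d w) * n2 v < n2 w * n2 v :=
      mul_lt_mul_of_pos_right hw2 p1
    have h4 : 0 ≤ n2 (C.d v) * n2 w := mul_nonneg (n2_nonneg _) p2.le
    have h5 : 0 ≤ n2 v * n2 (D.d w) := mul_nonneg p1.le (n2_nonneg _)
    have h6 : K * n2 (C.pd D (bx v w)) ≤ |K| * n2 (C.pd D (bx v w)) :=
      mul_le_mul_of_nonneg_right (le_abs_self K) (n2_nonneg _)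
    have h7 : |K| * n2 (C.pd D (bx v w)) ≤
        |K| * (2 * (n2 (C.d v) * n2 w) + 2 * (n2 v * n2 (D.d w))) :=
      mul_le_mul_of_nonneg_left h1 hK
    nlinarith

end BCx

end Pool.Agent.Lib.P9f173dU
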