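import Pool.Agent.Lib.P9f173dU.Base

/-!
The trace argument in length two.
-/

namespace Pool.Agent.Lib.P9f173dU

open Pool.Agent.Lib.P9f173d ContinuousLinearMap

universe u

variable {X ι : Type*} [Group X] [Fintype ι]

/-- The projection to the coordinates of degree `k`. -/
noncomputable def Pk (X : Type*) {ι : Type*} (dim : ι → ℕ) (k : ℕ) :
    L2 (X × ι) →L[ℂ] L2 (X × ι) := by
  classical
  exact opP (PEquiv.ofSet {p : X × ι | dim p.2 = k})

theorem Pk_apply (dim : ι → ℕ) (k : ℕ) (f : L2 (X × ι)) (x : X) (c : ι) :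
    Pk X dim k f (x, c) = if dim c = k then f (x, c) else 0 := by
  classical
  unfold Pk
  rw [opP_apply]
  simp only [PEquiv.ofSet]
  by_cases h : dim c = k
  · simp [h]
  · simp [h]

theorem Pk_Pk (dim : ι → ℕ) (k l : ℕ) (f : L2 (X × ι)) :
    Pk X dim k (Pk X dim l f) = if k = l then Pk X dim k f else 0 := by
  ext ⟨x, c⟩
  rw [Pk_apply, Pk_apply]
  by_cases h : k = l
  · subst h
    rw [if_pos rfl, Pk_apply]
    split_ifs <;> rfl
  · rw [if_neg h]
    split_ifs with h1 h2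
    · exact absurd (h1.symm.trans h2) h
    · rfl
    · rfl

theorem Pk_adj (dim : ι → ℕ) (k : ℕ) : (Pk X dim k).adjoint = Pk X dim k := by
  classical
  unfold Pk
  rw [opP_adjoint]
  congr 1

/-- Left translation. -/
noncomputable def La (ι : Type*) (x : X) : L2 (X × ι) →L[ℂ] L2 (X × ι) :=
  opP ((Equiv.mulLeft x⁻¹).prodCongr (Equiv.refl ι)).toPEquiv

theorem La_apply (x y : X) (c : ι) (f : L2 (X × ι)) : La ι x f (y, c) = f (x⁻¹ * y, c) := by
  unfold La
  rw [opP_apply]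
  simp [Equiv.toPEquiv]

theorem La_adj (x : X) : (La ι x).adjoint = La ι x⁻¹ := by
  unfold La
  rw [opP_adjoint]
  congr 1
  ext ⟨y, c⟩ ⟨z, c'⟩
  simp [Equiv.toPEquiv, PEquiv.symm]

theorem La_dl [DecidableEq X] [DecidableEq ι] (x : X) (c : ι) : La ι x (dl (1, c)) = dl (x, c) := by
  ext ⟨y, c'⟩
  rw [La_apply, dl_apply, dl_apply]
  by_cases h : y = x ∧ c' = c
  · rw [if_pos, if_pos]
    · rw [h.1, h.2]
    · rw [h.1, h.2, inv_mul_cancel]
  · rw [if_neg, if_neg]
    · intro h1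
      exact h ⟨(Prod.mk.inj h1).1, (Prod.mk.inj h1).2⟩
    · intro h1
      have h2 := (Prod.mk.inj h1).1
      exact h ⟨(inv_mul_eq_one.mp h2).symm, (Prod.mk.inj h1).2⟩

theorem Pk_La (dim : ι → ℕ) (k : ℕ) (x : X) : Pk X dim k ∘L La ι x = La ι x ∘L Pk X dim k := by
  ext f ⟨y, c⟩
  simp only [ContinuousLinearMap.comp_apply]
  rw [Pk_apply, La_apply, La_apply, Pk_apply]

/-- A subspace version of the open mapping theorem. -/
theorem exists_bound {H : Type*} [NormedAddCommGroup H] [InnerProductSpace ℂ H] [CompleteSpace H]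
    (P D : H →L[ℂ] H) (hP : P.adjoint = P) (hPP : ∀ x, P (P x) = P x)
    (h : ∀ f, ∃ g, P (D g) = P f) : ∃ K : ℝ, 0 ≤ K ∧ ∀ f, ‖P f‖ ≤ K * ‖D.adjoint (P f)‖ := by
  let N : Submodule ℂ H := LinearMap.ker ((1 - P : H →L[ℂ] H) : H →ₗ[ℂ] H)
  have hN : ∀ x, x ∈ N ↔ P x = x := by
    intro x
    simp only [N, LinearMap.mem_ker, ContinuousLinearMap.coe_coe,
      sub_apply, one_apply_eq_self, sub_eq_zero]
    exact eq_comm
  have hNc : IsClosed (N : Set H) := by
    have : (N : Set H) = {x | P x = x} := by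
      ext x; exact hN x
    rw [this]
    exact isClosed_eq P.continuous continuous_id
  have : CompleteSpace N := hNc.completeSpace_coe
  let f : H →L[ℂ] N := (P ∘L D).codRestrict N (fun x => (hN _).mpr (hPP _))
  have hf : Function.Surjective f := by
    rintro ⟨y, hy⟩
    obtain ⟨z, hz⟩ := h y
    refine ⟨z, Subtype.ext ?_⟩
    show P (D z) = y
    rw [hz, (hN y).mp hy]
  obtain ⟨C, hC0, hC⟩ := f.exists_preimage_norm_le hf
  refine ⟨C, hC0.le, ?_⟩
  intro x
  obtain ⟨z, hz1, hz2⟩ := hC ⟨P x, (hN _).mpr (hPP x)⟩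
  have h1 : P (D z) = P x := congrArg Subtype.val hz1
  have h2 : ‖z‖ ≤ C * ‖P x‖ := hz2
  have e1 : ‖P x‖ ^ 2 = ‖inner ℂ z (D.adjoint (P x))‖ := by
    rw [adjoint_inner_right]
    have e2 : inner ℂ (D z) (P x) = inner ℂ (P (D z)) (P x) := by
      have := adjoint_inner_left P (P x) (D z)
      rw [hP, hPP] at this
      exact this.symm
    rw [e2, h1, inner_self_eq_norm_sq_to_K]
    simp
  have e3 := norm_inner_le_norm (𝕜 := ℂ) z (D.adjoint (P x))
  by_cases h0 : ‖P x‖ = 0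
  · rw [h0]; positivity
  · have hpos : 0 < ‖P x‖ := lt_of_le_of_ne (norm_nonneg _) (Ne.symm h0)
    have : ‖P x‖ * ‖P x‖ ≤ ‖P x‖ * (C * ‖D.adjoint (P x)‖) := by
      calc ‖P x‖ * ‖P x‖ = ‖P x‖ ^ 2 := by ring
        _ ≤ ‖z‖ * ‖D.adjoint (P x)‖ := by rw [e1]; exact e3
        _ ≤ (C * ‖P x‖) * ‖D.adjoint (P x)‖ := by gcongr
        _ = _ := by ring
    exact le_of_mul_le_mul_left this hpos

/-- The trace argument. -/
theorem trace_argument (dim : ι → ℕ) (hdim : ∀ c, dim c ≤ 2)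
    (hχ : (Finset.univ.filter fun c => dim c = 1).card ≤
      (Finset.univ.filter fun c => dim c = 0).card + (Finset.univ.filter fun c => dim c = 2).card)
    (D : L2 (X × ι) →L[ℂ] L2 (X × ι)) (hDD : ∀ f, D (D f) = 0)
    (hD : ∀ k f, Pk X dim (k + 1) (D f) = D (Pk X dim k f))
    (hΛ : ∀ x, D ∘L La ι x = La ι x ∘L D)
    (h0 : ∃ K : ℝ, ∀ f, ‖Pk X dim 0 f‖ ≤ K * ‖D (Pk X dim 0 f)‖)
    (h2 : ∀ f, ∃ g, Pk X dim 2 (D g) = Pk X dim 2 f) :
    ∀ f, D f = 0 → ∃ g, D g = f := by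
  classical
  set P0 := Pk X dim 0 with hP0
  set P1 := Pk X dim 1 with hP1
  set P2 := Pk X dim 2 with hP2
  have a0 : P0.adjoint = P0 := Pk_adj _ _
  have a1 : P1.adjoint = P1 := Pk_adj _ _
  have a2 : P2.adjoint = P2 := Pk_adj _ _
  have i00 : ∀ f, P0 (P0 f) = P0 f := fun f => by rw [hP0, Pk_Pk, if_pos rfl]
  have i11 : ∀ f, P1 (P1 f) = P1 f := fun f => by rw [hP1, Pk_Pk, if_pos rfl]
  have i22 : ∀ f, P2 (P2 f) = P2 f := fun f => by rw [hP2, Pk_Pk, if_pos rfl]
  have i01 : ∀ f, P0 (P1 f) = 0 := fun f => by rw [hP0, hP1, Pk_Pk, if_neg (by norm_num)]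
  have i10 : ∀ f, P1 (P0 f) = 0 := fun f => by rw [hP0, hP1, Pk_Pk, if_neg (by norm_num)]
  have i21 : ∀ f, P2 (P1 f) = 0 := fun f => by rw [hP2, hP1, Pk_Pk, if_neg (by norm_num)]
  have i12 : ∀ f, P1 (P2 f) = 0 := fun f => by rw [hP2, hP1, Pk_Pk, if_neg (by norm_num)]
  have i02 : ∀ f, P0 (P2 f) = 0 := fun f => by rw [hP0, hP2, Pk_Pk, if_neg (by norm_num)]
  have i20 : ∀ f, P2 (P0 f) = 0 := fun f => by rw [hP0, hP2, Pk_Pk, if_neg (by norm_num)]
  have isum : ∀ f, P0 f + P1 f + P2 f = f := by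
    intro f
    ext ⟨x, c⟩
    rw [lp.coeFn_add, Pi.add_apply, lp.coeFn_add, Pi.add_apply, hP0, hP1, hP2, Pk_apply,
      Pk_apply, Pk_apply]
    have := hdim c
    have h5 : dim c = 0 ∨ dim c = 1 ∨ dim c = 2 := by omega
    rcases h5 with h | h | h <;> simp [h]
  have d01 : ∀ f, P1 (D f) = D (P0 f) := hD 0
  have d12 : ∀ f, P2 (D f) = D (P1 f) := hD 1
  have d23 : ∀ f, D (P2 f) = 0 := by
    intro f
    rw [← hD 2]
    ext ⟨x, c⟩
    rw [Pk_apply, if_neg]
    · rfl
    · have := hdim c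
      omega
  obtain ⟨K0, hK0⟩ := h0
  obtain ⟨K2, hK20, hK2⟩ := exists_bound P2 D a2 i22 h2
  -- the operator from the even to the odd part
  set A : L2 (X × ι) →L[ℂ] L2 (X × ι) := D ∘L P0 + D.adjoint ∘L P2 with hA
  have hAapp : ∀ f, A f = D (P0 f) + D.adjoint (P2 f) := fun f => rfl
  set A' : L2 (X × ι) →L[ℂ] L2 (X × ι) := P0 ∘L D.adjoint + P2 ∘L D with hA'
  have hAadj : A.adjoint = A' := by
    rw [hA, hA', map_add, adjoint_comp, adjoint_comp, a0, a2, adjoint_adjoint]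
  set M : L2 (X × ι) →L[ℂ] L2 (X × ι) := A' * A + P1 with hM
  have hMadj : M.adjoint = M := by
    have e1 : (A' * A).adjoint = A' * A := by
      show (A' ∘L A).adjoint = A' ∘L A
      rw [adjoint_comp, hAadj, ← hAadj, adjoint_adjoint]
    rw [hM, map_add, e1, a1]
  have hin : ∀ f, inner ℂ (M f) f = ((‖A f‖ ^ 2 + ‖P1 f‖ ^ 2 : ℝ) : ℂ) := by
    intro f
    have e1 : M f = A' (A f) + P1 f := rfl
    rw [e1, inner_add_left, ← hAadj, adjoint_inner_left, inner_self_eq_norm_sq_to_K]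
    have e2 : inner ℂ (P1 f) f = inner ℂ (P1 f) (P1 f) := by
      have := adjoint_inner_left P1 f (P1 f)
      rw [a1, i11] at this
      exact this
    rw [e2, inner_self_eq_norm_sq_to_K]
    push_cast
    rfl
  have hAn : ∀ f, ‖A f‖ ^ 2 = ‖D (P0 f)‖ ^ 2 + ‖D.adjoint (P2 f)‖ ^ 2 := by
    intro f
    rw [hAapp]
    have e1 : inner ℂ (D (P0 f)) (D.adjoint (P2 f)) = 0 := by
      rw [adjoint_inner_right, hDD, inner_zero_left]
    have := norm_add_sq_eq_norm_sq_add_norm_sq_of_inner_eq_zero _ _ e1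
    nlinarith [this]
  have hfn : ∀ f, ‖f‖ ^ 2 ≤ 3 * (‖P0 f‖ ^ 2 + ‖P1 f‖ ^ 2 + ‖P2 f‖ ^ 2) := by
    intro f
    have e1 : ‖f‖ ≤ ‖P0 f‖ + ‖P1 f‖ + ‖P2 f‖ := by
      conv_lhs => rw [← isum f]
      exact norm_add₃_le
    have e2 : ‖f‖ ^ 2 ≤ (‖P0 f‖ + ‖P1 f‖ + ‖P2 f‖) ^ 2 := pow_le_pow_left₀ (norm_nonneg _) e1 2
    nlinarith [sq_nonneg (‖P0 f‖ - ‖P1 f‖), sq_nonneg (‖P1 f‖ - ‖P2 f‖),
      sq_nonneg (‖P0 f‖ - ‖P2 f‖)]
  have hMu : IsUnit M := by
    have hc : (0 : ℝ) < (3 * (K0 ^ 2 + K2 ^ 2 + 1))⁻¹ := by positivity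
    apply isUnit_of_forall_le_norm_inner_map (c := ⟨(3 * (K0 ^ 2 + K2 ^ 2 + 1))⁻¹, hc.le⟩)
    · exact hc
    · intro f
      rw [hin, Complex.norm_real, Real.norm_eq_abs, abs_of_nonneg (by positivity)]
      show ‖f‖ ^ 2 * (3 * (K0 ^ 2 + K2 ^ 2 + 1))⁻¹ ≤ _
      rw [mul_inv_le_iff₀ (by positivity)]
      refine (hfn f).trans ?_
      rw [hAn]
      have e1 : ‖P0 f‖ ^ 2 ≤ K0 ^ 2 * ‖D (P0 f)‖ ^ 2 := by
        rw [← mul_pow]
        exact pow_le_pow_left₀ (norm_nonneg _) (hK0 f) 2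
      have e2 : ‖P2 f‖ ^ 2 ≤ K2 ^ 2 * ‖D.adjoint (P2 f)‖ ^ 2 := by
        rw [← mul_pow]
        exact pow_le_pow_left₀ (norm_nonneg _) (hK2 f) 2
      nlinarith [mul_nonneg (sq_nonneg K0) (sq_nonneg ‖D.adjoint (P2 f)‖),
        mul_nonneg (sq_nonneg K0) (sq_nonneg ‖P1 f‖),
        mul_nonneg (sq_nonneg K2) (sq_nonneg ‖D (P0 f)‖),
        mul_nonneg (sq_nonneg K2) (sq_nonneg ‖P1 f‖), sq_nonneg ‖D.adjoint (P2 f)‖,
        sq_nonneg ‖D (P0 f)‖, sq_nonneg ‖P1 f‖]
  obtain ⟨U, hU⟩ := hMu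
  obtain ⟨M', hM'⟩ : ∃ M' : L2 (X × ι) →L[ℂ] L2 (X × ι), M' = ↑U⁻¹ := ⟨_, rfl⟩
  have m1 : M * M' = 1 := by rw [hM', ← hU]; exact U.mul_inv
  have m2 : M' * M = 1 := by rw [hM', ← hU]; exact U.inv_mul
  have hAP1 : A * P1 = 0 := by
    ext1 f
    show A (P1 f) = 0
    rw [hAapp, i01, i21, map_zero, map_zero, add_zero]
  have hP11 : P1 * P1 = P1 := by
    ext1 f
    exact i11 f
  have hMP1 : M * P1 = P1 := by
    rw [hM, add_mul, mul_assoc, hAP1, mul_zero, zero_add, hP11]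
  have hM'P1 : M' * P1 = P1 := by
    calc M' * P1 = M' * (M * P1) := by rw [hMP1]
      _ = (M' * M) * P1 := by rw [mul_assoc]
      _ = P1 := by rw [m2, one_mul]
  have hAA : A' * A = M - P1 := by rw [hM]; abel
  have hP1A : P1 * A = A := by
    ext1 f
    show P1 (A f) = A f
    rw [hAapp, map_add, d01, i00]
    congr 1
    have e1 : P2 ∘L D ∘L P1 = P2 ∘L D := by
      ext1 g
      show P2 (D (P1 g)) = P2 (D g)
      rw [d12, d12, i11]
    have e2 := congrArg ContinuousLinearMap.adjoint e1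
    rw [adjoint_comp, adjoint_comp, a1, a2, adjoint_comp, a2] at e2
    exact congrArg (fun T => T f) e2
  set Q : L2 (X × ι) →L[ℂ] L2 (X × ι) := A * M' * A' with hQ
  have hQQ : Q * Q = Q := by
    calc Q * Q = A * M' * (A' * A) * M' * A' := by rw [hQ]; noncomm_ring
      _ = A * (M' * M) * M' * A' - A * (M' * P1) * M' * A' := by rw [hAA]; noncomm_ring
      _ = A * M' * A' - (A * P1) * M' * A' := by rw [m2, hM'P1]; noncomm_ring
      _ = Q := by rw [hAP1, hQ]; noncomm_ring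
  have hM'adj : M'.adjoint = M' := by
    have e1 : M'.adjoint * M = 1 := by
      have := congrArg ContinuousLinearMap.adjoint m1
      have e2 : (M * M').adjoint = M'.adjoint * M.adjoint := adjoint_comp M M'
      rw [e2, hMadj] at this
      rw [this]
      symm; rw [eq_adjoint_iff]; simp
    calc M'.adjoint = M'.adjoint * (M * M') := by rw [m1, mul_one]
      _ = (M'.adjoint * M) * M' := by rw [mul_assoc]
      _ = M' := by rw [e1, one_mul]
  have hQadj : Q.adjoint = Q := by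
    have e1 : Q = A ∘L M' ∘L A' := rfl
    rw [e1, adjoint_comp, adjoint_comp, hM'adj, hAadj, ← hAadj, adjoint_adjoint]
    rfl
  have hP1Q : P1 * Q = Q := by
    rw [hQ, ← mul_assoc, ← mul_assoc, hP1A]
  have hQP1 : Q * P1 = Q := by
    have := congrArg ContinuousLinearMap.adjoint hP1Q
    have e2 : (P1 * Q).adjoint = Q.adjoint * P1.adjoint := adjoint_comp P1 Q
    rw [e2, hQadj, a1] at this
    exact this
  set E : L2 (X × ι) →L[ℂ] L2 (X × ι) := P1 - Q with hE
  have hEE : E * E = E := by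
    rw [hE, sub_mul, mul_sub, mul_sub, hP11, hP1Q, hQP1, hQQ]
    abel
  have hEadj : E.adjoint = E := by rw [hE, map_sub, a1, hQadj]
  -- commutation with translations
  have cD : ∀ x, D * La ι x = La ι x * D := hΛ
  have cD' : ∀ x, D.adjoint * La ι x = La ι x * D.adjoint := by
    intro x
    have := congrArg ContinuousLinearMap.adjoint (hΛ x⁻¹)
    rw [adjoint_comp, adjoint_comp, La_adj, inv_inv] at this
    exact this.symm
  have c0 : ∀ x, P0 * La ι x = La ι x * P0 := fun x => Pk_La _ _ _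
  have c1 : ∀ x, P1 * La ι x = La ι x * P1 := fun x => Pk_La _ _ _
  have c2 : ∀ x, P2 * La ι x = La ι x * P2 := fun x => Pk_La _ _ _
  have cA : ∀ x, A * La ι x = La ι x * A := by
    intro x
    have e1 : A = D * P0 + D.adjoint * P2 := rfl
    rw [e1, add_mul, mul_add, mul_assoc, c0, ← mul_assoc, cD, mul_assoc, mul_assoc, c2,
      ← mul_assoc D.adjoint, cD', mul_assoc]
  have cA' : ∀ x, A' * La ι x = La ι x * A' := by
    intro x
    have e1 : A' = P0 * D.adjoint + P2 * D := rfl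
    rw [e1, add_mul, mul_add, mul_assoc, cD', ← mul_assoc, c0, mul_assoc, mul_assoc, cD,
      ← mul_assoc P2, c2, mul_assoc]
  have cM : ∀ x, M * La ι x = La ι x * M := by
    intro x
    calc M * La ι x = A' * A * La ι x + P1 * La ι x := add_mul _ _ _
      _ = La ι x * (A' * A) + La ι x * P1 := by
          rw [mul_assoc, cA, ← mul_assoc, cA', mul_assoc, c1]
      _ = La ι x * M := (mul_add _ _ _).symm
  have cM' : ∀ x, M' * La ι x = La ι x * M' := by
    intro x
    calc M' * La ι x = M' * La ι x * (M * M') := by rw [m1, mul_one]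
      _ = M' * (La ι x * M) * M' := by noncomm_ring
      _ = (M' * M) * La ι x * M' := by rw [← cM]; noncomm_ring
      _ = La ι x * M' := by rw [m2, one_mul]
  have cQ : ∀ x, Q * La ι x = La ι x * Q := by
    intro x
    rw [hQ, mul_assoc, cA', ← mul_assoc, mul_assoc A, cM', ← mul_assoc A, cA]
    noncomm_ring
  have cE : ∀ x, E * La ι x = La ι x * E := by
    intro x
    rw [hE, sub_mul, mul_sub, c1, cQ]
  -- traces
  have tcomm := trace_comm (La ι) (fun x c => La_dl x c)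
    (fun x c => by rw [La_adj, La_dl]) A (M' * A') cA (by
      intro x
      show M' * A' * La ι x = La ι x * (M' * A')
      rw [mul_assoc, cA', ← mul_assoc, cM', mul_assoc])
  have hdd : ∀ c : ι, inner ℂ (dl ((1 : X), c)) (dl ((1 : X), c)) = (1 : ℂ) := by
    intro c
    rw [inner_dl_left, dl_apply, if_pos rfl]
  have hPdl : ∀ (k : ℕ) (c : ι), Pk X dim k (dl ((1 : X), c)) = if dim c = k then dl ((1 : X), c) else 0 := by
    intro k c
    ext ⟨y, c'⟩
    rw [Pk_apply, dl_apply]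
    by_cases h : (y, c') = ((1 : X), c)
    · have h' := (Prod.mk.inj h).2
      subst h'
      split_ifs with h1 h2
      · rw [dl_apply, if_pos h]
      · rfl
    · rw [if_neg h]
      split_ifs with h1 h2 h2
      · rw [dl_apply, if_neg h]
      · rfl
      · rw [dl_apply, if_neg h]
      · rfl
  have t1 : ∑ c, inner ℂ (dl ((1 : X), c)) (Q (dl ((1 : X), c))) =
      ∑ c : ι, (if dim c = 1 then (0 : ℂ) else 1) := by
    have e1 : ∀ c : ι, Q (dl ((1 : X), c)) = A ((M' * A') (dl ((1 : X), c))) := fun c => rfl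
    simp only [e1]
    rw [tcomm]
    apply Finset.sum_congr rfl
    intro c _
    have e2 : (M' * A') (A (dl ((1 : X), c))) = (M' * (A' * A)) (dl ((1 : X), c)) := rfl
    rw [e2, hAA, mul_sub, m2, hM'P1]
    show inner ℂ (dl ((1 : X), c)) (dl ((1 : X), c) - P1 (dl ((1 : X), c))) = _
    rw [hP1, hPdl]
    split_ifs with h
    · rw [sub_self, inner_zero_right]
    · rw [sub_zero, hdd]
  have t2 : ∑ c, inner ℂ (dl ((1 : X), c)) (P1 (dl ((1 : X), c))) =
      ∑ c : ι, (if dim c = 1 then (1 : ℂ) else 0) := by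
    apply Finset.sum_congr rfl
    intro c _
    rw [hP1, hPdl]
    split_ifs with h
    · rw [hdd]
    · rw [inner_zero_right]
  have t3 : ∑ c, inner ℂ (dl ((1 : X), c)) (E (dl ((1 : X), c))) =
      (((Finset.univ.filter fun c => dim c = 1).card : ℝ) -
        (Finset.univ.filter fun c => ¬ dim c = 1).card : ℝ) := by
    have e1 : ∀ c : ι, inner ℂ (dl ((1 : X), c)) (E (dl ((1 : X), c))) =
        inner ℂ (dl ((1 : X), c)) (P1 (dl ((1 : X), c))) -
          inner ℂ (dl ((1 : X), c)) (Q (dl ((1 : X), c))) := by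
      intro c
      rw [← inner_sub_right]
      rfl
    simp only [e1]
    rw [Finset.sum_sub_distrib, t1, t2, Finset.card_filter, Finset.card_filter]
    push_cast
    congr 1
    · apply Finset.sum_congr rfl
      intro c _
      split_ifs <;> simp
    · apply Finset.sum_congr rfl
      intro c _
      by_cases h : dim c = 1
      · rw [if_pos h, if_neg (not_not.mpr h)]
        simp
      · rw [if_neg h, if_pos h]
        simp
  have t4 : ∑ c, inner ℂ (dl ((1 : X), c)) (E (dl ((1 : X), c))) =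
      ((∑ c, ‖E (dl ((1 : X), c))‖ ^ 2 : ℝ) : ℂ) := by
    push_cast
    apply Finset.sum_congr rfl
    intro c _
    have e1 : E (dl ((1 : X), c)) = E (E (dl ((1 : X), c))) := by
      conv_lhs => rw [← hEE]
      rfl
    conv_lhs => rw [e1]
    have e2 := adjoint_inner_left E (E (dl ((1 : X), c))) (dl ((1 : X), c))
    rw [hEadj] at e2
    rw [← e2, inner_self_eq_norm_sq_to_K]
    rfl
  have t5 : ∑ c, ‖E (dl ((1 : X), c))‖ ^ 2 ≤ 0 := by
    rw [t4] at t3
    have e1 : (∑ c, ‖E (dl ((1 : X), c))‖ ^ 2 : ℝ) =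
        ((Finset.univ.filter fun c => dim c = 1).card : ℝ) -
        ((Finset.univ.filter fun c => ¬ dim c = 1).card : ℝ) := by
      exact_mod_cast t3
    rw [e1]
    have e2 : (Finset.univ.filter fun c => ¬ dim c = 1).card =
        (Finset.univ.filter fun c => dim c = 0).card +
          (Finset.univ.filter fun c => dim c = 2).card := by
      rw [← Finset.card_union_of_disjoint]
      · congr 1
        ext c
        have := hdim c
        simp only [Finset.mem_filter, Finset.mem_univ, true_and, Finset.mem_union]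
        omega
      · rw [Finset.disjoint_filter]
        intro c _ h
        omega
    rw [e2]
    have e3 : ((Finset.univ.filter fun c => dim c = 1).card : ℝ) ≤
        (((Finset.univ.filter fun c => dim c = 0).card +
          (Finset.univ.filter fun c => dim c = 2).card : ℕ) : ℝ) := by exact_mod_cast hχ
    linarith
  have hE0 : E = 0 := by
    apply clm_ext_dl
    rintro ⟨x, c⟩
    have e1 : ‖E (dl ((1 : X), c))‖ ^ 2 ≤ 0 :=
      (Finset.single_le_sum (f := fun c => ‖E (dl ((1 : X), c))‖ ^ 2)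
        (fun _ _ => by positivity) (Finset.mem_univ c)).trans t5
    have e2 : E (dl ((1 : X), c)) = 0 := by
      have : ‖E (dl ((1 : X), c))‖ = 0 := by nlinarith [norm_nonneg (E (dl ((1 : X), c)))]
      exact norm_eq_zero.mp this
    rw [← La_dl x c]
    have e3 : E (La ι x (dl ((1 : X), c))) = La ι x (E (dl ((1 : X), c))) :=
      congrArg (fun T => T (dl ((1 : X), c))) (cE x)
    rw [e3, e2, map_zero]
    rfl
  have hQP : Q = P1 := by
    rw [hE, sub_eq_zero] at hE0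
    exact hE0.symm
  -- exactness
  intro f hf
  have f0 : P0 f = 0 := by
    have e1 : D (P0 f) = 0 := by rw [← d01, hf, map_zero]
    have e2 := hK0 f
    rw [e1, norm_zero, mul_zero] at e2
    exact norm_le_zero_iff.mp e2
  have f1 : ∃ g, D g = P1 f := by
    obtain ⟨g, hg⟩ : ∃ g, A g = P1 f := by
      refine ⟨M' (A' f), ?_⟩
      rw [← hQP]
      rfl
    have e1 : D (P1 f) = 0 := by rw [← d12, hf, map_zero]
    rw [← hg, hAapp, map_add, hDD, zero_add] at e1
    have e2 : D.adjoint (P2 g) = 0 := by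
      have e3 : inner ℂ (D.adjoint (P2 g)) (D.adjoint (P2 g)) = (0 : ℂ) := by
        have h5 := adjoint_inner_left D (D.adjoint (P2 g)) (P2 g)
        rw [h5, e1, inner_zero_right]
      exact inner_self_eq_zero.mp e3
    refine ⟨P0 g, ?_⟩
    rw [← hg, hAapp, e2, add_zero]
  obtain ⟨g1, hg1⟩ := f1
  obtain ⟨g2, hg2⟩ := h2 f
  refine ⟨g1 + P1 g2, ?_⟩
  rw [map_add, hg1, ← d12, hg2]
  conv_rhs => rw [← isum f, f0, zero_add]

end Pool.Agent.Lib.P9f173dU
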