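import Pool.Agent.Lib.P9f173dU.Conv
import Pool.Agent.Lib.Z9f173d.Contr

/-!
Vanishing of the homology in the two descriptions.
-/

namespace Pool.Agent.Lib.P9f173dU

open Pool.Agent.Lib.P9f173d
open scoped Matrix

universe u

variable {Γ : Type u} [Group Γ]

/-- An element of the reduced algebra as an operator. -/
def cz (x : Z9f173d.CRed Γ) : Z9f173d.L2 Γ →L[ℂ] Z9f173d.L2 Γ := x.1

theorem cz_mul (x y : Z9f173d.CRed Γ) : cz (x * y) = cz x * cz y := rfl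

theorem cz_zero : cz (0 : Z9f173d.CRed Γ) = 0 := rfl

theorem cz_add (x y : Z9f173d.CRed Γ) : cz (x + y) = cz x + cz y := rfl

theorem cz_inj {x y : Z9f173d.CRed Γ} (h : cz x = cz y) : x = y := Subtype.ext h

theorem cz_sum {ι : Type*} (s : Finset ι) (f : ι → Z9f173d.CRed Γ) :
    cz (∑ i ∈ s, f i) = ∑ i ∈ s, cz (f i) := by
  classical
  induction s using Finset.induction_on with
  | empty => simp [cz_zero]
  | insert a s ha ih => rw [Finset.sum_insert ha, Finset.sum_insert ha, cz_add, ih]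

theorem cz_toCRed (x : MonoidAlgebra ℤ Γ) :
    cz (Z9f173d.toCRed Γ x) = MonoidAlgebra.lift ℤ (Z9f173d.L2 Γ →L[ℂ] Z9f173d.L2 Γ) Γ
      (P9f173dA.lamHom Γ) x := by
  induction x using MonoidAlgebra.induction_linear with
  | zero => rw [map_zero, map_zero, cz_zero]
  | add a b ha hb => rw [map_add, map_add, cz_add, ha, hb]
  | single g r =>
    rw [MonoidAlgebra.lift_single]
    unfold Z9f173d.toCRed
    show cz (MonoidAlgebra.lift ℤ (Z9f173d.CRed Γ) Γ (Z9f173d.lamC Γ)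
      (MonoidAlgebra.single g r)) = _
    rw [MonoidAlgebra.lift_single]
    have h1 : cz (Z9f173d.lamC Γ g) = P9f173dA.lamHom Γ g := by
      ext ξ x
      show (1 : ℂ) • (ξ (g⁻¹ * x)) = ξ (g⁻¹ * x)
      rw [one_smul]
    rw [← h1]
    rfl

theorem redAlg_eq : (Pool.Agent.Lib.P9f173d.redAlg (P9f173dA.lamHom Γ) :
      Set (Z9f173d.L2 Γ →L[ℂ] Z9f173d.L2 Γ)) =
    ((Z9f173d.redAlg Γ : Subring (Z9f173d.Ops Γ)) : Set (Z9f173d.Ops Γ)) := by
  unfold Pool.Agent.Lib.P9f173d.redAlg Z9f173d.redAlg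
  show closure _ = closure ((Subring.closure
      {T : Z9f173d.Ops Γ | ∃ (c : ℂ) (g : Γ), T = Z9f173d.scLam c g} :
        Subring (Z9f173d.Ops Γ)) : Set (Z9f173d.Ops Γ))
  apply le_antisymm
  · apply closure_mono
    rintro _ ⟨x, rfl⟩
    show MonoidAlgebra.lift ℂ _ Γ (P9f173dA.lamHom Γ) x ∈ (Subring.closure
      {T : Z9f173d.Ops Γ | ∃ (c : ℂ) (g : Γ), T = Z9f173d.scLam c g})
    induction x using MonoidAlgebra.induction_linear with
    | zero => rw [map_zero]; exact Subring.zero_mem _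
    | add a b ha hb => rw [map_add]; exact Subring.add_mem _ ha hb
    | single g r =>
      apply Subring.subset_closure
      refine ⟨r, g, ?_⟩
      rw [MonoidAlgebra.lift_single]
      rfl
  · apply closure_mono
    intro T hT
    have key : Subring.closure {T : Z9f173d.Ops Γ | ∃ (c : ℂ) (g : Γ), T = Z9f173d.scLam c g} ≤
        (MonoidAlgebra.lift ℂ (Z9f173d.L2 Γ →L[ℂ] Z9f173d.L2 Γ) Γ
          (P9f173dA.lamHom Γ)).toRingHom.range := by
      rw [Subring.closure_le]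
      rintro _ ⟨c, g, rfl⟩
      refine ⟨MonoidAlgebra.single g c, ?_⟩
      show MonoidAlgebra.lift ℂ (Z9f173d.L2 Γ →L[ℂ] Z9f173d.L2 Γ) Γ
          (P9f173dA.lamHom Γ) (MonoidAlgebra.single g c) = _
      rw [MonoidAlgebra.lift_single]
      rfl
    exact key hT

/-- An operator in the reduced algebra as an element. -/
def zc (T : Z9f173d.L2 Γ →L[ℂ] Z9f173d.L2 Γ)
    (hT : T ∈ (Pool.Agent.Lib.P9f173d.redAlg (P9f173dA.lamHom Γ) :
      Set (Z9f173d.L2 Γ →L[ℂ] Z9f173d.L2 Γ))) : Z9f173d.CRed Γ := ⟨T, by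
  rw [redAlg_eq] at hT
  exact hT⟩

theorem cz_zc (T : Z9f173d.L2 Γ →L[ℂ] Z9f173d.L2 Γ)
    (hT : T ∈ (Pool.Agent.Lib.P9f173d.redAlg (P9f173dA.lamHom Γ) :
      Set (Z9f173d.L2 Γ →L[ℂ] Z9f173d.L2 Γ))) : cz (zc T hT) = T := rfl

theorem cz_mem (x : Z9f173d.CRed Γ) : cz x ∈ (Pool.Agent.Lib.P9f173d.redAlg (P9f173dA.lamHom Γ) :
      Set (Z9f173d.L2 Γ →L[ℂ] Z9f173d.L2 Γ)) := by
  rw [redAlg_eq]
  exact x.2

theorem cz_vecMul {m k : ℕ} (v : Fin m → Z9f173d.CRed Γ)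
    (M : Matrix (Fin m) (Fin k) (MonoidAlgebra ℤ Γ)) (j : Fin k) :
    cz ((v ᵥ* M.map (Z9f173d.toCRed Γ)) j) = ∑ i, cz (v i) *
      MonoidAlgebra.lift ℤ (Z9f173d.L2 Γ →L[ℂ] Z9f173d.L2 Γ) Γ (P9f173dA.lamHom Γ) (M i j) := by
  have h1 : (v ᵥ* M.map (Z9f173d.toCRed Γ)) j = ∑ i, v i * Z9f173d.toCRed Γ (M i j) := rfl
  rw [h1, cz_sum]
  apply Finset.sum_congr rfl
  intro i _
  rw [cz_mul, cz_toCRed]

theorem z_lift (R : FinRes Γ) (i : ℕ) (h : ¬ HomologyNonzero R (P9f173dA.lamHom Γ) i)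
    (v : Fin (rk R i) → Z9f173d.CRed Γ)
    (hv : ∀ c', ∑ c, ext0 R i (fun j => cz (v j)) c *
        MonoidAlgebra.lift ℤ (Z9f173d.L2 Γ →L[ℂ] Z9f173d.L2 Γ) Γ (P9f173dA.lamHom Γ)
          (R.bd c c') = 0) :
      ∃ w : Fin (rk R (i + 1)) → Z9f173d.CRed Γ,
        w ᵥ* (mt R i).map (Z9f173d.toCRed Γ) = v := by
  unfold HomologyNonzero at h
  push Not at h
  obtain ⟨y, hy1, hy2, hy3⟩ := h (ext0 R i (fun j => cz (v j)))
    (by
      intro c
      unfold ext0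
      split_ifs
      · exact cz_mem _
      · have := cz_mem (0 : Z9f173d.CRed Γ)
        exact this)
    (fun c hc => ext0_ne R _ hc) hv
  refine ⟨fun j => zc (y (en R (i + 1) j).1) (hy1 _), ?_⟩
  funext k
  apply cz_inj
  have h1 := hy3 (en R i k).1
  rw [ext0_en, sum_en R (i + 1)] at h1
  · rw [← h1, cz_vecMul]
    rfl
  · intro c hc
    rw [hy2 c hc, zero_mul]

theorem z_cycle0 (R : FinRes Γ) (v : Fin (rk R 0) → Z9f173d.CRed Γ) (c' : R.cell) :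
    ∑ c, ext0 R 0 (fun j => cz (v j)) c *
        MonoidAlgebra.lift ℤ (Z9f173d.L2 Γ →L[ℂ] Z9f173d.L2 Γ) Γ (P9f173dA.lamHom Γ)
          (R.bd c c') = 0 := by
  apply Finset.sum_eq_zero
  intro c _
  by_cases h : R.bd c c' = 0
  · rw [h, map_zero, mul_zero]
  · have := R.bd_dim _ _ h
    rw [ext0_ne, zero_mul]
    omega

theorem z_cycle (R : FinRes Γ) (i : ℕ) (v : Fin (rk R (i + 1)) → Z9f173d.CRed Γ)
    (hv : v ᵥ* (mt R i).map (Z9f173d.toCRed Γ) = 0) (c' : R.cell) :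
    ∑ c, ext0 R (i + 1) (fun j => cz (v j)) c *
        MonoidAlgebra.lift ℤ (Z9f173d.L2 Γ →L[ℂ] Z9f173d.L2 Γ) Γ (P9f173dA.lamHom Γ)
          (R.bd c c') = 0 := by
  by_cases hc' : R.dim c' = i
  · obtain ⟨k, hk⟩ : ∃ k, (en R i k).1 = c' := ⟨(en R i).symm ⟨c', hc'⟩, by simp⟩
    rw [← hk, sum_en R (i + 1)]
    · have h1 := congrArg cz (congrFun hv k)
      rw [cz_vecMul] at h1
      simp only [ext0_en]
      exact h1
    · intro c hc
      rw [ext0_ne R _ hc, zero_mul]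
  · apply Finset.sum_eq_zero
    intro c _
    by_cases h : R.bd c c' = 0
    · rw [h, map_zero, mul_zero]
    · have := R.bd_dim _ _ h
      rw [ext0_ne, zero_mul]
      omega

theorem z_homology (R : FinRes Γ) (i : ℕ) (h : ¬ HomologyNonzero R (P9f173dA.lamHom Γ) i) :
    ¬ Nontrivial ((toZ R).homology i) := by
  rw [Z9f173d.FinRes.not_nontrivial_iff]
  intro v hv
  cases i with
  | zero =>
    obtain ⟨w, hw⟩ := z_lift R 0 h v (z_cycle0 R v)
    exact ⟨w, hw⟩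
  | succ i =>
    have hv' : v ᵥ* (mt R i).map (Z9f173d.toCRed Γ) = 0 := hv
    obtain ⟨w, hw⟩ := z_lift R (i + 1) h v (z_cycle R i v hv')
    exact ⟨w, hw⟩

end Pool.Agent.Lib.P9f173dU
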