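import Pool.Agent.Lib.P9f173dU.Low
import Pool.Agent.Lib.P9f173dU.Concl
import Pool.Agent.Lib.P9f173dU.Trace
import Pool.Agent.Lib.P9f173dU.ZConv
import Pool.Agent.Lib.P9f173dU.Amen
import Pool.Agent.Lib.P9f173dT.Back
import Pool.Agent.Lib.Z9f173d.Final1

/-!
Groups of dimension two that are not amenable, with nonnegative Euler characteristic.
-/

namespace Pool.Agent.Lib.P9f173dU

open Pool.Agent.Lib.P9f173d

universe u

variable {Γ : Type u} [Group Γ]

theorem ext_ev {X : Type*} {f g : L2 X} (h : ∀ v, ev f v = ev g v) : f = g := by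
  ext x
  have := h (Finsupp.single x 1)
  rwa [ev_single, ev_single, one_mul, one_mul] at this

theorem ev_Pk {ι : Type*} [Fintype ι] (dim : ι → ℕ) (k : ℕ) (f : L2 (Γ × ι))
    (v : Γ × ι →₀ ℂ) : ev (Pk Γ dim k f) v = ev f (fl (fun p : Γ × ι => dim p.2) k v) := by
  have key : ev (Pk Γ dim k f) = ev f ∘ₗ fl (fun p : Γ × ι => dim p.2) k := by
    apply Finsupp.lhom_ext'
    rintro ⟨x, c⟩
    ext
    simp only [LinearMap.coe_comp, Function.comp_apply, Finsupp.lsingle_apply]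
    rw [ev_single, Pk_apply, fl_single]
    split_ifs
    · rw [ev_single]
    · rw [map_zero, mul_zero]
  exact congrArg (fun T => T v) key

theorem ev_La {ι : Type*} [Fintype ι] (x : Γ) (f : L2 (Γ × ι))
    (v : Γ × ι →₀ ℂ) : ev (La ι x f) v = ev f (prep (lact Γ ι) x⁻¹ v) := by
  have key : ev (La ι x f) = ev f ∘ₗ prep (lact Γ ι) x⁻¹ := by
    apply Finsupp.lhom_ext'
    rintro ⟨y, c⟩
    ext
    simp only [LinearMap.coe_comp, Function.comp_apply, Finsupp.lsingle_apply]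
    rw [ev_single, La_apply, prep_single, ev_single, lact_apply]
  exact congrArg (fun T => T v) key

/-- Exactness on square-summable cochains. -/
theorem hhExact_two (R : FinRes Γ) (hn : ∀ c, R.dim c ≤ 2)
    (hna : ¬ Z9f173d.FoelnerAmenable Γ)
    (hχ : (Finset.univ.filter fun c => R.dim c = 1).card ≤
      (Finset.univ.filter fun c => R.dim c = 0).card +
        (Finset.univ.filter fun c => R.dim c = 2).card)
    (hT : (ofRes R hn).TopEx) : HHExact (R.toFreeRes.toCx (MonoidHom.id Γ)) := by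
  classical
  obtain ⟨D, hD⟩ : ∃ D : L2 (Γ × R.cell) →L[ℂ] L2 (Γ × R.cell),
      ∀ (f : L2 (Γ × R.cell)) (v : Γ × R.cell →₀ ℂ), ev (D f) v = ev f (mbd R.toFreeRes.bdC v) :=
    exists_dual (ofRes R hn).free (ofRes R hn).fin (ofRes R hn).free
      (ofRes R hn).fin (ofRes R hn).d (ofRes R hn).d_act
  obtain ⟨S, ε, hε, hgap⟩ := gap_of_not_foelner hna
  obtain ⟨K0, hK0⟩ : ∃ K : ℝ, ∀ f : L2 (Γ × R.cell),
      (∀ x : Γ × R.cell, f x ≠ 0 → R.dim x.2 = 0) → ‖f‖ ≤ K * ‖D f‖ :=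
    (ofRes R hn).low D hD S ε hε hgap
  have hdd : ∀ v : Γ × R.cell →₀ ℂ, mbd R.toFreeRes.bdC (mbd R.toFreeRes.bdC v) = 0 :=
    (ofRes R hn).d_d
  have hfl : ∀ (k : ℕ) (v : Γ × R.cell →₀ ℂ),
      mbd R.toFreeRes.bdC (fl (fun p : Γ × R.cell => R.dim p.2) (k + 1) v) =
        fl (fun p : Γ × R.cell => R.dim p.2) k (mbd R.toFreeRes.bdC v) :=
    fun k v => (ofRes R hn).d_fl k v
  have hac : ∀ (x : Γ) (v : Γ × R.cell →₀ ℂ),
      mbd R.toFreeRes.bdC (prep (lact Γ R.cell) x v) =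
        prep (lact Γ R.cell) x (mbd R.toFreeRes.bdC v) :=
    fun x v => (ofRes R hn).d_act x v
  have hHH : ∀ f : L2 (Γ × R.cell), HH (prep (lact Γ R.cell)) (ev f) :=
    fun f => (ofRes R hn).HH_ev f
  have hL2 : ∀ u : (Γ × R.cell →₀ ℂ) →ₗ[ℂ] ℂ, HH (prep (lact Γ R.cell)) u →
      ∃ f : L2 (Γ × R.cell), u = ev f := fun u hu => (ofRes R hn).exists_L2 hu
  have hT' : ∀ u : (Γ × R.cell →₀ ℂ) →ₗ[ℂ] ℂ, HH (prep (lact Γ R.cell)) u →
      ∃ w : (Γ × R.cell →₀ ℂ) →ₗ[ℂ] ℂ, HH (prep (lact Γ R.cell)) w ∧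
        ∀ v : Γ × R.cell →₀ ℂ, (∀ x, v x ≠ 0 → R.dim x.2 = 2) →
          u v = w (mbd R.toFreeRes.bdC v) := hT
  clear hT
  have hev0 : ∀ v : Γ × R.cell →₀ ℂ, ev ((0 : L2 (Γ × R.cell)) : Γ × R.cell → ℂ) v = 0 := by
    intro v
    rw [ev_apply]
    apply Finset.sum_eq_zero
    intro x _
    exact mul_zero _
  have hDD : ∀ f, D (D f) = 0 := by
    intro f
    apply ext_ev
    intro v
    rw [hD, hD, hdd]
    exact (map_zero _).trans (hev0 v).symm
  have hPD : ∀ k f, Pk Γ R.dim (k + 1) (D f) = D (Pk Γ R.dim k f) := by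
    intro k f
    apply ext_ev
    intro v
    rw [ev_Pk, hD, hD, ev_Pk, hfl]
  have hLD : ∀ x, D ∘L La R.cell x = La R.cell x ∘L D := by
    intro x
    refine ContinuousLinearMap.ext fun f => ?_
    apply ext_ev
    intro v
    show ev (D (La R.cell x f)) v = ev (La R.cell x (D f)) v
    rw [hD, ev_La, ev_La, hD, hac]
  have h0 : ∃ K : ℝ, ∀ f, ‖Pk Γ R.dim 0 f‖ ≤ K * ‖D (Pk Γ R.dim 0 f)‖ := by
    refine ⟨K0, fun f => hK0 _ ?_⟩
    rintro ⟨x, c⟩ hx
    by_contra hne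
    apply hx
    rw [Pk_apply, if_neg]
    exact hne
  have h2 : ∀ f, ∃ g, Pk Γ R.dim 2 (D g) = Pk Γ R.dim 2 f := by
    intro f
    obtain ⟨w, hw1, hw2⟩ := hT' (ev f) (hHH f)
    obtain ⟨g, rfl⟩ := hL2 w hw1
    refine ⟨g, ?_⟩
    ext ⟨x, c⟩
    rw [Pk_apply, Pk_apply]
    split_ifs with hc
    · have h1 := hw2 (Finsupp.single (x, c) 1) (by
        intro y hy
        have : y = (x, c) := by
          by_contra hne
          exact hy (Finsupp.single_eq_of_ne hne)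
        rw [this]
        exact hc)
      rw [← hD, ev_single, ev_single, one_mul, one_mul] at h1
      exact h1.symm
    · rfl
  have hmain := trace_argument R.dim hn hχ D hDD hPD hLD h0 h2
  have hgoal : ∀ u : (Γ × R.cell →₀ ℂ) →ₗ[ℂ] ℂ, HH (prep (lact Γ R.cell)) u →
      (∀ v, u (mbd R.toFreeRes.bdC v) = 0) →
        ∃ w : (Γ × R.cell →₀ ℂ) →ₗ[ℂ] ℂ, HH (prep (lact Γ R.cell)) w ∧
          ∀ v, u v = w (mbd R.toFreeRes.bdC v) := by
    intro u hu hud
    obtain ⟨f, rfl⟩ := hL2 u hu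
    have hf : D f = 0 := by
      apply ext_ev
      intro v
      rw [hD, hev0, hud]
    obtain ⟨g, hg⟩ := hmain f hf
    refine ⟨ev g, hHH g, ?_⟩
    intro v
    rw [← hD, hg]
  exact hgoal

/-- **Dimension two**. -/
theorem top_two (R : FinRes Γ) (hn : ∀ c, R.dim c ≤ 2)
    (hna : ¬ Z9f173d.FoelnerAmenable Γ)
    (hχ : (Finset.univ.filter fun c => R.dim c = 1).card ≤
      (Finset.univ.filter fun c => R.dim c = 0).card +
        (Finset.univ.filter fun c => R.dim c = 2).card) : (ofRes R hn).Top := by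
  classical
  rw [BCx.top_iff]
  intro hT
  have hex := hhExact_two R hn hna hχ hT
  let b : HilbertBasis Γ ℂ (lp (fun _ : Γ => ℂ) 2) :=
    HilbertBasis.ofRepr (LinearIsometryEquiv.refl ℂ _)
  have hb : ∀ g : Γ, b g = dl g := by
    intro g
    ext x
    rw [dl_apply]
    have h1 : b.repr (b g) = lp.single 2 g (1 : ℂ) := b.repr_self g
    have h2 : b.repr (b g) = b g := rfl
    rw [← h2, h1, lp.single_apply]
    by_cases h : x = g
    · subst h
      simp
    · rw [Pi.single_eq_of_ne h, if_neg h]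
  have hlam : ∀ g h, P9f173dA.lamHom Γ g (b h) = b (g * h) := by
    intro g h
    rw [hb, hb]
    ext x
    show dl h (g⁻¹ * x) = dl (g * h) x
    rw [dl_apply, dl_apply]
    by_cases hx : x = g * h
    · rw [if_pos hx, if_pos]
      rw [hx]; simp
    · rw [if_neg hx, if_neg]
      intro h'
      apply hx
      rw [← h']; simp
  have hno : ∀ i, ¬ HomologyNonzero R (P9f173dA.lamHom Γ) i :=
    fun i => P9f173dT.not_homologyNonzero R hlam hex i
  have h3 : (toZ R).rank 3 = 0 := by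
    show rk R 3 = 0
    unfold rk
    rw [Fintype.card_eq_zero_iff]
    constructor
    rintro ⟨c, hc⟩
    have := hn c
    omega
  exact Z9f173d.dim_two (toZ R) h3 (z_homology R 0 (hno 0)) (z_homology R 1 (hno 1))
    (z_homology R 2 (hno 2))

end Pool.Agent.Lib.P9f173dU
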