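import Pool.Agent.Lib.P9f173dU.Class
import Pool.Agent.Lib.P9f173dU.Folner
import Pool.Agent.Lib.P9f173dU.PolyZ
import Pool.Agent.Lib.P9f173dU.Two
import Pool.Agent.Lib.P9f173dU.Prod
import Pool.Agent.Lib.P9f173dU.Concl

/-!
The class of groups has the top degree property.
-/

namespace Pool.Agent.Lib.P9f173dU

open Pool.Agent.Lib.P9f173d

universe u

theorem card_of_euler {ι : Type*} [Fintype ι] (dim : ι → ℕ) (hdim : ∀ c, dim c ≤ 2)
    (h : 0 ≤ ∑ c, (-1 : ℤ) ^ dim c) :
    (Finset.univ.filter fun c => dim c = 1).card ≤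
      (Finset.univ.filter fun c => dim c = 0).card +
        (Finset.univ.filter fun c => dim c = 2).card := by
  classical
  have h1 : ∀ c, (-1 : ℤ) ^ dim c =
      (if dim c = 0 then 1 else 0) + (if dim c = 2 then 1 else 0) - (if dim c = 1 then 1 else 0) := by
    intro c
    have := hdim c
    have h5 : dim c = 0 ∨ dim c = 1 ∨ dim c = 2 := by omega
    rcases h5 with h | h | h <;> simp [h]
  simp only [h1, Finset.sum_add_distrib, Finset.sum_sub_distrib] at h
  have h2 : ∀ k, ((Finset.univ.filter fun c => dim c = k).card : ℤ) =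
      ∑ c, if dim c = k then 1 else 0 := by
    intro k
    rw [Finset.card_filter]
    push_cast
    rfl
  rw [← h2, ← h2, ← h2] at h
  omega

theorem TopClass.gtop {G : Type u} [Group G] {n : ℕ} (h : TopClass G n) : GTop G n := by
  induction h with
  | folner R z hn hz => exact ⟨ofRes R hn, hz.top hn⟩
  | polycyclic R t hn ht =>
    exact ⟨ofRes R hn, polyZ_top R hn (show Pool.Agent.Lib.P9f173dA.IsPolyZ t from ht)⟩
  | euler R hn hG hR =>
    exact ⟨ofRes R hn, top_two R hn (fun h => hG h) (card_of_euler R.dim hn hR)⟩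
  | prod _ _ ih1 ih2 =>
    obtain ⟨C, hC⟩ := ih1
    obtain ⟨D, hD⟩ := ih2
    exact ⟨C.prod D, hC.prod hD⟩
  | finiteIndex f hf hf' _ ih =>
    obtain ⟨C, hC⟩ := ih
    exact ⟨C.restr f hf, hC.restr f hf⟩
  | overgroup R f hn hf _ ih =>
    obtain ⟨C, hC⟩ := ih
    exact ⟨ofRes R hn, hC.mono (ofRes R hn) f hf⟩

end Pool.Agent.Lib.P9f173dU
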