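import Pool.Agent.Lib.P9f173dU.FA
import Pool.Agent.Lib.P9f173d.Conv

/-!
Monotonicity of the top degree condition.
-/

namespace Pool.Agent.Lib.P9f173dU

open Pool.Agent.Lib.P9f173d

universe u

section fl

variable {X : Type*}

/-- The projection to the part of degree `k`. -/
noncomputable def fl (deg : X → ℕ) (k : ℕ) : (X →₀ ℂ) →ₗ[ℂ] (X →₀ ℂ) where
  toFun F := F.filter (fun p => deg p = k)
  map_add' _ _ := Finsupp.filter_add
  map_smul' _ _ := Finsupp.filter_smul

theorem fl_apply (deg : X → ℕ) (k : ℕ) (F : X →₀ ℂ) (p : X) :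
    fl deg k F p = if deg p = k then F p else 0 := Finsupp.filter_apply _ _ _

theorem fl_single (deg : X → ℕ) (k : ℕ) (x : X) (c : ℂ) :
    fl deg k (Finsupp.single x c) = if deg x = k then Finsupp.single x c else 0 := by
  classical
  ext p
  rw [fl_apply]
  split_ifs with h1 h2 h2
  · rfl
  · rw [Finsupp.single_apply, if_neg]
    · rfl
    · rintro rfl; exact h2 h1
  · rw [Finsupp.single_apply, if_neg]
    rintro rfl; exact h1 h2
  · rfl

end fl

namespace BCx

variable {Γ : Type u} [Group Γ] {n : ℕ} (C : BCx Γ n)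

theorem d_fl (k : ℕ) (v : C.X →₀ ℂ) : C.d (fl C.deg (k + 1) v) = fl C.deg k (C.d v) := by
  classical
  have key : C.d ∘ₗ fl C.deg (k + 1) = fl C.deg k ∘ₗ C.d := by
    apply Finsupp.lhom_ext'
    intro x
    ext y
    simp only [LinearMap.coe_comp, Function.comp_apply, Finsupp.lsingle_apply]
    rw [fl_single, fl_apply]
    by_cases h0 : C.d (Finsupp.single x 1) y = 0
    · rw [h0]
      split_ifs <;> simp [h0]
    · have h1 := C.d_deg x y h0
      by_cases hk : C.deg y = k
      · rw [if_pos hk, if_pos (by omega)]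
      · rw [if_neg hk, if_neg (by omega), map_zero]
        rfl
  exact congrArg (fun T => T v) key

theorem d_fl0 (v : C.X →₀ ℂ) : C.d (fl C.deg 0 v) = 0 := by
  classical
  have key : C.d ∘ₗ fl C.deg 0 = 0 := by
    apply Finsupp.lhom_ext'
    intro x
    ext y
    simp only [LinearMap.coe_comp, Function.comp_apply, Finsupp.lsingle_apply]
    rw [fl_single]
    by_cases h0 : C.d (Finsupp.single x 1) y = 0
    · split_ifs <;> simp [h0]
    · have h1 := C.d_deg x y h0
      rw [if_neg (by omega)]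
      simp
  exact congrArg (fun T => T v) key

theorem ε_fl (k : ℕ) (v : C.X →₀ ℂ) (hk : k ≠ 0) : C.ε (fl C.deg k v) = 0 := by
  classical
  have key : C.ε ∘ₗ fl C.deg k = 0 := by
    apply Finsupp.lhom_ext'
    intro x
    ext
    simp only [LinearMap.coe_comp, Function.comp_apply, Finsupp.lsingle_apply,
      LinearMap.zero_apply]
    rw [fl_single]
    by_cases h0 : C.ε (Finsupp.single x 1) = 0
    · split_ifs <;> simp [h0]
    · have h1 := C.ε_deg x h0
      rw [if_neg (by omega), map_zero]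
  exact congrArg (fun T => T v) key

theorem fl_act (k : ℕ) : Eqv (prep C.act) (prep C.act) (fl C.deg k) := by
  intro γ v
  ext x
  rw [fl_apply, prep_apply, prep_apply, fl_apply, C.deg_act]

/-- The complex as a complex of representations of a group mapping to `Γ`. -/
noncomputable def res {Δ : Type*} [Group Δ] (β : Δ →* Γ) : Cx Δ where
  V := C.X →₀ ℂ
  ρ := rrep (prep C.act) β
  d := C.d
  e := fl C.deg
  ε := C.ε
  bd := n
  e_idem := by
    intro k v
    ext p
    rw [fl_apply, fl_apply]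
    split_ifs <;> rfl
  e_orth := by
    intro k l v hkl
    ext p
    rw [fl_apply, fl_apply]
    split_ifs with h1 h2
    · exact absurd (h1.symm.trans h2) hkl
    · rfl
    · rfl
  e_sum := by
    intro v
    ext p
    rw [Finsupp.finsetSum_apply]
    simp only [fl_apply]
    rw [Finset.sum_ite_eq, if_pos]
    rw [Finset.mem_range]
    have := C.deg_le p
    omega
  d_e := fun k v => C.d_fl k v
  d_e0 := fun v => C.d_fl0 v
  d_d := C.d_d
  ε_d := C.ε_d
  ε_e := fun k v hk => C.ε_fl k v hk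
  ρ_d := fun γ v => C.d_act (β γ) v
  ρ_e := fun k γ v => C.fl_act k (β γ) v
  ρ_ε := fun γ v => C.ε_act (β γ) v

theorem res_exact {Δ : Type*} [Group Δ] (β : Δ →* Γ) : (C.res β).Exact := ⟨C.exact, C.surj⟩

theorem res_proj {Δ : Type*} [Group Δ] (β : Δ →* Γ) (hβ : Function.Injective β) :
    Proj (C.res β).ρ := by
  have := proj_prep (C.act.comp β) (by
    intro γ x h
    have h3 : β γ = 1 := C.free _ _ h
    exact hβ (by rw [h3, map_one]))
  exact this

theorem fl_top_succ (v : C.X →₀ ℂ) : fl C.deg (n + 1) v = 0 := by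
  ext x
  rw [fl_apply, if_neg]
  · rfl
  · have := C.deg_le x
    omega

theorem fl_top_d (v : C.X →₀ ℂ) : fl C.deg n (C.d v) = 0 := by
  rw [← C.d_fl, fl_top_succ, map_zero]

theorem fl_of_deg {k : ℕ} {v : C.X →₀ ℂ} (hv : ∀ x, v x ≠ 0 → C.deg x = k) :
    fl C.deg k v = v := by
  ext x
  rw [fl_apply]
  split_ifs with h
  · rfl
  · by_contra hne
    exact h (hv x (Ne.symm hne))

/-- Exactness on square-summable functionals implies solvability in the top degree. -/
theorem topEx_of_hhExact (h : HHExact (C.res (MonoidHom.id Γ))) : C.TopEx := by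
  have h' : ∀ u : (C.X →₀ ℂ) →ₗ[ℂ] ℂ, HH (prep C.act) u → (∀ v : C.X →₀ ℂ, u (C.d v) = 0) →
      ∃ w : (C.X →₀ ℂ) →ₗ[ℂ] ℂ, HH (prep C.act) w ∧ ∀ v : C.X →₀ ℂ, u v = w (C.d v) := h
  intro u hu
  obtain ⟨w, hw1, hw2⟩ := h' (u ∘ₗ fl C.deg n) (hu.comp (C.fl_act n)) (by
    intro v
    rw [LinearMap.comp_apply, C.fl_top_d, map_zero])
  refine ⟨w, hw1, ?_⟩
  intro v hv
  rw [← hw2, LinearMap.comp_apply, C.fl_of_deg hv]

/-- Comparison of a complex with the restriction of another one. -/
theorem compare {Δ : Type u} [Group Δ] (C : BCx Δ n) {m : ℕ} (D : BCx Γ m) (β : Δ →* Γ)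
    (hβ : Function.Injective β) :
    ∃ (f : (C.X →₀ ℂ) →ₗ[ℂ] (D.X →₀ ℂ)) (g : (D.X →₀ ℂ) →ₗ[ℂ] (C.X →₀ ℂ))
      (k : (C.X →₀ ℂ) →ₗ[ℂ] (C.X →₀ ℂ)) (l : (D.X →₀ ℂ) →ₗ[ℂ] (D.X →₀ ℂ)),
      Eqv (prep C.act) (rrep (prep D.act) β) f ∧ Eqv (rrep (prep D.act) β) (prep C.act) g ∧
      Eqv (prep C.act) (prep C.act) k ∧
      Eqv (rrep (prep D.act) β) (rrep (prep D.act) β) l ∧
      (∀ v, D.d (f v) = f (C.d v)) ∧ (∀ v, C.d (g v) = g (D.d v)) ∧
      (∀ j v, f (fl C.deg j v) = fl D.deg j (f v)) ∧
      (∀ j v, g (fl D.deg j v) = fl C.deg j (g v)) ∧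
      (∀ v, C.d (k v) + k (C.d v) = g (f v) - v) ∧
      (∀ v, D.d (l v) + l (D.d v) = f (g v) - v) := by
  have eC := C.res_exact (MonoidHom.id Δ)
  have eD := D.res_exact β
  have pC := C.res_proj (MonoidHom.id Δ) Function.injective_id
  have pD := D.res_proj β hβ
  obtain ⟨f, f1, f2, f3, f4⟩ := Cx.exists_chain_map pC eD
  obtain ⟨g, g1, g2, g3, g4⟩ := Cx.exists_chain_map pD eC
  obtain ⟨k, k1, k2⟩ := Cx.exists_homotopy (φ := g ∘ₗ f - LinearMap.id) pC eC
    (by
      intro γ m
      simp only [LinearMap.sub_apply, LinearMap.comp_apply, LinearMap.id_apply]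
      rw [f1, g1, map_sub])
    (by
      intro v
      simp only [LinearMap.sub_apply, LinearMap.comp_apply, LinearMap.id_apply]
      rw [map_sub, g2, f2])
    (by
      intro v
      simp only [LinearMap.sub_apply, LinearMap.comp_apply, LinearMap.id_apply]
      rw [map_sub, g3, f3, sub_self])
    (by
      intro j v
      simp only [LinearMap.sub_apply, LinearMap.comp_apply, LinearMap.id_apply]
      rw [map_sub, f4, g4])
  obtain ⟨l, l1, l2⟩ := Cx.exists_homotopy (φ := f ∘ₗ g - LinearMap.id) pD eD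
    (by
      intro γ m
      simp only [LinearMap.sub_apply, LinearMap.comp_apply, LinearMap.id_apply]
      rw [g1, f1, map_sub])
    (by
      intro v
      simp only [LinearMap.sub_apply, LinearMap.comp_apply, LinearMap.id_apply]
      rw [map_sub, f2, g2])
    (by
      intro v
      simp only [LinearMap.sub_apply, LinearMap.comp_apply, LinearMap.id_apply]
      rw [map_sub, f3, g3, sub_self])
    (by
      intro j v
      simp only [LinearMap.sub_apply, LinearMap.comp_apply, LinearMap.id_apply]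
      rw [map_sub, g4, f4])
  exact ⟨f, g, k, l, f1, g1, k1, l1, f2, g2, f4, g4, k2, l2⟩

/-- Solvability in the top degree passes to subgroups of the same dimension. -/
theorem TopEx.mono {Δ : Type u} [Group Δ] {D : BCx Γ n} (hD : D.TopEx) (C : BCx Δ n)
    (β : Δ →* Γ) (hβ : Function.Injective β) : C.TopEx := by
  classical
  obtain ⟨f, g, k, -, f1, g1, k1, -, f2, g2, f4, g4, k2, -⟩ := compare C D β hβ
  intro u hu
  -- a finite set of orbit representatives and the part of `D` reached by `f`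
  obtain ⟨B, hB⟩ := C.fin
  let B' : Finset D.X := B.biUnion fun b => (f (Finsupp.single b 1)).support
  let T : Set D.X := {y | ∃ δ, ∃ b ∈ B', D.act (β δ) b = y}
  have hT : ∀ x y, f (Finsupp.single x 1) y ≠ 0 → y ∈ T := by
    intro x y hxy
    obtain ⟨δ, hδ⟩ := hB x
    have h1 : f (Finsupp.single (C.act δ x) 1) = prep D.act (β δ) (f (Finsupp.single x 1)) := by
      have := f1 δ (Finsupp.single x 1)
      rw [prep_single, rrep_apply] at this
      exact this
    refine ⟨δ⁻¹, D.act (β δ) y, ?_, ?_⟩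
    · rw [Finset.mem_biUnion]
      refine ⟨_, hδ, ?_⟩
      rw [Finsupp.mem_support_iff, h1, prep_apply, map_inv]
      simpa using hxy
    · rw [← Equiv.Perm.mul_apply, ← map_mul, ← map_mul]
      simp
  let u1 : (C.X →₀ ℂ) →ₗ[ℂ] ℂ := u ∘ₗ fl C.deg n
  have hu1 : HH (prep C.act) u1 := hu.comp (C.fl_act n)
  have hu1d : ∀ v, u1 (C.d v) = 0 := by
    intro v
    show u (fl C.deg n (C.d v)) = 0
    rw [C.fl_top_d, map_zero]
  let u2 : (D.X →₀ ℂ) →ₗ[ℂ] ℂ := u1 ∘ₗ g
  have hu2 : HH (rrep (prep D.act) β) u2 := hu1.comp g1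
  let u3 : (D.X →₀ ℂ) →ₗ[ℂ] ℂ := ev fun y => if y ∈ T then u2 (Finsupp.single y 1) else 0
  have hu3 : ∀ v, u3 (f v) = u2 (f v) := by
    intro v
    have key : u3 ∘ₗ f = u2 ∘ₗ f := by
      apply Finsupp.lhom_ext'
      intro x
      ext
      simp only [LinearMap.coe_comp, Function.comp_apply, Finsupp.lsingle_apply]
      conv_rhs => rw [← ev_coe u2]
      simp only [u3]
      rw [ev_apply, ev_apply]
      apply Finset.sum_congr rfl
      intro y hy
      rw [if_pos (hT x y (Finsupp.mem_support_iff.mp hy))]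
    exact congrArg (fun S => S v) key
  have hinj : ∀ b, Function.Injective (fun δ : Δ => D.act (β δ) b) := by
    intro b γ δ h
    have h1 : D.act (β (δ⁻¹ * γ)) b = b := by
      have h2 : D.act (β γ) b = D.act (β δ) b := h
      rw [map_mul, map_mul, Equiv.Perm.mul_apply, h2, map_inv, map_inv]
      simp
    have h3 := hβ ((D.free _ _ h1).trans (map_one β).symm)
    exact (inv_mul_eq_one.mp h3).symm
  have hu3HH : HH (prep D.act) u3 := by
    rw [D.HH_iff']
    have e1 : ∀ y, u3 (Finsupp.single y 1) = if y ∈ T then u2 (Finsupp.single y 1) else 0 := by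
      intro y
      simp only [u3]
      rw [ev_single, one_mul]
    have h1 : ∀ b ∈ B', Summable ((Set.range fun δ => D.act (β δ) b).indicator
        fun y => ‖u2 (Finsupp.single y 1)‖ ^ 2) := by
      intro b _
      rw [← (hinj b).summable_iff]
      · have h2 := hu2 (Finsupp.single b 1)
        refine h2.congr ?_
        intro δ
        simp only [Function.comp_apply]
        have h5 : D.act (β δ) b ∈ Set.range fun δ => D.act (β δ) b := ⟨δ, rfl⟩
        rw [Set.indicator_of_mem h5, rrep_apply, prep_single]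
      · intro y hy
        rw [Set.indicator_of_notMem hy]
    refine Summable.of_nonneg_of_le (fun x => by positivity) ?_ (summable_sum h1)
    intro y
    rw [e1]
    have hnn : ∀ b, 0 ≤ (Set.range fun δ => D.act (β δ) b).indicator
        (fun y => ‖u2 (Finsupp.single y 1)‖ ^ 2) y :=
      fun b => Set.indicator_nonneg (fun _ _ => by positivity) _
    by_cases hy : y ∈ T
    · rw [if_pos hy]
      obtain ⟨δ, b, hb, hδ⟩ := hy
      have h5 : y ∈ Set.range fun δ => D.act (β δ) b := ⟨δ, hδ⟩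
      have h4 : (Set.range fun δ => D.act (β δ) b).indicator
          (fun y => ‖u2 (Finsupp.single y 1)‖ ^ 2) y = ‖u2 (Finsupp.single y 1)‖ ^ 2 :=
        Set.indicator_of_mem h5 _
      rw [← h4]
      exact Finset.single_le_sum (f := fun b => (Set.range fun δ => D.act (β δ) b).indicator
        (fun y => ‖u2 (Finsupp.single y 1)‖ ^ 2) y) (fun b _ => hnn b) hb
    · rw [if_neg hy]
      simp only [norm_zero, ne_eq, OfNat.ofNat_ne_zero, not_false_eq_true, zero_pow]
      exact Finset.sum_nonneg fun b _ => hnn b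
  obtain ⟨w, hw1, hw2⟩ := hD u3 hu3HH
  have hwf : HH (prep C.act) (w ∘ₗ f) :=
    HH.comp (σ := rrep (prep D.act) β) (HH.restrict hβ hw1) f1
  refine ⟨w ∘ₗ f - u1 ∘ₗ k, hwf.sub (hu1.comp k1), ?_⟩
  intro v hv
  have e1 := congrArg u1 (k2 v)
  rw [map_add, hu1d, zero_add, map_sub] at e1
  have e2 : u1 (g (f v)) = w (f (C.d v)) := by
    have h1 : ∀ y, f v y ≠ 0 → D.deg y = n := by
      intro y hy
      by_contra hne
      apply hy
      rw [← C.fl_of_deg hv, f4, fl_apply, if_neg hne]
    rw [← f2, ← hw2 _ h1, hu3]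
    rfl
  have e3 : u1 v = u v := by
    show u (fl C.deg n v) = u v
    rw [C.fl_of_deg hv]
  rw [LinearMap.sub_apply, LinearMap.comp_apply, LinearMap.comp_apply, ← e2, e1, e3]
  ring

/-- Failure in the top degree passes to overgroups of the same dimension. -/
theorem Top.mono {Δ : Type u} [Group Δ] {C : BCx Δ n} (hC : C.Top) (D : BCx Γ n)
    (β : Δ →* Γ) (hβ : Function.Injective β) : D.Top := by
  rw [top_iff] at hC ⊢
  exact fun h => hC (h.mono C β hβ)

/-- Restriction to a subgroup of finite index. -/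
noncomputable def restr {Δ : Type u} [Group Δ] (β : Δ →* Γ) (hβ : Function.Injective β)
    [β.range.FiniteIndex] : BCx Δ n where
  X := C.X
  act := C.act.comp β
  free := by
    intro γ x h
    have h3 : β γ = 1 := C.free _ _ h
    exact hβ (by rw [h3, map_one])
  fin := by
    classical
    obtain ⟨B, hB⟩ := C.fin
    have : Finite (Γ ⧸ β.range) := inferInstance
    have : Fintype (Γ ⧸ β.range) := Fintype.ofFinite _
    refine ⟨(Finset.univ : Finset (Γ ⧸ β.range)).biUnion fun q =>
      B.image (C.act (Quotient.out q)⁻¹), ?_⟩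
    intro x
    obtain ⟨γ, hγ⟩ := hB x
    set q : Γ ⧸ β.range := QuotientGroup.mk γ with hq
    have h1 : (QuotientGroup.mk (Quotient.out q) : Γ ⧸ β.range) = QuotientGroup.mk γ := by
      rw [QuotientGroup.out_eq']
    rw [QuotientGroup.eq] at h1
    obtain ⟨δ, hδ⟩ := h1
    refine ⟨δ, ?_⟩
    rw [Finset.mem_biUnion]
    refine ⟨q, Finset.mem_univ _, ?_⟩
    rw [Finset.mem_image]
    refine ⟨_, hγ, ?_⟩
    show _ = C.act (β δ) x
    rw [hδ, map_mul]
    rfl
  deg := C.deg
  deg_le := C.deg_le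
  deg_act := fun γ x => C.deg_act (β γ) x
  d := C.d
  d_act := fun γ v => C.d_act (β γ) v
  d_deg := C.d_deg
  d_d := C.d_d
  ε := C.ε
  ε_act := fun γ v => C.ε_act (β γ) v
  ε_deg := C.ε_deg
  ε_d := C.ε_d
  exact := C.exact
  surj := C.surj

theorem Top.restr {C : BCx Γ n} (hC : C.Top) {Δ : Type u} [Group Δ] (β : Δ →* Γ)
    (hβ : Function.Injective β) [β.range.FiniteIndex] : (C.restr β hβ).Top := hC

end BCx

end Pool.Agent.Lib.P9f173dU
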